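import Pool.Agent.K4H5.PC.El
import Mathlib.LinearAlgebra.Lagrange
import Mathlib.LinearAlgebra.Matrix.Block
import Mathlib.LinearAlgebra.Matrix.ToLinearEquiv
import Mathlib.Analysis.Complex.Polynomial.Basic
import Mathlib.MeasureTheory.Measure.Haar.OfBasis
import Mathlib.MeasureTheory.Measure.Lebesgue.Complex
import Mathlib.Topology.Instances.Matrix

/-!
The `L²` norm of the differentials of a plane curve.
-/

set_option autoImplicit false
set_option linter.unusedSectionVars false

open Polynomial MeasureTheory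
open scoped ENNReal

namespace Pool.Agent.K4H5.PC

/-- Euler-Jacobi -/
theorem ej {q : ℂ[X]} (hs : q.roots.Nodup) (hd : 1 ≤ q.natDegree) (m : ℕ)
    (hm : m ≤ q.natDegree - 1) :
    ∑ y ∈ q.roots.toFinset, y ^ m / (derivative q).eval y =
      if m = q.natDegree - 1 then (q.leadingCoeff)⁻¹ else 0 := by
  classical
  have hq : q ≠ 0 := by
    rintro rfl
    simp at hd
  have hl : q.leadingCoeff ≠ 0 := leadingCoeff_ne_zero.2 hq
  set S := q.roots.toFinset with hS
  have hval : S.val = q.roots := by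
    rw [hS, Multiset.toFinset_val, Multiset.dedup_eq_self.2 hs]
  have hcard : S.card = q.natDegree := by
    rw [Finset.card_def, hval, ← (IsAlgClosed.splits q).natDegree_eq_card_roots]
  have hder : ∀ y ∈ S, (derivative q).eval y = q.leadingCoeff * ∏ z ∈ S.erase y, (y - z) := by
    intro y hy
    have h1 : q = C q.leadingCoeff * ∏ z ∈ S, (X - C z) := by
      conv_lhs => rw [(IsAlgClosed.splits q).eq_prod_roots]
      congr 1
      rw [Finset.prod_eq_multiset_prod, hval]
    conv_lhs => rw [h1]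
    rw [derivative_C_mul, ← Finset.mul_prod_erase S _ hy, derivative_mul]
    simp [eval_prod]
  have h1 : ∑ y ∈ S, y ^ m / (derivative q).eval y =
      (q.leadingCoeff)⁻¹ * ∑ y ∈ S, ((X : ℂ[X]) ^ m).eval (id y) /
        ∏ z ∈ S.erase y, (id y - id z) := by
    rw [Finset.mul_sum]
    refine Finset.sum_congr rfl fun y hy => ?_
    rw [hder y hy]
    simp only [eval_pow, eval_X, id]
    rw [div_eq_mul_inv, div_eq_mul_inv, mul_inv]
    ring
  have hdeg : ((X : ℂ[X]) ^ m).degree < S.card := by
    rw [degree_X_pow, hcard]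
    exact_mod_cast (by omega : m < q.natDegree)
  rw [h1, ← Lagrange.coeff_eq_sum (Set.injOn_id _) hdeg, coeff_X_pow, hcard]
  by_cases h : m = q.natDegree - 1
  · rw [if_pos h, if_pos h.symm, mul_one]
  · rw [if_neg h, if_neg (fun h' => h h'.symm), mul_zero]

section det

variable {J : Type} [Fintype J] [DecidableEq J]

theorem det_sum (S : J → Finset ℂ) (g : J → J → ℂ → ℂ) :
    ∑ y ∈ Fintype.piFinset S, (Matrix.of fun k q => g k q (y k)).det =
      (Matrix.of fun k q => ∑ z ∈ S k, g k q z).det := by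
  have h := (Matrix.detRowAlternating (n := J) (R := ℂ)).toMultilinearMap.map_sum_finset
    (α := fun _ => ℂ) (fun k z => fun q => g k q z) S
  have h2 : (Matrix.of fun k q => ∑ z ∈ S k, g k q z) =
      fun k => ∑ z ∈ S k, fun q => g k q z := by
    funext k q
    rw [Finset.sum_apply]
    rfl
  rw [h2]
  exact h.symm

theorem det_blocks {α : Type} [LinearOrder α] [Fintype α] (b : J → α) (M N : Matrix J J ℂ)
    (hM : ∀ k q, b q < b k → M k q = 0) (hN : ∀ k q, b q < b k → N k q = 0)
    (h : ∀ k q, b k = b q → M k q = N k q) : M.det = N.det := by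
  have h1 : Matrix.BlockTriangular M b := fun k q hkq => hM k q hkq
  have h2 : Matrix.BlockTriangular N b := fun k q hkq => hN k q hkq
  rw [h1.det_fintype, h2.det_fintype]
  refine Finset.prod_congr rfl fun l _ => ?_
  congr 1
  ext k q
  rw [Matrix.toSquareBlock_def, Matrix.toSquareBlock_def]
  exact h _ _ (k.2.trans q.2.symm)

end det

variable {D : ℕ}

/-- the exponent of `x` -/
def ji (q : Jdx D) : ℕ := q.1.1

/-- the exponent of `y` -/
def jj (q : Jdx D) : ℕ := q.1.2

theorem ji_jj (q : Jdx D) : ji q + jj q + 3 ≤ D := q.2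

theorem jdx_ext {q q' : Jdx D} (h1 : ji q = ji q') (h2 : jj q = jj q') : q = q' :=
  Subtype.ext (Prod.ext (Fin.ext h1) (Fin.ext h2))

/-- the product of the Vandermonde determinants -/
noncomputable def PV (x : Jdx D → ℂ) : ℂ :=
  (Matrix.of fun k q : Jdx D => if jj q = jj k then x k ^ ji q else 0).det

theorem PV_continuous : Continuous fun x : Jdx D → ℂ => PV x := by
  unfold PV
  refine Continuous.matrix_det (continuous_matrix fun k q => ?_)
  simp only [Matrix.of_apply]
  split_ifs
  · fun_prop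
  · exact continuous_const

theorem PV_ne (hD : 3 ≤ D) : PV (fun k : Jdx D => (ji k : ℂ) / D) ≠ 0 := by
  classical
  have hD0 : (D : ℂ) ≠ 0 := by exact_mod_cast (by omega : D ≠ 0)
  unfold PV
  intro h
  rw [← Matrix.exists_mulVec_eq_zero_iff] at h
  obtain ⟨v, hv, hMv⟩ := h
  apply hv
  funext q₀
  set p : ℂ[X] := ∑ q : Jdx D, if jj q = jj q₀ then C (v q) * X ^ ji q else 0 with hp
  have hdeg : p.natDegree ≤ D - 3 - jj q₀ := by
    rw [hp]
    refine natDegree_sum_le_of_forall_le _ _ fun q _ => ?_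
    split_ifs with h
    · refine (natDegree_C_mul_X_pow_le _ _).trans ?_
      have := ji_jj q
      omega
    · simp
  set s : Finset ℂ := (Finset.range (D - 2 - jj q₀)).image fun i : ℕ => (i : ℂ) / D with hs
  have hinj : Function.Injective fun i : ℕ => (i : ℂ) / D := by
    intro a b hab
    simp only at hab
    rw [div_left_inj' hD0] at hab
    exact_mod_cast hab
  have hscard : s.card = D - 2 - jj q₀ := by
    rw [hs, Finset.card_image_of_injective _ hinj, Finset.card_range]
  have hq₀ := ji_jj q₀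
  have hev : ∀ z ∈ s, p.eval z = 0 := by
    intro z hz
    rw [hs, Finset.mem_image] at hz
    obtain ⟨i, hi, rfl⟩ := hz
    rw [Finset.mem_range] at hi
    set k : Jdx D := ⟨(⟨i, by omega⟩, ⟨jj q₀, by omega⟩), by
      show i + jj q₀ + 3 ≤ D
      omega⟩ with hk
    have h1 := congrFun hMv k
    rw [Matrix.mulVec, dotProduct, Pi.zero_apply] at h1
    have hk1 : ji k = i := rfl
    have hk2 : jj k = jj q₀ := rfl
    rw [hp, eval_finsetSum, ← h1]
    refine Finset.sum_congr rfl fun q _ => ?_
    rw [Matrix.of_apply]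
    show eval _ _ = (if jj q = jj k then ((ji k : ℂ) / D) ^ ji q else 0) * v q
    rw [hk1, hk2]
    split_ifs
    · rw [eval_mul, eval_C, eval_pow, eval_X]
      ring
    · rw [eval_zero, zero_mul]
  have hp0 : p = 0 := eq_zero_of_natDegree_lt_card_of_eval_eq_zero' p s hev (by
    rw [hscard]
    omega)
  have h2 : p.coeff (ji q₀) = v q₀ := by
    rw [hp, finsetSum_coeff, Finset.sum_eq_single q₀]
    · rw [if_pos rfl, coeff_C_mul, coeff_X_pow, if_pos rfl, mul_one]
    · intro q _ hq
      split_ifs with h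
      · rw [coeff_C_mul, coeff_X_pow, if_neg, mul_zero]
        intro h3
        exact hq (jdx_ext h3.symm h)
      · rw [coeff_zero]
    · intro h
      exact absurd (Finset.mem_univ _) h
  rw [← h2, hp0, coeff_zero]
  rfl

/-- The sum over the points of the curve is a Vandermonde product. -/
theorem sum_det (hD : 3 ≤ D) (c : Idx D → ℂ) (hc : c (iy D) ≠ 0) (x : Jdx D → ℂ)
    (hx : ∀ k, (sl c (x k)).roots.Nodup) :
    ∑ y ∈ Fintype.piFinset fun k => (sl c (x k)).roots.toFinset,
      (Matrix.of fun k q : Jdx D => x k ^ ji q * y k ^ jj q).det /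
        (∏ k, ev c 0 1 (x k) (y k)) * ∏ k, y k ^ (D - 1 - jj k) =
      ((c (iy D))⁻¹) ^ Fintype.card (Jdx D) * PV x := by
  classical
  have hdeg : ∀ z, (sl c z).natDegree = D := fun z =>
    le_antisymm (sl_natDegree c z) (le_natDegree_of_ne_zero (by rw [sl_coeff]; exact hc))
  have hlead : ∀ z, (sl c z).leadingCoeff = c (iy D) := fun z => by
    rw [leadingCoeff, hdeg, sl_coeff]
  have h1 : ∀ y : Jdx D → ℂ, (Matrix.of fun k q : Jdx D => x k ^ ji q * y k ^ jj q).det /
        (∏ k, ev c 0 1 (x k) (y k)) * ∏ k, y k ^ (D - 1 - jj k) =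
      (Matrix.of fun k q : Jdx D => (y k ^ (D - 1 - jj k) / ev c 0 1 (x k) (y k)) *
        (x k ^ ji q * y k ^ jj q)).det := by
    intro y
    have h2 := Matrix.det_mul_column (fun k => y k ^ (D - 1 - jj k) / ev c 0 1 (x k) (y k))
      (Matrix.of fun k q : Jdx D => x k ^ ji q * y k ^ jj q)
    have h3 : (Matrix.of fun k q : Jdx D => (y k ^ (D - 1 - jj k) / ev c 0 1 (x k) (y k)) *
        (x k ^ ji q * y k ^ jj q)) = Matrix.of fun i j =>
          (fun k => y k ^ (D - 1 - jj k) / ev c 0 1 (x k) (y k)) i *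
          (Matrix.of fun k q : Jdx D => x k ^ ji q * y k ^ jj q) i j := rfl
    rw [h3, h2, Finset.prod_div_distrib]
    ring
  rw [Finset.sum_congr rfl fun y _ => h1 y]
  rw [det_sum (fun k => (sl c (x k)).roots.toFinset)
    (fun k q z => (z ^ (D - 1 - jj k) / ev c 0 1 (x k) z) * (x k ^ ji q * z ^ jj q))]
  have h4 : ∀ k q : Jdx D, jj q ≤ jj k →
      ∑ z ∈ (sl c (x k)).roots.toFinset,
        (z ^ (D - 1 - jj k) / ev c 0 1 (x k) z) * (x k ^ ji q * z ^ jj q) =
      x k ^ ji q * if jj q = jj k then (c (iy D))⁻¹ else 0 := by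
    intro k q hkq
    have hk := ji_jj k
    have h5 := ej (hx k) (by rw [hdeg]; omega) (jj q + (D - 1 - jj k)) (by rw [hdeg]; omega)
    rw [hdeg, hlead] at h5
    have h6 : (jj q + (D - 1 - jj k) = D - 1) ↔ jj q = jj k := by omega
    rw [if_congr h6 rfl rfl] at h5
    rw [← h5, Finset.mul_sum]
    refine Finset.sum_congr rfl fun z _ => ?_
    rw [sl_der_ev, pow_add]
    ring
  have h7 := det_blocks (fun k : Jdx D => k.1.2)
    (Matrix.of fun k q : Jdx D => ∑ z ∈ (sl c (x k)).roots.toFinset,
        (z ^ (D - 1 - jj k) / ev c 0 1 (x k) z) * (x k ^ ji q * z ^ jj q))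
    (Matrix.of fun k q : Jdx D => (c (iy D))⁻¹ * (if jj q = jj k then x k ^ ji q else 0))
    (fun k q hkq => by
      have h8 : jj q < jj k := hkq
      rw [Matrix.of_apply, h4 k q h8.le, if_neg h8.ne, mul_zero])
    (fun k q hkq => by
      have h8 : jj q < jj k := hkq
      rw [Matrix.of_apply, if_neg h8.ne, mul_zero])
    (fun k q hkq => by
      have h8 : jj k = jj q := congrArg Fin.val hkq
      rw [Matrix.of_apply, Matrix.of_apply, h4 k q h8.ge, if_pos h8.symm, if_pos h8.symm, mul_comm])
  rw [h7]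
  have h9 := Matrix.det_mul_column (fun _ : Jdx D => (c (iy D))⁻¹)
    (Matrix.of fun k q : Jdx D => if jj q = jj k then x k ^ ji q else 0)
  rw [Finset.prod_const, Finset.card_univ] at h9
  exact h9

end Pool.Agent.K4H5.PC
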