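import Pool.Agent.K4H5.PC.Arch

/-!
The archimedean inequality.
-/

set_option autoImplicit false
set_option linter.unusedSectionVars false

open Polynomial MeasureTheory
open scoped ENNReal

namespace Pool.Agent.K4H5.PC

variable {D : ℕ}

theorem card_pos_idx (D : ℕ) : 0 < Fintype.card (Idx D) := Fintype.card_pos_iff.2 ⟨i0 D⟩

/-- a bound for the zeros -/
theorem root_bound (hD : 1 ≤ D) (c : Idx D → ℂ) {M : ℝ} (hM : ∀ p, ‖c p‖ ≤ M)
    (hc : c (iy D) ≠ 0) {x y : ℂ} (hx : ‖x‖ ≤ 1) (hy : ev c 0 0 x y = 0) :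
    ‖y‖ ≤ Fintype.card (Idx D) * (M / ‖c (iy D)‖) := by
  classical
  have hpos : 0 < ‖c (iy D)‖ := norm_pos_iff.2 hc
  have hM1 : 1 ≤ M / ‖c (iy D)‖ := (one_le_div hpos).2 (hM _)
  have hcard : (1 : ℝ) ≤ Fintype.card (Idx D) := by exact_mod_cast card_pos_idx D
  rcases le_or_gt ‖y‖ 1 with h1 | h1
  · nlinarith
  have h2 : c (iy D) * y ^ D = -∑ p ∈ Finset.univ.erase (iy D), c p * x ^ px p * y ^ py p := by
    unfold ev at hy
    rw [← Finset.add_sum_erase _ _ (Finset.mem_univ (iy D))] at hy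
    have e1 : px (iy D) = 0 := rfl
    have e2 : py (iy D) = D := rfl
    simp only [Nat.descFactorial_zero, Nat.cast_one, mul_one, Nat.sub_zero] at hy
    rw [e1, e2, pow_zero, mul_one] at hy
    linear_combination hy
  have h0 : 0 ≤ M := (norm_nonneg _).trans (hM (iy D))
  have h3 : ‖c (iy D)‖ * ‖y‖ ^ D ≤ Fintype.card (Idx D) * (M * ‖y‖ ^ (D - 1)) := by
    rw [← norm_pow, ← norm_mul, h2, norm_neg]
    refine (norm_sum_le _ _).trans ?_
    have h4 : ∀ p ∈ Finset.univ.erase (iy D), ‖c p * x ^ px p * y ^ py p‖ ≤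
        M * ‖y‖ ^ (D - 1) := by
      intro p hp
      rw [norm_mul, norm_mul, norm_pow, norm_pow]
      have hpy : py p ≤ D - 1 := by
        have h5 := pxy p
        by_contra hcon
        apply (Finset.mem_erase.1 hp).1
        apply Subtype.ext
        apply Prod.ext
        · apply Fin.ext
          show px p = 0
          omega
        · apply Fin.ext
          show py p = D
          omega
      have h6 : ‖x‖ ^ px p ≤ 1 := pow_le_one₀ (norm_nonneg _) hx
      have h7 : ‖y‖ ^ py p ≤ ‖y‖ ^ (D - 1) := pow_le_pow_right₀ h1.le hpy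
      have h8 : ‖c p‖ * ‖x‖ ^ px p ≤ M := by
        have := mul_le_mul (hM p) h6 (by positivity) h0
        linarith
      exact mul_le_mul h8 h7 (by positivity) h0
    refine (Finset.sum_le_card_nsmul _ _ _ h4).trans ?_
    rw [nsmul_eq_mul]
    refine mul_le_mul_of_nonneg_right ?_ (by positivity)
    have : (Finset.univ.erase (iy D)).card ≤ Fintype.card (Idx D) := by
      rw [← Finset.card_univ]
      exact Finset.card_le_card (Finset.erase_subset _ _)
    exact_mod_cast this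
  have h5 : ‖y‖ ^ D = ‖y‖ ^ (D - 1) * ‖y‖ := by
    rw [← pow_succ]
    congr 1
    omega
  have h6 : 0 < ‖y‖ ^ (D - 1) := by positivity
  rw [h5] at h3
  rw [← mul_div_assoc, le_div_iff₀ hpos]
  refine le_of_mul_le_mul_right (a := ‖y‖ ^ (D - 1)) ?_ h6
  calc ‖y‖ * ‖c (iy D)‖ * ‖y‖ ^ (D - 1) = ‖c (iy D)‖ * (‖y‖ ^ (D - 1) * ‖y‖) := by ring
    _ ≤ Fintype.card (Idx D) * (M * ‖y‖ ^ (D - 1)) := h3
    _ = Fintype.card (Idx D) * M * ‖y‖ ^ (D - 1) := by ring

/-- the resultant with the derivative -/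
theorem res_nodup {k : Type} [Field k] [IsAlgClosed k] [DecidableEq k] {q : k[X]} {D : ℕ}
    (h0 : q ≠ 0) (hq : q.natDegree = D) :
    resultant q (derivative q) D (D - 1) ≠ 0 ↔ q.roots.Nodup := by
  have hd : (derivative q).natDegree ≤ D - 1 := by
    have := natDegree_derivative_le q
    rw [hq] at this
    exact this
  have h6 := resultant_eq_prod_eval q (derivative q) (D - 1) hd (IsAlgClosed.splits _)
  rw [hq] at h6
  rw [h6, mul_ne_zero_iff, and_iff_right (pow_ne_zero _ (leadingCoeff_ne_zero.2 h0)), Ne,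
    Multiset.prod_eq_zero_iff, Multiset.mem_map]
  constructor
  · intro h
    rw [Multiset.nodup_iff_count_le_one]
    intro y
    rw [count_roots]
    by_contra hcon
    push Not at hcon
    have h5 : 1 < q.rootMultiplicity y := hcon
    rw [one_lt_rootMultiplicity_iff_isRoot h0] at h5
    exact h ⟨y, (mem_roots h0).2 h5.1, h5.2⟩
  · rintro h ⟨y, hy, h5⟩
    have h6 := (Multiset.nodup_iff_count_le_one.1 h) y
    rw [count_roots] at h6
    have h7 : 1 < q.rootMultiplicity y :=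
      (one_lt_rootMultiplicity_iff_isRoot h0).2 ⟨(mem_roots h0).1 hy, h5⟩
    omega

theorem finite_bad (c : Idx D → ℂ) (hc : c (iy D) ≠ 0) (hD : 1 ≤ D)
    (hs : ∃ x : ℂ, (sl c x).Separable) :
    ∃ Z : Finset ℂ, ∀ x, x ∉ Z → (sl c x).roots.Nodup := by
  classical
  have hdeg : ∀ z, (sl c z).natDegree = D := fun z =>
    le_antisymm (sl_natDegree c z) (le_natDegree_of_ne_zero (by rw [sl_coeff]; exact hc))
  have hne : ∀ z, sl c z ≠ 0 := fun z h => by
    have := hdeg z
    rw [h, natDegree_zero] at this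
    omega
  set Δ : ℂ[X] := resultant (bp c) (derivative (bp c)) D (D - 1) with hΔ
  have hev : ∀ x, Δ.eval x = resultant (sl c x) (derivative (sl c x)) D (D - 1) := by
    intro x
    rw [hΔ, ← coe_evalRingHom, ← resultant_map_map, bp_eval, ← derivative_map, bp_eval]
  have hΔ0 : Δ ≠ 0 := by
    obtain ⟨x, hx⟩ := hs
    intro h
    have h1 := hev x
    rw [h, eval_zero] at h1
    exact (res_nodup (hne x) (hdeg x)).2 (nodup_roots hx) h1.symm
  refine ⟨Δ.roots.toFinset, fun x hx => ?_⟩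
  rw [← res_nodup (hne x) (hdeg x), ← hev]
  intro h
  apply hx
  rw [Multiset.mem_toFinset, mem_roots hΔ0]
  exact h

/-- the integrand -/
noncomputable def ig (c : Idx D → ℂ) (x : Jdx D → ℂ) : ℝ≥0∞ := by
  classical
  exact ∑ y ∈ Fintype.piFinset fun k => (sl c (x k)).roots.toFinset,
    ‖(Matrix.of fun k q : Jdx D => x k ^ (q.1.1 : ℕ) * y k ^ (q.1.2 : ℕ)).det‖ₑ ^ 2 /
      ∏ k, ‖ev c 0 1 (x k) (y k)‖ₑ ^ 2

theorem vol_eq (c : Idx D → ℂ) : vol c = (∫⁻ x, ig c x).toReal := rfl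

/-- the pointwise bound -/
theorem ig_ge (hD : 3 ≤ D) (c : Idx D → ℂ) {M : ℝ} (hM : ∀ p, ‖c p‖ ≤ M)
    (hc : c (iy D) ≠ 0) (x : Jdx D → ℂ) (hx : ∀ k, (sl c (x k)).roots.Nodup)
    (hx1 : ∀ k, ‖x k‖ ≤ 1) :
    ENNReal.ofReal (‖PV x‖ ^ 2 / (‖c (iy D)‖ ^ 2 * (D * ((Fintype.card (Idx D) *
      (M / ‖c (iy D)‖)) ^ (D - 1)) ^ 2)) ^ Fintype.card (Jdx D)) ≤ ig c x := by
  classical
  set g := Fintype.card (Jdx D) with hg
  set a := c (iy D) with ha
  have hpos : 0 < ‖a‖ := norm_pos_iff.2 hc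
  set T : ℝ := Fintype.card (Idx D) * (M / ‖a‖) with hT
  have hM1 : 1 ≤ M / ‖a‖ := (one_le_div hpos).2 (hM _)
  have hcard : (1 : ℝ) ≤ Fintype.card (Idx D) := by exact_mod_cast card_pos_idx D
  have hT1 : 1 ≤ T := by nlinarith
  have hDpos : (0 : ℝ) < D := by exact_mod_cast (by omega : 0 < D)
  have hdeg : ∀ z, (sl c z).natDegree = D := fun z =>
    le_antisymm (sl_natDegree c z) (le_natDegree_of_ne_zero (by rw [sl_coeff]; exact hc))
  have hne : ∀ z, sl c z ≠ 0 := fun z h => by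
    have := hdeg z
    rw [h, natDegree_zero] at this
    omega
  set S : Jdx D → Finset ℂ := fun k => (sl c (x k)).roots.toFinset with hS
  have hScard : ∀ k, (S k).card = D := fun k => by
    show (sl c (x k)).roots.toFinset.card = D
    rw [Multiset.toFinset_card_of_nodup (hx k), ← (IsAlgClosed.splits _).natDegree_eq_card_roots,
      hdeg]
  have hmem : ∀ k z, z ∈ S k ↔ ev c 0 0 (x k) z = 0 := fun k z => by
    show z ∈ (sl c (x k)).roots.toFinset ↔ _
    rw [Multiset.mem_toFinset, mem_roots (hne _), IsRoot, sl_ev]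
  have hder : ∀ k z, z ∈ S k → ev c 0 1 (x k) z ≠ 0 := by
    intro k z hz h
    rw [hmem, ← sl_ev] at hz
    rw [← sl_der_ev] at h
    have h1 := (one_lt_rootMultiplicity_iff_isRoot (hne (x k))).2 ⟨hz, h⟩
    have h2 := (Multiset.nodup_iff_count_le_one.1 (hx k)) z
    rw [count_roots] at h2
    omega
  set α : (Jdx D → ℂ) → ℂ := fun y => (Matrix.of fun k q : Jdx D => x k ^ ji q * y k ^ jj q).det /
        (∏ k, ev c 0 1 (x k) (y k)) with hα
  set β : (Jdx D → ℂ) → ℂ := fun y => ∏ k, y k ^ (D - 1 - jj k) with hβ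
  have h1 : ig c x = ENNReal.ofReal (∑ y ∈ Fintype.piFinset S, ‖α y‖ ^ 2) := by
    rw [ENNReal.ofReal_sum_of_nonneg fun _ _ => by positivity]
    unfold ig
    refine Finset.sum_congr rfl fun y hy => ?_
    rw [Fintype.mem_piFinset] at hy
    have h2 : 0 < ∏ k, ‖ev c 0 1 (x k) (y k)‖ ^ 2 :=
      Finset.prod_pos fun k _ => pow_pos (norm_pos_iff.2 (hder k _ (hy k))) 2
    have h3 : ‖α y‖ ^ 2 = ‖(Matrix.of fun k q : Jdx D => x k ^ ji q * y k ^ jj q).det‖ ^ 2 /
        ∏ k, ‖ev c 0 1 (x k) (y k)‖ ^ 2 := by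
      rw [hα]
      simp only
      rw [norm_div, div_pow, norm_prod, Finset.prod_pow]
    rw [h3, ENNReal.ofReal_div_of_pos h2]
    congr 1
    · rw [← ofReal_norm, ← ENNReal.ofReal_pow (norm_nonneg _)]
      rfl
    · rw [ENNReal.ofReal_prod_of_nonneg fun _ _ => by positivity]
      refine Finset.prod_congr rfl fun k _ => ?_
      rw [← ofReal_norm, ← ENNReal.ofReal_pow (norm_nonneg _)]
  rw [h1]
  refine ENNReal.ofReal_le_ofReal ?_
  have h2 := sum_det hD c hc x hx
  have h3 : ∑ y ∈ Fintype.piFinset S, α y * β y = (a⁻¹) ^ g * PV x := h2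
  have h4 : ‖(a⁻¹) ^ g * PV x‖ ^ 2 ≤ (∑ y ∈ Fintype.piFinset S, ‖α y‖ ^ 2) *
      ∑ y ∈ Fintype.piFinset S, ‖β y‖ ^ 2 := by
    rw [← h3]
    refine le_trans ?_ (Finset.sum_mul_sq_le_sq_mul_sq _ _ _)
    refine pow_le_pow_left₀ (norm_nonneg _) ?_ 2
    refine (norm_sum_le _ _).trans (le_of_eq ?_)
    refine Finset.sum_congr rfl fun y _ => norm_mul _ _
  have h5 : ∑ y ∈ Fintype.piFinset S, ‖β y‖ ^ 2 ≤ (D * (T ^ (D - 1)) ^ 2) ^ g := by
    have h6 : ∀ y ∈ Fintype.piFinset S, ‖β y‖ ^ 2 ≤ ((T ^ (D - 1)) ^ 2) ^ g := by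
      intro y hy
      rw [Fintype.mem_piFinset] at hy
      have h7 : ‖β y‖ ≤ (T ^ (D - 1)) ^ g := by
        rw [hβ]
        simp only
        rw [norm_prod]
        have h8 : ∀ k ∈ (Finset.univ : Finset (Jdx D)), ‖y k ^ (D - 1 - jj k)‖ ≤ T ^ (D - 1) := by
          intro k _
          rw [norm_pow]
          have h9 := root_bound (by omega) c hM hc (hx1 k) ((hmem k _).1 (hy k))
          exact (pow_le_pow_left₀ (norm_nonneg _) h9 _).trans
            (pow_le_pow_right₀ hT1 (by omega))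
        refine (Finset.prod_le_prod (fun _ _ => norm_nonneg _) h8).trans (le_of_eq ?_)
        rw [Finset.prod_const, Finset.card_univ]
      exact (pow_le_pow_left₀ (norm_nonneg _) h7 2).trans (le_of_eq (pow_right_comm _ _ _))
    refine (Finset.sum_le_card_nsmul _ _ _ h6).trans (le_of_eq ?_)
    rw [Fintype.card_piFinset, Finset.prod_congr rfl fun k _ => hScard k, Finset.prod_const,
      Finset.card_univ, nsmul_eq_mul, Nat.cast_pow, ← hg, ← mul_pow]
  have h6 : 0 ≤ ∑ y ∈ Fintype.piFinset S, ‖α y‖ ^ 2 := Finset.sum_nonneg fun _ _ => by positivity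
  have h7 : ‖(a⁻¹) ^ g * PV x‖ ^ 2 = ‖PV x‖ ^ 2 / (‖a‖ ^ 2) ^ g := by
    rw [norm_mul, norm_pow, norm_inv, mul_pow, ← pow_mul, inv_pow, ← pow_mul, mul_comm g 2,
      div_eq_mul_inv]
    ring
  rw [h7] at h4
  have h8 : 0 < (D * (T ^ (D - 1)) ^ 2) ^ g := by positivity
  rw [mul_pow, ← div_div, div_le_iff₀ h8]
  exact h4.trans (mul_le_mul_of_nonneg_left h5 h6)

/-- a lower bound for the integral -/
theorem vol_lower (hD : 3 ≤ D) : ∃ κ : ℝ, 0 < κ ∧ ∀ (c : Idx D → ℂ) (M : ℝ),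
    (∀ p, ‖c p‖ ≤ M) → c (iy D) ≠ 0 → (∃ x : ℂ, (sl c x).Separable) →
    ENNReal.ofReal (κ / (‖c (iy D)‖ ^ 2 * (D * ((Fintype.card (Idx D) *
      (M / ‖c (iy D)‖)) ^ (D - 1)) ^ 2)) ^ Fintype.card (Jdx D)) ≤ ∫⁻ x, ig c x := by
  classical
  set x₀ : Jdx D → ℂ := fun k => (ji k : ℂ) / D with hx₀
  have hdet : PV x₀ ≠ 0 := PV_ne hD
  have hcont := PV_continuous (D := D)
  set r : ℝ := ‖PV x₀‖ / 2 with hr
  have hr0 : 0 < r := by
    have := norm_pos_iff.2 hdet
    positivity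
  set U : Set (Jdx D → ℂ) := {x | r < ‖PV x‖} ∩ Metric.ball 0 1 with hU
  have hUo : IsOpen U := (isOpen_lt continuous_const hcont.norm).inter Metric.isOpen_ball
  have hUne : U.Nonempty := by
    refine ⟨x₀, ?_, ?_⟩
    · show r < ‖PV x₀‖
      rw [hr]
      have := norm_pos_iff.2 hdet
      linarith
    · rw [mem_ball_zero_iff, pi_norm_lt_iff one_pos]
      intro k
      rw [hx₀]
      simp only [norm_div]
      rw [Complex.norm_natCast, Complex.norm_natCast]
      have hk := ji_jj k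
      have hDpos : (0 : ℝ) < D := by exact_mod_cast (by omega : 0 < D)
      rw [div_lt_one hDpos]
      exact_mod_cast (by omega : ji k < D)
  have hμ0 : volume U ≠ 0 := (hUo.measure_pos volume hUne).ne'
  have hμ1 : volume U ≠ ∞ := by
    refine ne_top_of_le_ne_top ?_ (measure_mono (Set.inter_subset_right (s := _)))
    exact measure_ball_lt_top.ne
  set κ : ℝ := (volume U).toReal * r ^ 2 with hκ
  have hκ0 : 0 < κ := mul_pos (ENNReal.toReal_pos hμ0 hμ1) (by positivity)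
  refine ⟨κ, hκ0, fun c M hM hc hs => ?_⟩
  obtain ⟨Z, hZ⟩ := finite_bad c hc (by omega) hs
  set b : ℝ := (‖c (iy D)‖ ^ 2 * (D * ((Fintype.card (Idx D) *
      (M / ‖c (iy D)‖)) ^ (D - 1)) ^ 2)) ^ Fintype.card (Jdx D) with hb
  have hpos : 0 < ‖c (iy D)‖ := norm_pos_iff.2 hc
  have hb0 : 0 < b := by
    have hM1 : 1 ≤ M / ‖c (iy D)‖ := (one_le_div hpos).2 (hM _)
    have hcard : (0 : ℝ) < Fintype.card (Idx D) := by exact_mod_cast card_pos_idx D
    have hDpos : (0 : ℝ) < D := by exact_mod_cast (by omega : 0 < D)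
    positivity
  set N : Set (Jdx D → ℂ) := ⋃ k : Jdx D, ⋃ z ∈ Z, {x | x k = z} with hN
  have hNm : MeasurableSet N := by
    refine MeasurableSet.iUnion fun k => Finset.measurableSet_biUnion _ fun z _ => ?_
    exact measurableSet_eq_fun (measurable_pi_apply k) measurable_const
  have hN0 : volume N = 0 := by
    rw [hN, measure_iUnion_null_iff]
    intro k
    rw [← Finset.set_biUnion_coe, measure_biUnion_null_iff Z.countable_toSet]
    intro z _
    exact Measure.pi_hyperplane (fun _ => (volume : Measure ℂ)) k z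
  have hUN : volume (U \ N) = volume U := measure_sdiff_null hN0
  have h1 : ∫⁻ _x in U \ N, ENNReal.ofReal (r ^ 2 / b) ≤ ∫⁻ x, ig c x := by
    refine (setLIntegral_mono' (hUo.measurableSet.diff hNm) fun x hx => ?_).trans
      (setLIntegral_le_lintegral _ _)
    have hx2 : ∀ k, (sl c (x k)).roots.Nodup := by
      intro k
      refine hZ _ fun h => hx.2 ?_
      rw [hN, Set.mem_iUnion]
      exact ⟨k, Set.mem_biUnion h rfl⟩
    have hx3 : ∀ k, ‖x k‖ ≤ 1 := by
      intro k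
      have h5 := hx.1.2
      rw [mem_ball_zero_iff] at h5
      exact (norm_le_pi_norm x k).trans h5.le
    refine le_trans (ENNReal.ofReal_le_ofReal ?_) (ig_ge hD c hM hc x hx2 hx3)
    refine div_le_div_of_nonneg_right ?_ hb0.le
    exact pow_le_pow_left₀ hr0.le (le_of_lt hx.1.1) 2
  refine le_trans (le_of_eq ?_) h1
  rw [setLIntegral_const, hUN]
  have h2 : volume U = ENNReal.ofReal (volume U).toReal := (ENNReal.ofReal_toReal hμ1).symm
  rw [h2, ← ENNReal.ofReal_mul (by positivity), hκ]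
  congr 1
  ring

/-- the archimedean inequality -/
theorem arch (D : ℕ) (hD : 3 ≤ D) : ∃ B : ℝ, 0 ≤ B ∧ ∀ (c : Idx D → ℂ) (M : ℝ), 1 ≤ M →
    (∀ p, ‖c p‖ ≤ M) → c (iy D) ≠ 0 → (∃ x : ℂ, (sl c x).Separable) →
    -(1 / 2) * Real.log (vol c) ≤ Fintype.card (Jdx D) * Real.log M +
      Fintype.card (Jdx D) * (D - 2 : ℝ) * (Real.log M - Real.log ‖c (iy D)‖) + B := by
  obtain ⟨κ, hκ, h⟩ := vol_lower hD
  set g : ℝ := (Fintype.card (Jdx D) : ℝ) with hg
  have hg0 : 0 ≤ g := Nat.cast_nonneg _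
  have hcard : (1 : ℝ) ≤ Fintype.card (Idx D) := by exact_mod_cast card_pos_idx D
  have hDR : (3 : ℝ) ≤ D := by exact_mod_cast hD
  have hlD : 0 ≤ Real.log D := Real.log_nonneg (by linarith)
  have hlc : 0 ≤ Real.log (Fintype.card (Idx D)) := Real.log_nonneg hcard
  have habs := abs_nonneg (1 / 2 * Real.log κ)
  have hB : 0 ≤ |1 / 2 * Real.log κ| + g / 2 * Real.log D +
      g * (D - 1) * Real.log (Fintype.card (Idx D)) := by
    have h1 : 0 ≤ g * ((D : ℝ) - 1) := mul_nonneg hg0 (by linarith)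
    positivity
  refine ⟨_, hB, fun c M hM1 hM hc hs => ?_⟩
  have hM0 : 0 < M := by linarith
  have hpos : 0 < ‖c (iy D)‖ := norm_pos_iff.2 hc
  have hlM : 0 ≤ Real.log M := Real.log_nonneg hM1
  have hla : Real.log ‖c (iy D)‖ ≤ Real.log M := Real.log_le_log hpos (hM _)
  have hrhs : 0 ≤ g * Real.log M + g * ((D : ℝ) - 2) * (Real.log M - Real.log ‖c (iy D)‖) := by
    have h1 : 0 ≤ g * ((D : ℝ) - 2) := mul_nonneg hg0 (by linarith)
    have h2 := mul_nonneg h1 (sub_nonneg.2 hla)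
    have h3 := mul_nonneg hg0 hlM
    linarith
  have h1 := h c M hM hc hs
  by_cases htop : ∫⁻ x, ig c x = ∞
  · have : vol c = 0 := by
      rw [vol_eq, htop]
      rfl
    rw [this, Real.log_zero, mul_zero]
    linarith
  · set b : ℝ := (‖c (iy D)‖ ^ 2 * (D * ((Fintype.card (Idx D) *
      (M / ‖c (iy D)‖)) ^ (D - 1)) ^ 2)) ^ Fintype.card (Jdx D) with hb
    have hD0 : (0 : ℝ) < D := by linarith
    have hc0 : (0 : ℝ) < Fintype.card (Idx D) := by linarith
    have hb0 : 0 < b := by positivity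
    have h2 : κ / b ≤ vol c := by
      rw [vol_eq]
      exact (ENNReal.ofReal_le_iff_le_toReal htop).1 h1
    have h3 : Real.log (κ / b) ≤ Real.log (vol c) := Real.log_le_log (by positivity) h2
    have hD1 : ((D - 1 : ℕ) : ℝ) = D - 1 := by
      rw [Nat.cast_sub (by omega)]
      simp
    have h4 : Real.log b = g * (2 * Real.log ‖c (iy D)‖ + (Real.log D + 2 * ((D - 1) *
        (Real.log (Fintype.card (Idx D)) + (Real.log M - Real.log ‖c (iy D)‖))))) := by
      rw [hb, Real.log_pow, Real.log_mul (by positivity) (by positivity),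
        Real.log_mul (by positivity) (by positivity), Real.log_pow, Real.log_pow, Real.log_pow,
        Real.log_mul (by positivity) (by positivity), Real.log_div (by positivity) (by positivity),
        hD1]
      push_cast
      ring
    rw [Real.log_div hκ.ne' hb0.ne', h4] at h3
    have h5 := neg_abs_le (1 / 2 * Real.log κ)
    nlinarith [h3, h5]

end Pool.Agent.K4H5.PC
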