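import Pool.Agent.K4H5.HF.Def

/-!
Definitions: the height and the conductor of the Jacobian of a plane curve.

A plane curve of degree `D` is given by the coefficients `c p`, `p = (i, j)`, `i + j ≤ D`, of its
affine equation `f(x, y) = ∑ c_{ij} x^i y^j = 0`.
-/

set_option autoImplicit false

open NumberField IsDedekindDomain Polynomial MeasureTheory
open scoped ENNReal

namespace Pool.Agent.K4H5.PC

open Pool.Agent.K4H5.HF (nr nv em)

/-- the exponents `(i, j)` with `i + j ≤ D` -/
abbrev Idx (D : ℕ) : Type := {p : Fin (D + 1) × Fin (D + 1) // (p.1 : ℕ) + (p.2 : ℕ) ≤ D}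

/-- the exponent of `x` -/
def px {D : ℕ} (p : Idx D) : ℕ := p.1.1

/-- the exponent of `y` -/
def py {D : ℕ} (p : Idx D) : ℕ := p.1.2

/-- the exponent pair `(i, D - i)` -/
def it {D : ℕ} (i : Fin (D + 1)) : Idx D :=
  ⟨(i, ⟨D - i, by omega⟩), by
    have := i.2
    show (i : ℕ) + (D - i) ≤ D
    omega⟩

section ring

variable {R : Type} [CommRing R] {D : ℕ}

/-- the polynomial `f(x, ·)` for a given `x` -/
noncomputable def sl (c : Idx D → R) (x : R) : R[X] := ∑ p, C (c p * x ^ px p) * X ^ py p

/-- the partial derivative `∂^{r + s} f / ∂x^r ∂y^s` at the point `(x, y)` -/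
def ev (c : Idx D → R) (r s : ℕ) (x y : R) : R :=
  ∑ p, c p * ((px p).descFactorial r : R) * ((py p).descFactorial s : R) *
    x ^ (px p - r) * y ^ (py p - s)

/-- the top form `∑_i c_{i, D - i} x^i` -/
noncomputable def tf (c : Idx D → R) : R[X] := ∑ i : Fin (D + 1), C (c (it i)) * X ^ (i : ℕ)

/-- `(x, y)` is a singular point of the affine curve `f = 0` -/
def Sing (c : Idx D → R) (x y : R) : Prop := ev c 0 0 x y = 0 ∧ ev c 1 0 x y = 0 ∧ ev c 0 1 x y = 0

end ring

section alg

variable {L : Type} [Field L] {D : ℕ}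

/-- Over an algebraically closed field: the projective curve of degree `D` meets the line at
infinity in `D` different points, and the affine curve `f = 0` is smooth. So the projective curve
is smooth. -/
def Smooth (c : Idx D → L) : Prop := nr (tf c) = D ∧ ∀ x y, ¬ Sing c x y

/-- Over an algebraically closed field: the projective curve of degree `D` meets the line at
infinity in `D` different points, and the affine curve `f = 0` has exactly one singular point,
which is an ordinary double point. So the projective curve has exactly one singular point, a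
node. -/
def OneNode (c : Idx D → L) : Prop := nr (tf c) = D ∧ ∃ x y, Sing c x y ∧
  ev c 2 0 x y * ev c 0 2 x y - ev c 1 1 x y ^ 2 ≠ 0 ∧ ∀ x' y', Sing c x' y' → x' = x ∧ y' = y

end alg

/-- the exponents `(i, j)` with `i + j ≤ D - 3` -/
abbrev Jdx (D : ℕ) : Type := {q : Fin (D - 2) × Fin (D - 2) // (q.1 : ℕ) + (q.2 : ℕ) + 3 ≤ D}

open Classical in
/-- The integral over `ℂ ^ g`, `g = (D - 1) (D - 2) / 2`, of the sum over all `y` with
`f(x_k, y_k) = 0` of `|det (x_k^i y_k^j)|² / ∏_k |f_y(x_k, y_k)|²`. Up to a constant which depends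
on `D` only this is the square of the `L²` norm of the top degree form
`∧_{i + j ≤ D - 3} x^i y^j dx / f_y` on the Jacobian of the curve `f = 0`. -/
noncomputable def vol {D : ℕ} (c : Idx D → ℂ) : ℝ :=
  (∫⁻ x : Jdx D → ℂ, ∑ y ∈ Fintype.piFinset fun k => (sl c (x k)).roots.toFinset,
    ‖(Matrix.of fun k q : Jdx D => x k ^ (q.1.1 : ℕ) * y k ^ (q.1.2 : ℕ)).det‖ₑ ^ 2 /
      ∏ k, ‖ev c 0 1 (x k) (y k)‖ₑ ^ 2).toReal

variable {K : Type} [Field K] [NumberField K]

/-- reduction modulo `v` -/
noncomputable def rd (v : HeightOneSpectrum (𝓞 K)) :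
    𝓞 K →+* AlgebraicClosure v.asIdeal.ResidueField :=
  (algebraMap v.asIdeal.ResidueField (AlgebraicClosure v.asIdeal.ResidueField)).comp
    (algebraMap (𝓞 K) v.asIdeal.ResidueField)

/-- `v` does not divide `2` and the curve has exactly one singular point modulo `v`, a node -/
def Nodal {D : ℕ} (c : Idx D → 𝓞 K) (v : HeightOneSpectrum (𝓞 K)) : Prop :=
  (2 : 𝓞 K) ∉ v.asIdeal ∧ OneNode fun p => rd v (c p)

open Classical in
/-- a divisor of the conductor of the Jacobian -/
noncomputable def cond {D : ℕ} (c : Idx D → 𝓞 K) : ℕ :=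
  ∏ᶠ v : HeightOneSpectrum (𝓞 K), if Nodal c v then nv v else 1

/-- an upper bound for the height of the Jacobian -/
noncomputable def height {D : ℕ} (c : Idx D → 𝓞 K) : ℝ :=
  (Module.finrank ℚ K : ℝ)⁻¹ * ∑ σ : K →+* ℂ, -(1 / 2) * Real.log (vol fun p => em σ (c p))

/-- The projective curve of degree `D` is smooth, and the inequality of Frey with the slope `κ` and
the constant `C` holds for its Jacobian. -/
def Frey {D : ℕ} (κ C : ℝ) (c : Idx D → 𝓞 K) : Prop :=
  (Smooth fun p => algebraMap (𝓞 K) (AlgebraicClosure K) (c p)) ∧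
    height c ≤ κ * Real.log (cond c) + C

end Pool.Agent.K4H5.PC
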