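import Pool.Agent.K4H5.PC.Def
import Mathlib.RingTheory.Polynomial.Resultant.Basic
import Mathlib.FieldTheory.IsAlgClosed.Basic
import Mathlib.Algebra.Polynomial.FieldDivision
import Mathlib.Algebra.MvPolynomial.Eval

/-!
Elimination: the critical values of a polynomial in two variables.
-/

set_option autoImplicit false
set_option linter.unusedSectionVars false

open Polynomial

namespace Pool.Agent.K4H5.PC

theorem pxy {D : ℕ} (p : Idx D) : px p + py p ≤ D := p.2

section ring

variable {R S : Type} [CommRing R] [CommRing S] {D : ℕ}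

/-- the polynomial in two variables -/
noncomputable def bp (c : Idx D → R) : R[X][X] := ∑ p, C (C (c p) * X ^ px p) * X ^ py p

/-- the derivative with respect to `x` -/
noncomputable def bx (c : Idx D → R) : R[X][X] :=
  ∑ p, C (C (c p) * derivative (X ^ px p)) * X ^ py p

/-- `f_x(x, ·)` -/
noncomputable def sx (c : Idx D → R) (x : R) : R[X] :=
  ∑ p, C (c p * ((px p : R) * x ^ (px p - 1))) * X ^ py p

/-- the derivative with respect to `y` -/
noncomputable def by' (c : Idx D → R) : R[X][X] := derivative (bp c)

theorem bp_eval (c : Idx D → R) (x : R) : (bp c).map (evalRingHom x) = sl c x := by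
  unfold bp sl
  rw [Polynomial.map_sum]
  simp

theorem bx_eval (c : Idx D → R) (x : R) : (bx c).map (evalRingHom x) = sx c x := by
  unfold bx sx
  rw [Polynomial.map_sum]
  refine Finset.sum_congr rfl fun p _ => ?_
  simp [derivative_X_pow]

theorem by_eval (c : Idx D → R) (x : R) :
    (by' c).map (evalRingHom x) = derivative (sl c x) := by
  unfold by'
  rw [← derivative_map, bp_eval]

theorem bp_map (φ : R →+* S) (c : Idx D → R) :
    (bp c).map (mapRingHom φ) = bp fun p => φ (c p) := by
  unfold bp
  rw [Polynomial.map_sum]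
  simp

theorem bx_map (φ : R →+* S) (c : Idx D → R) :
    (bx c).map (mapRingHom φ) = bx fun p => φ (c p) := by
  unfold bx
  rw [Polynomial.map_sum]
  refine Finset.sum_congr rfl fun p _ => ?_
  simp [derivative_X_pow]

theorem by_map (φ : R →+* S) (c : Idx D → R) :
    (by' c).map (mapRingHom φ) = by' fun p => φ (c p) := by
  unfold by'
  rw [← derivative_map, bp_map]

theorem sl_map (φ : R →+* S) (c : Idx D → R) (x : R) :
    (sl c x).map φ = sl (fun p => φ (c p)) (φ x) := by
  unfold sl
  rw [Polynomial.map_sum]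
  simp

theorem ev_map (φ : R →+* S) (c : Idx D → R) (r s : ℕ) (x y : R) :
    φ (ev c r s x y) = ev (fun p => φ (c p)) r s (φ x) (φ y) := by
  unfold ev
  rw [map_sum]
  simp

theorem sl_ev (c : Idx D → R) (x y : R) : (sl c x).eval y = ev c 0 0 x y := by
  unfold sl ev
  rw [eval_finsetSum]
  simp

theorem sx_ev (c : Idx D → R) (x y : R) : (sx c x).eval y = ev c 1 0 x y := by
  unfold sx ev
  rw [eval_finsetSum]
  refine Finset.sum_congr rfl fun p _ => ?_
  simp only [eval_mul, eval_C, eval_pow, eval_X, Nat.descFactorial_one, Nat.descFactorial_zero,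
    Nat.cast_one, mul_one, Nat.sub_zero]
  ring

theorem sl_der_ev (c : Idx D → R) (x y : R) :
    (derivative (sl c x)).eval y = ev c 0 1 x y := by
  unfold sl ev
  rw [derivative_sum, eval_finsetSum]
  refine Finset.sum_congr rfl fun p _ => ?_
  simp only [derivative_mul, derivative_C, zero_mul, zero_add, derivative_X_pow, eval_mul, eval_C,
    eval_pow, eval_X, Nat.descFactorial_one, Nat.descFactorial_zero, Nat.cast_one, mul_one,
    Nat.sub_zero]
  ring

theorem sl_der2_ev (c : Idx D → R) (x y : R) :
    (derivative (derivative (sl c x))).eval y = ev c 0 2 x y := by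
  unfold sl ev
  rw [derivative_sum, derivative_sum, eval_finsetSum]
  refine Finset.sum_congr rfl fun p _ => ?_
  simp only [derivative_mul, derivative_C, zero_mul, zero_add, derivative_X_pow, eval_mul, eval_C,
    eval_pow, eval_X, Nat.descFactorial_zero, Nat.cast_one, mul_one,
    Nat.sub_zero, Nat.sub_sub]
  rw [Nat.descFactorial_succ, Nat.descFactorial_one]
  push_cast
  ring

/-- the index of `y ^ D` -/
def iy (D : ℕ) : Idx D := ⟨(0, Fin.last D), by simp⟩

theorem sl_natDegree (c : Idx D → R) (x : R) : (sl c x).natDegree ≤ D := by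
  unfold sl
  refine natDegree_sum_le_of_forall_le _ _ fun p _ => ?_
  refine (natDegree_C_mul_X_pow_le _ _).trans ?_
  have := pxy p
  omega

theorem sl_coeff (c : Idx D → R) (x : R) : (sl c x).coeff D = c (iy D) := by
  unfold sl
  rw [finsetSum_coeff]
  simp only [coeff_C_mul, coeff_X_pow]
  rw [Finset.sum_eq_single (iy D)]
  · simp [px, py, iy]
  · intro p _ hp
    rw [if_neg, mul_zero]
    intro h
    apply hp
    have h1 := pxy p
    apply Subtype.ext
    apply Prod.ext
    · apply Fin.ext
      show px p = 0
      omega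
    · apply Fin.ext
      show py p = D
      omega
  · intro h
    exact absurd (Finset.mem_univ _) h

theorem sx_natDegree {n : ℕ} (c : Idx (n + 1) → R) (x : R) : (sx c x).natDegree ≤ n := by
  unfold sx
  refine natDegree_sum_le_of_forall_le _ _ fun p _ => ?_
  rcases Nat.eq_zero_or_pos (px p) with h | h
  · rw [h]
    simp
  · refine (natDegree_C_mul_X_pow_le _ _).trans ?_
    have := pxy p
    omega

variable {n : ℕ}

/-- the resultant of `f_y` and `f_x` with respect to `y` -/
noncomputable def ra (c : Idx (n + 1) → R) : R[X] := resultant (by' c) (bx c) n n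

/-- the derivative of the resultant in the direction `y ^ e` -/
noncomputable def ru (e : ℕ) (c : Idx (n + 1) → R) : R[X] :=
  (resultant ((by' c).map C) ((bx c).map C + C X * X ^ e) n n).coeff 1

/-- the value at the critical point, homogenised -/
noncomputable def rG (c : Idx (n + 1) → R) : R[X] :=
  ∑ p, C (c p) * X ^ px p * (ru 1 c) ^ py p * (ru 0 c) ^ (n + 1 - py p)

theorem ra_map (φ : R →+* S) (c : Idx (n + 1) → R) : (ra c).map φ = ra fun p => φ (c p) := by
  unfold ra
  rw [← coe_mapRingHom, ← resultant_map_map, by_map, bx_map]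

theorem ru_map (φ : R →+* S) (e : ℕ) (c : Idx (n + 1) → R) :
    (ru e c).map φ = ru e fun p => φ (c p) := by
  unfold ru
  have h1 : ∀ p : R[X][X], (p.coeff 1).map φ = (p.map (mapRingHom φ)).coeff 1 := fun p => by
    rw [coeff_map, coe_mapRingHom]
  rw [h1, ← coe_mapRingHom (mapRingHom φ), ← resultant_map_map]
  have h2 : ∀ p : R[X][X], (p.map C).map (mapRingHom (mapRingHom φ)) =
      (p.map (mapRingHom φ)).map C := fun p => by
    rw [Polynomial.map_map, Polynomial.map_map]
    congr 1
    ext <;> simp
  have h3 : (mapRingHom φ) (X : R[X]) = X := by simp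
  have h4 : (mapRingHom (mapRingHom φ)) (X : R[X][X]) = X := by simp
  rw [Polynomial.map_add, h2, h2, by_map, bx_map, Polynomial.map_mul, map_C, Polynomial.map_pow,
    map_X, h4]

theorem rG_map (φ : R →+* S) (c : Idx (n + 1) → R) : (rG c).map φ = rG fun p => φ (c p) := by
  unfold rG
  rw [Polynomial.map_sum]
  refine Finset.sum_congr rfl fun p _ => ?_
  simp only [Polynomial.map_mul, Polynomial.map_pow, map_C, map_X, ru_map]

/-- the generic coefficients -/
noncomputable def un (D : ℕ) : Idx D → MvPolynomial (Idx D) ℤ := fun p => MvPolynomial.X p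

/-- evaluation of the generic coefficients -/
noncomputable def ue (c : Idx D → R) : MvPolynomial (Idx D) ℤ →+* R :=
  MvPolynomial.eval₂Hom (Int.castRingHom R) c

theorem ue_un (c : Idx D → R) : (fun p => ue c (un D p)) = c := by
  funext p
  simp [ue, un]

/-- a bound for degrees -/
noncomputable def Mb (n : ℕ) : ℕ :=
  max (rG (un (n + 1))).natDegree ((ru 0 (un (n + 1))) ^ (n + 1)).natDegree +
    (ru 0 (un (n + 1))).natDegree

theorem rG_natDegree (c : Idx (n + 1) → R) : (rG c).natDegree ≤ Mb n := by
  have h := rG_map (ue c) (un (n + 1))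
  rw [ue_un] at h
  rw [← h]
  refine natDegree_map_le.trans ?_
  unfold Mb
  have := le_max_left (rG (un (n + 1))).natDegree ((ru 0 (un (n + 1))) ^ (n + 1)).natDegree
  omega

theorem ru_pow_natDegree (c : Idx (n + 1) → R) : ((ru 0 c) ^ (n + 1)).natDegree ≤ Mb n := by
  have h := ru_map (ue c) 0 (un (n + 1))
  rw [ue_un] at h
  rw [← h, ← Polynomial.map_pow]
  refine natDegree_map_le.trans ?_
  unfold Mb
  have := le_max_right (rG (un (n + 1))).natDegree ((ru 0 (un (n + 1))) ^ (n + 1)).natDegree
  omega

theorem ru_natDegree (c : Idx (n + 1) → R) : (ru 0 c).natDegree ≤ Mb n := by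
  have h := ru_map (ue c) 0 (un (n + 1))
  rw [ue_un] at h
  rw [← h]
  refine natDegree_map_le.trans ?_
  unfold Mb
  omega

/-- the polynomial of the critical values -/
noncomputable def cP (c : Idx (n + 1) → R) : R[X] :=
  resultant ((ra c).map C) ((rG c).map C + C X * ((ru 0 c) ^ (n + 1)).map C) (n ^ 2) (Mb n)

/-- the discriminant -/
noncomputable def dP (c : Idx (n + 1) → R) : R := resultant (ra c) (rG c) (n ^ 2) (Mb n)

theorem cP_map (φ : R →+* S) (c : Idx (n + 1) → R) : (cP c).map φ = cP fun p => φ (c p) := by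
  unfold cP
  rw [← coe_mapRingHom, ← resultant_map_map]
  have h2 : ∀ p : R[X], (p.map C).map (mapRingHom φ) = (p.map φ).map C := fun p => by
    rw [Polynomial.map_map, Polynomial.map_map]
    congr 1
    ext <;> simp
  have h4 : (mapRingHom φ) (X : R[X]) = X := by simp
  rw [Polynomial.map_add, h2, h2, ra_map, rG_map, Polynomial.map_mul, h2, map_C,
    Polynomial.map_pow, ru_map, h4]

theorem dP_map (φ : R →+* S) (c : Idx (n + 1) → R) : φ (dP c) = dP fun p => φ (c p) := by
  unfold dP
  rw [← resultant_map_map, ra_map, rG_map]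

/-- the index of the constant term -/
def i0 (D : ℕ) : Idx D := ⟨(0, 0), by simp⟩

/-- the shift of the constant term -/
def sh (c : Idx D → R) (t : R) : Idx D → R := fun p => c p + if p = i0 D then t else 0

theorem px_i0 (D : ℕ) : px (i0 D) = 0 := rfl

theorem py_i0 (D : ℕ) : py (i0 D) = 0 := rfl

theorem bp_sh (c : Idx D → R) (t : R) : bp (sh c t) = bp c + C (C t) := by
  unfold bp sh
  simp only [C_add, add_mul, Finset.sum_add_distrib]
  congr 1
  rw [Finset.sum_eq_single (i0 D)]
  · simp [px_i0, py_i0]
  · intro p _ hp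
    rw [if_neg hp]
    simp
  · intro h
    exact absurd (Finset.mem_univ _) h

theorem bx_sh (c : Idx D → R) (t : R) : bx (sh c t) = bx c := by
  unfold bx sh
  simp only [C_add, add_mul, Finset.sum_add_distrib]
  conv_rhs => rw [← add_zero (∑ p, C (C (c p) * derivative (X ^ px p)) * X ^ py p)]
  congr 1
  refine Finset.sum_eq_zero fun p _ => ?_
  split_ifs with h
  · rw [h, px_i0]
    simp
  · simp

theorem by_sh (c : Idx D → R) (t : R) : by' (sh c t) = by' c := by
  unfold by'
  rw [bp_sh, derivative_add, derivative_C, add_zero]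

theorem ra_sh (c : Idx (n + 1) → R) (t : R) : ra (sh c t) = ra c := by
  unfold ra
  rw [by_sh, bx_sh]

theorem ru_sh (e : ℕ) (c : Idx (n + 1) → R) (t : R) : ru e (sh c t) = ru e c := by
  unfold ru
  rw [by_sh, bx_sh]

theorem rG_sh (c : Idx (n + 1) → R) (t : R) :
    rG (sh c t) = rG c + C t * (ru 0 c) ^ (n + 1) := by
  unfold rG
  simp only [ru_sh]
  unfold sh
  simp only [C_add, add_mul, Finset.sum_add_distrib]
  congr 1
  rw [Finset.sum_eq_single (i0 (n + 1))]
  · simp [px_i0, py_i0]
  · intro p _ hp
    rw [if_neg hp]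
    simp
  · intro h
    exact absurd (Finset.mem_univ _) h

theorem cP_eval (c : Idx (n + 1) → R) (t : R) : (cP c).eval t = dP (sh c t) := by
  unfold cP dP
  rw [← coe_evalRingHom, ← resultant_map_map]
  have h2 : ∀ p : R[X], (p.map C).map (evalRingHom t) = p := fun p => by
    rw [Polynomial.map_map]
    have : (evalRingHom t).comp (C : R →+* R[X]) = RingHom.id R := by ext x; simp
    rw [this, Polynomial.map_id]
  have h4 : (evalRingHom t) (X : R[X]) = t := by simp
  rw [Polynomial.map_add, h2, h2, Polynomial.map_mul, h2, map_C, ra_sh, rG_sh, h4]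

end ring

end Pool.Agent.K4H5.PC
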