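import Pool.Agent.K4H5.PC.El

/-!
Critical points over an algebraically closed field.
-/

set_option autoImplicit false
set_option linter.unusedSectionVars false

open Polynomial

namespace Pool.Agent.K4H5.PC

section degree

/-- the degree of a determinant -/
theorem det_natDegree {ι : Type} [Fintype ι] [DecidableEq ι] {R : Type} [CommRing R]
    (M : Matrix ι ι R[X]) (r s : ι → ℕ)
    (h : ∀ i j, M i j ≠ 0 → (M i j).natDegree + s i ≤ r j) :
    M.det ≠ 0 → M.det.natDegree + ∑ i, s i ≤ ∑ i, r i := by
  intro hdet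
  rw [Matrix.det_apply]
  rw [Matrix.det_apply] at hdet
  by_contra hcon
  have key : ∀ σ : Equiv.Perm ι, (∏ i, M (σ i) i) ≠ 0 →
      (∏ i, M (σ i) i).natDegree + ∑ i, s i ≤ ∑ i, r i := by
    intro σ hσ
    have h1 : ∀ i, M (σ i) i ≠ 0 := fun i hi => hσ (Finset.prod_eq_zero (Finset.mem_univ i) hi)
    have h2 : ∑ i, s i = ∑ i, s (σ i) := (Equiv.sum_comp σ s).symm
    rw [h2]
    refine (Nat.add_le_add_right (natDegree_prod_le _ _) _).trans ?_
    rw [← Finset.sum_add_distrib]
    exact Finset.sum_le_sum fun i _ => h _ _ (h1 i)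
  have hle : ∀ (B : ℕ), (∀ σ : Equiv.Perm ι, (∏ i, M (σ i) i) ≠ 0 →
      (∏ i, M (σ i) i).natDegree ≤ B) →
      (∑ σ : Equiv.Perm ι, Equiv.Perm.sign σ • ∏ i, M (σ i) i).natDegree ≤ B := by
    intro B hB
    refine natDegree_sum_le_of_forall_le _ _ fun σ _ => ?_
    by_cases h0 : (∏ i, M (σ i) i) = 0
    · rw [h0]
      simp
    · refine le_trans ?_ (hB σ h0)
      rcases Int.units_eq_one_or (Equiv.Perm.sign σ) with h1 | h1
      · rw [h1, one_smul]
      · rw [h1]
        simp
  rcases le_or_gt (∑ i, s i) (∑ i, r i) with h1 | h1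
  · have h2 := hle (∑ i, r i - ∑ i, s i) fun σ hσ => by
      have := key σ hσ
      omega
    omega
  · apply hdet
    refine Finset.sum_eq_zero fun σ _ => ?_
    by_cases h0 : (∏ i, M (σ i) i) = 0
    · rw [h0, smul_zero]
    · have := key σ h0
      omega

/-- the resultant of two forms of degree `n` -/
theorem resultant_natDegree {R : Type} [CommRing R] {n : ℕ} (f g : R[X][X])
    (hf : ∀ j, f.coeff j ≠ 0 → (f.coeff j).natDegree + j ≤ n)
    (hg : ∀ j, g.coeff j ≠ 0 → (g.coeff j).natDegree + j ≤ n) :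
    (resultant f g n n).natDegree ≤ n ^ 2 := by
  by_cases h0 : resultant f g n n = 0
  · rw [h0]
    simp
  unfold resultant at h0 ⊢
  have h1 := det_natDegree (sylvester f g n n)
    (fun j => Fin.addCases (fun j₁ : Fin n => n + (j₁ : ℕ)) (fun j₁ : Fin n => n + (j₁ : ℕ)) j)
    (fun i => (i : ℕ)) ?_ h0
  · have e0 : ∑ j : Fin (n + n), (Fin.addCases (fun j₁ : Fin n => n + (j₁ : ℕ))
        (fun j₁ : Fin n => n + (j₁ : ℕ)) j : ℕ) =
        ∑ i : Fin n, (n + (i : ℕ)) + ∑ i : Fin n, (n + (i : ℕ)) := by
      rw [Fin.sum_univ_add]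
      simp only [Fin.addCases_left, Fin.addCases_right]
    rw [e0] at h1
    have e1 : ∑ i : Fin (n + n), (i : ℕ) = ∑ i ∈ Finset.range (n + n), i :=
      Fin.sum_univ_eq_sum_range (fun i => i) (n + n)
    have e2 : ∑ i : Fin n, (n + (i : ℕ)) = ∑ i ∈ Finset.range n, (n + i) :=
      Fin.sum_univ_eq_sum_range (fun i => n + i) n
    have e3 : ∑ i ∈ Finset.range (n + n), i =
        ∑ i ∈ Finset.range n, i + ∑ i ∈ Finset.range n, (n + i) := by
      rw [Finset.sum_range_add]
    have e4 : ∑ i ∈ Finset.range n, (n + i) = n * n + ∑ i ∈ Finset.range n, i := by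
      rw [Finset.sum_add_distrib]
      simp
    rw [e1, e2, e3, e4] at h1
    have e5 : n ^ 2 = n * n := sq n
    omega
  · intro i j hij
    induction j using Fin.addCases with
    | left j₁ =>
      simp only [Fin.addCases_left]
      have h2 : sylvester f g n n i (Fin.castAdd n j₁) =
          if (i : ℕ) ∈ Set.Icc (j₁ : ℕ) (j₁ + n) then g.coeff (i - j₁) else 0 := by
        unfold sylvester
        rw [Matrix.of_apply, Fin.addCases_left]
      rw [h2] at hij ⊢
      by_cases h3 : (i : ℕ) ∈ Set.Icc (j₁ : ℕ) (j₁ + n)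
      · rw [if_pos h3] at hij ⊢
        have h4 := hg _ hij
        rw [Set.mem_Icc] at h3
        omega
      · rw [if_neg h3] at hij
        exact absurd rfl hij
    | right j₁ =>
      simp only [Fin.addCases_right]
      have h2 : sylvester f g n n i (Fin.natAdd n j₁) =
          if (i : ℕ) ∈ Set.Icc (j₁ : ℕ) (j₁ + n) then f.coeff (i - j₁) else 0 := by
        unfold sylvester
        rw [Matrix.of_apply, Fin.addCases_right]
      rw [h2] at hij ⊢
      by_cases h3 : (i : ℕ) ∈ Set.Icc (j₁ : ℕ) (j₁ + n)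
      · rw [if_pos h3] at hij ⊢
        have h4 := hf _ hij
        rw [Set.mem_Icc] at h3
        omega
      · rw [if_neg h3] at hij
        exact absurd rfl hij

variable {R : Type} [CommRing R] {n : ℕ}

theorem bp_coeff_natDegree {D : ℕ} (c : Idx D → R) (j : ℕ) (h : (bp c).coeff j ≠ 0) :
    ((bp c).coeff j).natDegree + j ≤ D := by
  unfold bp at h ⊢
  rw [finsetSum_coeff] at h ⊢
  simp only [coeff_C_mul, coeff_X_pow] at h ⊢
  have hj : j ≤ D := by
    by_contra hcon
    apply h
    refine Finset.sum_eq_zero fun p _ => ?_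
    rw [if_neg, mul_zero]
    have := pxy p
    omega
  have h1 : (∑ p, C (c p) * X ^ px p * (if j = py p then (1 : R[X]) else 0)).natDegree ≤ D - j := by
    refine natDegree_sum_le_of_forall_le _ _ fun p _ => ?_
    split_ifs with h2
    · rw [mul_one]
      refine (natDegree_C_mul_X_pow_le _ _).trans ?_
      have := pxy p
      omega
    · rw [mul_zero]
      simp
  omega

theorem bx_coeff_natDegree (c : Idx (n + 1) → R) (j : ℕ) (h : (bx c).coeff j ≠ 0) :
    ((bx c).coeff j).natDegree + j ≤ n := by
  unfold bx at h ⊢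
  rw [finsetSum_coeff] at h ⊢
  simp only [coeff_C_mul, coeff_X_pow] at h ⊢
  have hz : ∀ p : Idx (n + 1), px p = 0 → C (c p) * derivative (X ^ px p) = 0 := fun p hp => by
    rw [hp]
    simp
  have hj : j ≤ n := by
    by_contra hcon
    apply h
    refine Finset.sum_eq_zero fun p _ => ?_
    split_ifs with h2
    · have := pxy p
      rw [hz p (by omega), zero_mul]
    · rw [mul_zero]
  have h1 : (∑ p, C (c p) * derivative (X ^ px p) *
      (if j = py p then (1 : R[X]) else 0)).natDegree ≤ n - j := by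
    refine natDegree_sum_le_of_forall_le _ _ fun p _ => ?_
    split_ifs with h2
    · rw [mul_one]
      rcases Nat.eq_zero_or_pos (px p) with h3 | h3
      · rw [hz p h3]
        simp
      · refine (natDegree_C_mul_le _ _).trans ((natDegree_derivative_le _).trans ?_)
        have h4 := natDegree_X_pow_le (R := R) (px p)
        have := pxy p
        omega
    · rw [mul_zero]
      simp
  omega

theorem by_coeff_natDegree (c : Idx (n + 1) → R) (j : ℕ) (h : (by' c).coeff j ≠ 0) :
    ((by' c).coeff j).natDegree + j ≤ n := by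
  unfold by' at h ⊢
  rw [coeff_derivative] at h ⊢
  have h1 : (bp c).coeff (j + 1) ≠ 0 := left_ne_zero_of_mul h
  have h2 := bp_coeff_natDegree c (j + 1) h1
  have h3 : ((bp c).coeff (j + 1) * ((j : R[X]) + 1)).natDegree ≤
      ((bp c).coeff (j + 1)).natDegree := by
    have : ((j : R[X]) + 1) = C ((j : R) + 1) := by simp
    rw [this]
    exact natDegree_mul_C_le _ _
  omega

theorem ra_natDegree (c : Idx (n + 1) → R) : (ra c).natDegree ≤ n ^ 2 :=
  resultant_natDegree _ _ (by_coeff_natDegree c) (bx_coeff_natDegree c)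

end degree

section field

variable {k : Type} [Field k] [IsAlgClosed k] [DecidableEq k] {n : ℕ} (hn : 1 ≤ n) (c : Idx (n + 1) → k)
  (h1 : ((n + 1 : ℕ) : k) * c (iy (n + 1)) ≠ 0)

theorem dsl_coeff (x : k) : (derivative (sl c x)).coeff n = ((n + 1 : ℕ) : k) * c (iy (n + 1)) := by
  rw [coeff_derivative, sl_coeff]
  push_cast
  ring

include h1 in
theorem dsl_natDegree (x : k) : (derivative (sl c x)).natDegree = n := by
  refine le_antisymm ?_ (le_natDegree_of_ne_zero (by rw [dsl_coeff]; exact h1))
  have h2 := natDegree_derivative_le (sl c x)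
  have h3 := sl_natDegree c x
  omega

include h1 in
theorem dsl_lead (x : k) :
    (derivative (sl c x)).leadingCoeff = ((n + 1 : ℕ) : k) * c (iy (n + 1)) := by
  rw [leadingCoeff, dsl_natDegree c h1, dsl_coeff]

include h1 in
theorem dsl_ne (x : k) : derivative (sl c x) ≠ 0 := by
  intro h
  have := dsl_coeff c x
  rw [h, coeff_zero] at this
  exact h1 this.symm

include h1 in
theorem ra_eval (x : k) : (ra c).eval x = (((n + 1 : ℕ) : k) * c (iy (n + 1))) ^ n *
    ((derivative (sl c x)).roots.map (sx c x).eval).prod := by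
  unfold ra
  rw [← coe_evalRingHom, ← resultant_map_map, by_eval, bx_eval]
  have h := resultant_eq_prod_eval (derivative (sl c x)) (sx c x) n (sx_natDegree c x)
    (IsAlgClosed.splits _)
  rw [dsl_natDegree c h1, dsl_lead c h1] at h
  exact h

include h1 in
theorem ra_zero_iff (x : k) :
    (ra c).eval x = 0 ↔ ∃ y, ev c 0 1 x y = 0 ∧ ev c 1 0 x y = 0 := by
  rw [ra_eval c h1, mul_eq_zero, or_iff_right (pow_ne_zero _ h1), Multiset.prod_eq_zero_iff,
    Multiset.mem_map]
  constructor
  · rintro ⟨y, hy, h2⟩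
    rw [mem_roots (dsl_ne c h1 x), IsRoot, sl_der_ev] at hy
    rw [sx_ev] at h2
    exact ⟨y, hy, h2⟩
  · rintro ⟨y, hy, h2⟩
    refine ⟨y, ?_, ?_⟩
    · rw [mem_roots (dsl_ne c h1 x), IsRoot, sl_der_ev]
      exact hy
    · rw [sx_ev]
      exact h2

include hn h1 in
theorem ru_eval (e : ℕ) (he : e ≤ 1) (x y : k) (hy : y ∈ (derivative (sl c x)).roots)
    (hy2 : (sx c x).eval y = 0) :
    (ru e c).eval x = (((n + 1 : ℕ) : k) * c (iy (n + 1))) ^ n * (y ^ e *
      (((derivative (sl c x)).roots.erase y).map (sx c x).eval).prod) := by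
  set l := ((n + 1 : ℕ) : k) * c (iy (n + 1)) with hl
  have e1 : (ru e c).eval x = (resultant ((derivative (sl c x)).map C)
      ((sx c x).map C + C X * X ^ e) n n).coeff 1 := by
    unfold ru
    have h2 : ∀ p : k[X][X], (p.coeff 1).eval x = (p.map (evalRingHom x)).coeff 1 := fun p => by
      rw [coeff_map, coe_evalRingHom]
    rw [h2, ← coe_mapRingHom (evalRingHom x), ← resultant_map_map]
    have h3 : ∀ p : k[X][X], (p.map C).map (mapRingHom (evalRingHom x)) =
        (p.map (evalRingHom x)).map C := fun p => by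
      rw [Polynomial.map_map, Polynomial.map_map]
      congr 1
      ext <;> simp
    have h4 : (mapRingHom (evalRingHom x)) (X : k[X][X]) = X := by simp
    rw [Polynomial.map_add, h3, h3, by_eval, bx_eval, Polynomial.map_mul, map_C,
      Polynomial.map_pow, map_X, h4]
  rw [e1]
  have hinj : Function.Injective (C : k →+* k[X]) := C_injective
  have hdeg : ((derivative (sl c x)).map (C : k →+* k[X])).natDegree = n := by
    rw [natDegree_map_eq_of_injective hinj, dsl_natDegree c h1]
  have hg : ((sx c x).map C + C X * X ^ e : k[X][X]).natDegree ≤ n := by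
    refine (natDegree_add_le _ _).trans (max_le ?_ ?_)
    · exact natDegree_map_le.trans (sx_natDegree c x)
    · exact (natDegree_C_mul_X_pow_le _ _).trans (he.trans hn)
  have h := resultant_eq_prod_eval ((derivative (sl c x)).map (C : k →+* k[X]))
    ((sx c x).map C + C X * X ^ e) n hg ((IsAlgClosed.splits (derivative (sl c x))).map C)
  rw [hdeg, leadingCoeff_map_of_injective hinj, dsl_lead c h1,
    ← roots_map_of_injective_of_card_eq_natDegree hinj
      ((IsAlgClosed.splits (derivative (sl c x))).natDegree_eq_card_roots.symm),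
    Multiset.map_map, ← Multiset.cons_erase hy, Multiset.map_cons, Multiset.prod_cons] at h
  rw [h]
  have h5 : ∀ z : k, ((fun y : k[X] => ((sx c x).map C + C X * X ^ e : k[X][X]).eval y) ∘ C) z =
      C ((sx c x).eval z) + X * C (z ^ e) := by
    intro z
    simp only [Function.comp_apply, eval_add, eval_mul, eval_C, eval_pow, eval_X, eval_map]
    rw [eval₂_at_apply]
    simp
  have h6 : (((derivative (sl c x)).roots.erase y).map
      ((fun y : k[X] => ((sx c x).map C + C X * X ^ e : k[X][X]).eval y) ∘ C)).prod.coeff 0 =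
      (((derivative (sl c x)).roots.erase y).map (sx c x).eval).prod := by
    rw [coeff_zero_eq_eval_zero, eval_multiset_prod, Multiset.map_map]
    congr 1
    refine Multiset.map_congr rfl fun z _ => ?_
    rw [Function.comp_apply, h5]
    simp
  rw [h5, hy2, C_0, zero_add, ← C_pow, coeff_C_mul, mul_assoc, coeff_X_mul, coeff_C_mul, h6]

end field

end Pool.Agent.K4H5.PC
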