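import Pool.Agent.K4H5.PC.El2
import Pool.Agent.K4H5.HF.Res

/-!
The structure of the critical points for generic coefficients.
-/

set_option autoImplicit false
set_option linter.unusedSectionVars false

open Polynomial

namespace Pool.Agent.K4H5.PC

open Pool.Agent.K4H5.HF (fp Dd nr)

section generic

variable {R S : Type} [CommRing R] [CommRing S] {n : ℕ}

/-- the coefficients of the top form -/
def top {D : ℕ} (c : Idx D → R) : Fin (D + 1) → R := fun i => c (it i)

/-- the genericity condition -/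
noncomputable def mm (c : Idx (n + 1) → R) : R :=
  (((n + 1 : ℕ) : R) * c (iy (n + 1))) * (ra c).coeff (n ^ 2) *
    resultant (ra c) (ru 0 c) (n ^ 2) (Mb n) *
    resultant (cP c) (derivative (cP c)) (n ^ 2) (n ^ 2 - 1) *
    (((n + 1 : ℕ) : R) * c (it (Fin.last (n + 1)))) * Dd (top c)

theorem mm_map (φ : R →+* S) (c : Idx (n + 1) → R) : φ (mm c) = mm fun p => φ (c p) := by
  unfold mm
  simp only [map_mul]
  rw [← coeff_map, ra_map, ← resultant_map_map, ra_map, ru_map, ← resultant_map_map,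
    ← derivative_map, cP_map, Pool.Agent.K4H5.HF.Dd_map, map_natCast]
  rfl

end generic

section field

variable {k : Type} [Field k] [IsAlgClosed k] [DecidableEq k] {n : ℕ} (hn : 1 ≤ n)
  (c : Idx (n + 1) → k)
  (h1 : ((n + 1 : ℕ) : k) * c (iy (n + 1)) ≠ 0)
  (h2 : (ra c).coeff (n ^ 2) ≠ 0)

include h2 in
theorem ra_deg : (ra c).natDegree = n ^ 2 :=
  le_antisymm (ra_natDegree c) (le_natDegree_of_ne_zero h2)

include h2 in
theorem ra_ne : ra c ≠ 0 := by
  intro h
  rw [h, coeff_zero] at h2
  exact h2 rfl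

open Classical in
/-- the second coordinate of the critical point -/
noncomputable def yc (c : Idx (n + 1) → k) (x : k) : k :=
  if h : ∃ y, ev c 0 1 x y = 0 ∧ ev c 1 0 x y = 0 then h.choose else 0

include h1 in
theorem yc_spec {x : k} (hx : (ra c).eval x = 0) :
    ev c 0 1 x (yc c x) = 0 ∧ ev c 1 0 x (yc c x) = 0 := by
  have h := (ra_zero_iff c h1 x).1 hx
  unfold yc
  rw [dif_pos h]
  exact h.choose_spec

include h1 in
theorem yc_mem {x : k} (hx : (ra c).eval x = 0) : yc c x ∈ (derivative (sl c x)).roots := by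
  rw [mem_roots (dsl_ne c h1 x), IsRoot, sl_der_ev]
  exact (yc_spec c h1 hx).1

include hn h1 in
theorem yc_erase {x : k} (hx : (ra c).eval x = 0) (hu : (ru 0 c).eval x ≠ 0) :
    ∀ y ∈ (derivative (sl c x)).roots.erase (yc c x), ev c 1 0 x y ≠ 0 := by
  intro y hy h0
  apply hu
  rw [ru_eval hn c h1 0 (by omega) x (yc c x) (yc_mem c h1 hx)
    (by rw [sx_ev]; exact (yc_spec c h1 hx).2)]
  have : (((derivative (sl c x)).roots.erase (yc c x)).map (sx c x).eval).prod = 0 := by
    rw [Multiset.prod_eq_zero_iff, Multiset.mem_map]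
    exact ⟨y, hy, by rw [sx_ev]; exact h0⟩
  rw [this, mul_zero, mul_zero]

include hn h1 in
theorem yc_unique {x : k} (hx : (ra c).eval x = 0) (hu : (ru 0 c).eval x ≠ 0) {y : k}
    (hy : ev c 0 1 x y = 0) (hy2 : ev c 1 0 x y = 0) : y = yc c x := by
  by_contra hne
  refine yc_erase hn c h1 hx hu y ?_ hy2
  rw [Multiset.mem_erase_of_ne hne, mem_roots (dsl_ne c h1 x), IsRoot, sl_der_ev]
  exact hy

include hn h1 in
theorem yc_simple {x : k} (hx : (ra c).eval x = 0) (hu : (ru 0 c).eval x ≠ 0) :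
    ev c 0 2 x (yc c x) ≠ 0 := by
  intro h0
  refine yc_erase hn c h1 hx hu (yc c x) ?_ (yc_spec c h1 hx).2
  have h3 : 1 < (derivative (sl c x)).rootMultiplicity (yc c x) := by
    rw [one_lt_rootMultiplicity_iff_isRoot (dsl_ne c h1 x)]
    refine ⟨?_, ?_⟩
    · rw [IsRoot, sl_der_ev]
      exact (yc_spec c h1 hx).1
    · rw [IsRoot, sl_der2_ev]
      exact h0
  rw [← count_roots] at h3
  rw [← Multiset.count_pos, Multiset.count_erase_self]
  omega

include hn h1 in
theorem rG_ev {x : k} (hx : (ra c).eval x = 0) :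
    (rG c).eval x = (ru 0 c).eval x ^ (n + 1) * ev c 0 0 x (yc c x) := by
  have e0 := ru_eval hn c h1 0 (by omega) x (yc c x) (yc_mem c h1 hx)
    (by rw [sx_ev]; exact (yc_spec c h1 hx).2)
  have e1 := ru_eval hn c h1 1 (by omega) x (yc c x) (yc_mem c h1 hx)
    (by rw [sx_ev]; exact (yc_spec c h1 hx).2)
  have e2 : (ru 1 c).eval x = yc c x * (ru 0 c).eval x := by
    rw [e0, e1]
    ring
  unfold rG
  rw [eval_finsetSum]
  unfold ev
  rw [Finset.mul_sum]
  refine Finset.sum_congr rfl fun p _ => ?_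
  simp only [eval_mul, eval_C, eval_pow, eval_X, Nat.descFactorial_zero, Nat.cast_one, mul_one,
    Nat.sub_zero]
  rw [e2]
  have h3 : (ru 0 c).eval x ^ (n + 1) =
      (ru 0 c).eval x ^ py p * (ru 0 c).eval x ^ (n + 1 - py p) := by
    rw [← pow_add]
    congr 1
    have := pxy p
    omega
  rw [h3, mul_pow]
  ring

/-- the critical value -/
noncomputable def fv (c : Idx (n + 1) → k) (x : k) : k := ev c 0 0 x (yc c x)

include hn h1 h2 in
theorem cP_eq : cP c = C ((ra c).leadingCoeff ^ Mb n *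
      ((ra c).roots.map fun x => (ru 0 c).eval x ^ (n + 1)).prod) *
    ((ra c).roots.map fun x => X + C (fv c x)).prod := by
  unfold cP
  have hinj : Function.Injective (C : k →+* k[X]) := C_injective
  have hdeg : ((ra c).map (C : k →+* k[X])).natDegree = n ^ 2 := by
    rw [natDegree_map_eq_of_injective hinj, ra_deg c h2]
  have hg : ((rG c).map C + C X * ((ru 0 c) ^ (n + 1)).map C : k[X][X]).natDegree ≤ Mb n := by
    refine (natDegree_add_le _ _).trans (max_le ?_ ?_)
    · exact natDegree_map_le.trans (rG_natDegree c)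
    · exact (natDegree_C_mul_le _ _).trans (natDegree_map_le.trans (ru_pow_natDegree c))
  have h := resultant_eq_prod_eval ((ra c).map (C : k →+* k[X]))
    ((rG c).map C + C X * ((ru 0 c) ^ (n + 1)).map C) (Mb n) hg
    ((IsAlgClosed.splits (ra c)).map C)
  rw [hdeg, leadingCoeff_map_of_injective hinj,
    ← roots_map_of_injective_of_card_eq_natDegree hinj
      ((IsAlgClosed.splits (ra c)).natDegree_eq_card_roots.symm), Multiset.map_map] at h
  rw [h]
  have h5 : ∀ x ∈ (ra c).roots, ((fun y : k[X] =>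
      ((rG c).map C + C X * ((ru 0 c) ^ (n + 1)).map C : k[X][X]).eval y) ∘ C) x =
      C ((ru 0 c).eval x ^ (n + 1)) * (X + C (fv c x)) := by
    intro x hx
    have hx0 : (ra c).eval x = 0 := (mem_roots (ra_ne c h2)).1 hx
    simp only [Function.comp_apply, eval_add, eval_mul, eval_C, eval_map]
    rw [eval₂_at_apply, eval₂_at_apply, rG_ev hn c h1 hx0, eval_pow]
    unfold fv
    rw [C_mul]
    ring
  rw [Multiset.map_congr rfl h5, Multiset.prod_map_mul, C_mul, C_pow]
  rw [mul_assoc]
  congr 2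
  rw [map_multiset_prod, Multiset.map_map]
  rfl

variable (h3 : resultant (ra c) (ru 0 c) (n ^ 2) (Mb n) ≠ 0)
  (h4 : resultant (cP c) (derivative (cP c)) (n ^ 2) (n ^ 2 - 1) ≠ 0)

include h2 h3 in
theorem ru_ne {x : k} (hx : (ra c).eval x = 0) : (ru 0 c).eval x ≠ 0 := by
  intro h0
  apply h3
  have h := resultant_eq_prod_eval (ra c) (ru 0 c) (Mb n) (ru_natDegree c)
    (IsAlgClosed.splits _)
  rw [ra_deg c h2] at h
  rw [h]
  have : ((ra c).roots.map (ru 0 c).eval).prod = 0 := by
    rw [Multiset.prod_eq_zero_iff, Multiset.mem_map]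
    exact ⟨x, (mem_roots (ra_ne c h2)).2 hx, h0⟩
  rw [this, mul_zero]

include h2 h3 in
theorem cst_ne : (ra c).leadingCoeff ^ Mb n *
      ((ra c).roots.map fun x => (ru 0 c).eval x ^ (n + 1)).prod ≠ 0 := by
  refine mul_ne_zero (pow_ne_zero _ (leadingCoeff_ne_zero.2 (ra_ne c h2))) ?_
  intro h
  rw [Multiset.prod_eq_zero_iff, Multiset.mem_map] at h
  obtain ⟨x, hx, hx2⟩ := h
  exact ru_ne c h2 h3 ((mem_roots (ra_ne c h2)).1 hx) (pow_eq_zero_iff (by omega) |>.1 hx2)

include hn h1 h2 h3 in
theorem cP_ne : cP c ≠ 0 := by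
  rw [cP_eq hn c h1 h2]
  refine mul_ne_zero (C_ne_zero.2 (cst_ne c h2 h3)) ?_
  exact (monic_multiset_prod_of_monic _ _ fun b _ => monic_X_add_C _).ne_zero

include hn h1 h2 h3 in
theorem cP_deg : (cP c).natDegree = n ^ 2 := by
  rw [cP_eq hn c h1 h2, natDegree_C_mul (cst_ne c h2 h3), natDegree_multiset_prod_of_monic]
  · rw [Multiset.map_map]
    have : (ra c).roots.map (natDegree ∘ fun x => X + C (fv c x)) =
        (ra c).roots.map fun _ => 1 := by
      refine Multiset.map_congr rfl fun b _ => ?_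
      simp
    rw [this, Multiset.map_const', Multiset.sum_replicate, smul_eq_mul, mul_one,
      ← (IsAlgClosed.splits (ra c)).natDegree_eq_card_roots, ra_deg c h2]
  · intro p hp
    rw [Multiset.mem_map] at hp
    obtain ⟨b, -, rfl⟩ := hp
    exact monic_X_add_C _

include hn h1 h2 h3 in
theorem cP_roots : (cP c).roots = (ra c).roots.map fun x => -fv c x := by
  rw [cP_eq hn c h1 h2, roots_C_mul _ (cst_ne c h2 h3)]
  have : ((ra c).roots.map fun x => X + C (fv c x)) =
      ((ra c).roots.map fun x => -fv c x).map fun a => X - C a := by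
    rw [Multiset.map_map]
    refine Multiset.map_congr rfl fun b _ => ?_
    simp
  rw [this, roots_multiset_prod_X_sub_C]

include hn h1 h2 h3 in
theorem cP_nodup_iff : resultant (cP c) (derivative (cP c)) (n ^ 2) (n ^ 2 - 1) ≠ 0 ↔
    ((ra c).roots.map (fv c)).Nodup := by
  classical
  have h0 := cP_ne hn c h1 h2 h3
  have hd : (derivative (cP c)).natDegree ≤ n ^ 2 - 1 := by
    have := natDegree_derivative_le (cP c)
    rw [cP_deg hn c h1 h2 h3] at this
    exact this
  have h6 := resultant_eq_prod_eval (cP c) (derivative (cP c)) (n ^ 2 - 1) hd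
    (IsAlgClosed.splits _)
  rw [cP_deg hn c h1 h2 h3] at h6
  have h7 : resultant (cP c) (derivative (cP c)) (n ^ 2) (n ^ 2 - 1) ≠ 0 ↔
      (cP c).roots.Nodup := by
    rw [h6, mul_ne_zero_iff, and_iff_right (pow_ne_zero _ (leadingCoeff_ne_zero.2 h0)), Ne,
      Multiset.prod_eq_zero_iff, Multiset.mem_map]
    constructor
    · intro h
      rw [Multiset.nodup_iff_count_le_one]
      intro y
      rw [count_roots]
      by_contra hcon
      push Not at hcon
      have h5 : 1 < (cP c).rootMultiplicity y := hcon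
      rw [one_lt_rootMultiplicity_iff_isRoot h0] at h5
      exact h ⟨y, (mem_roots h0).2 h5.1, h5.2⟩
    · rintro h ⟨y, hy, h5⟩
      have h6 := (Multiset.nodup_iff_count_le_one.1 h) y
      rw [count_roots] at h6
      have h7 : 1 < (cP c).rootMultiplicity y :=
        (one_lt_rootMultiplicity_iff_isRoot h0).2 ⟨(mem_roots h0).1 hy, h5⟩
      omega
  rw [h7, cP_roots hn c h1 h2 h3]
  have h5 : ((ra c).roots.map fun x => -fv c x) = ((ra c).roots.map (fv c)).map fun x => -x := by
    rw [Multiset.map_map]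
    rfl
  rw [h5]
  exact Multiset.nodup_map_iff_of_injective neg_injective

end field

end Pool.Agent.K4H5.PC
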