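import Pool.Agent.K4H5.PC.El3

/-!
The singular members of the pencil `f + t` for generic `f`.
-/

set_option autoImplicit false
set_option linter.unusedSectionVars false

open Polynomial

namespace Pool.Agent.K4H5.PC

section ring

variable {R : Type} [CommRing R] {D : ℕ}

theorem ev_sh (c : Idx D → R) (t : R) (r s : ℕ) (h : 1 ≤ r + s) (x y : R) :
    ev (sh c t) r s x y = ev c r s x y := by
  unfold ev sh
  refine Finset.sum_congr rfl fun p _ => ?_
  split_ifs with hp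
  · rw [hp, px_i0, py_i0]
    rcases Nat.eq_zero_or_pos r with h1 | h1
    · have h2 : (0 : ℕ).descFactorial s = 0 := Nat.descFactorial_of_lt (by omega)
      rw [h2]
      simp
    · have h2 : (0 : ℕ).descFactorial r = 0 := Nat.descFactorial_of_lt h1
      rw [h2]
      simp
  · rw [add_zero]

theorem ev_sh0 (c : Idx D → R) (t : R) (x y : R) :
    ev (sh c t) 0 0 x y = ev c 0 0 x y + t := by
  unfold ev sh
  simp only [add_mul, Finset.sum_add_distrib]
  congr 1
  rw [Finset.sum_eq_single (i0 D)]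
  · simp [px_i0, py_i0]
  · intro p _ hp
    rw [if_neg hp]
    simp
  · intro h
    exact absurd (Finset.mem_univ _) h

/-- restriction to a line -/
noncomputable def th (x₀ y₀ κ : R) : R[X][X] →+* R[X] :=
  eval₂RingHom (compRingHom (X + C x₀)) (C y₀ + C κ * X)

theorem th_C (x₀ y₀ κ : R) (p : R[X]) : th x₀ y₀ κ (C p) = p.comp (X + C x₀) := by
  unfold th
  rw [coe_eval₂RingHom, eval₂_C]
  rfl

theorem th_X (x₀ y₀ κ : R) : th x₀ y₀ κ X = C y₀ + C κ * X := by
  unfold th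
  rw [coe_eval₂RingHom, eval₂_X]

theorem th_bx (c : Idx D → R) (x₀ y₀ κ : R) : th x₀ y₀ κ (bx c) =
    ∑ p, C (c p) * (C (px p : R) * (X + C x₀) ^ (px p - 1)) * (C y₀ + C κ * X) ^ py p := by
  unfold bx
  rw [map_sum]
  refine Finset.sum_congr rfl fun p _ => ?_
  rw [map_mul (th x₀ y₀ κ), map_pow (th x₀ y₀ κ), th_C, th_X, mul_comp, C_comp,
    derivative_X_pow, mul_comp, C_comp, pow_comp, X_comp]

theorem th_by (c : Idx D → R) (x₀ y₀ κ : R) : th x₀ y₀ κ (by' c) =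
    ∑ p, C (c p) * (C (py p : R) * (X + C x₀) ^ px p) * (C y₀ + C κ * X) ^ (py p - 1) := by
  unfold by' bp
  rw [derivative_sum, map_sum]
  refine Finset.sum_congr rfl fun p _ => ?_
  rw [derivative_mul, derivative_C, zero_mul, zero_add, derivative_X_pow, map_mul (th x₀ y₀ κ),
    map_mul (th x₀ y₀ κ), map_pow (th x₀ y₀ κ), th_C, th_X, mul_comp, C_comp, pow_comp, X_comp,
    th_C, natCast_comp, C_eq_natCast]
  ring

theorem th_bx0 (c : Idx D → R) (x₀ y₀ κ : R) :
    (th x₀ y₀ κ (bx c)).eval 0 = ev c 1 0 x₀ y₀ := by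
  rw [th_bx, eval_finsetSum]
  unfold ev
  refine Finset.sum_congr rfl fun p _ => ?_
  simp
  ring

theorem th_by0 (c : Idx D → R) (x₀ y₀ κ : R) :
    (th x₀ y₀ κ (by' c)).eval 0 = ev c 0 1 x₀ y₀ := by
  rw [th_by, eval_finsetSum]
  unfold ev
  refine Finset.sum_congr rfl fun p _ => ?_
  simp
  ring

theorem th_bx1 (c : Idx D → R) (x₀ y₀ κ : R) :
    (derivative (th x₀ y₀ κ (bx c))).eval 0 = ev c 2 0 x₀ y₀ + κ * ev c 1 1 x₀ y₀ := by
  rw [th_bx, derivative_sum, eval_finsetSum]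
  unfold ev
  rw [Finset.mul_sum, ← Finset.sum_add_distrib]
  refine Finset.sum_congr rfl fun p _ => ?_
  have h1 : (((px p).descFactorial 2 : ℕ) : R) = ((px p - 1 : ℕ) : R) * (px p : R) := by
    rw [Nat.descFactorial_succ, Nat.descFactorial_one]
    push_cast
    ring
  rw [h1]
  simp [derivative_mul, derivative_pow, Nat.sub_sub]
  ring

theorem th_by1 (c : Idx D → R) (x₀ y₀ κ : R) :
    (derivative (th x₀ y₀ κ (by' c))).eval 0 = ev c 1 1 x₀ y₀ + κ * ev c 0 2 x₀ y₀ := by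
  rw [th_by, derivative_sum, eval_finsetSum]
  unfold ev
  rw [Finset.mul_sum, ← Finset.sum_add_distrib]
  refine Finset.sum_congr rfl fun p _ => ?_
  have h1 : (((py p).descFactorial 2 : ℕ) : R) = ((py p - 1 : ℕ) : R) * (py p : R) := by
    rw [Nat.descFactorial_succ, Nat.descFactorial_one]
    push_cast
    ring
  rw [h1]
  simp [derivative_mul, derivative_pow, Nat.sub_sub]
  ring

end ring

section field

variable {k : Type} [Field k] {n : ℕ}

theorem sq_dvd {p : k[X]} (h0 : p.eval 0 = 0) (h1 : (derivative p).eval 0 = 0) : X ^ 2 ∣ p := by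
  rw [X_pow_dvd_iff]
  intro d hd
  interval_cases d
  · rw [coeff_zero_eq_eval_zero]
    exact h0
  · rw [← coeff_zero_eq_eval_zero, coeff_derivative] at h1
    simpa using h1

/-- a degenerate critical point gives a multiple zero of the resultant -/
theorem degenerate (hn : 1 ≤ n) (c : Idx (n + 1) → k) (x₀ y₀ : k) (h10 : ev c 1 0 x₀ y₀ = 0)
    (h01 : ev c 0 1 x₀ y₀ = 0) (h02 : ev c 0 2 x₀ y₀ ≠ 0)
    (hH : ev c 2 0 x₀ y₀ * ev c 0 2 x₀ y₀ - ev c 1 1 x₀ y₀ ^ 2 = 0) :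
    (derivative (ra c)).eval x₀ = 0 := by
  set κ : k := -(ev c 1 1 x₀ y₀) / ev c 0 2 x₀ y₀ with hκ
  have e1 : ev c 1 1 x₀ y₀ + κ * ev c 0 2 x₀ y₀ = 0 := by
    rw [hκ]
    field_simp
    ring
  have e2 : ev c 2 0 x₀ y₀ + κ * ev c 1 1 x₀ y₀ = 0 := by
    rw [hκ]
    field_simp
    linear_combination hH
  have hby : (by' c).natDegree ≤ n := by
    rw [natDegree_le_iff_coeff_eq_zero]
    intro j hj
    by_contra hcon
    have := by_coeff_natDegree c j hcon
    omega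
  have hbx : (bx c).natDegree ≤ n := by
    rw [natDegree_le_iff_coeff_eq_zero]
    intro j hj
    by_contra hcon
    have := bx_coeff_natDegree c j hcon
    omega
  obtain ⟨p, q, -, -, hpq⟩ := exists_mul_add_mul_eq_C_resultant (by' c) (bx c) hby hbx
    (Or.inl (by omega))
  have h1 := congrArg (th x₀ y₀ κ) hpq
  rw [map_add, map_mul, map_mul, th_C] at h1
  have d1 : X ^ 2 ∣ th x₀ y₀ κ (by' c) :=
    sq_dvd (by rw [th_by0]; exact h01) (by rw [th_by1]; exact e1)
  have d2 : X ^ 2 ∣ th x₀ y₀ κ (bx c) :=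
    sq_dvd (by rw [th_bx0]; exact h10) (by rw [th_bx1]; exact e2)
  have d3 : X ^ 2 ∣ (ra c).comp (X + C x₀) := by
    unfold ra
    rw [← h1]
    exact dvd_add (d1.mul_right _) (d2.mul_right _)
  obtain ⟨w, hw⟩ := d3
  have h2 := congrArg (fun r => (derivative r).eval 0) hw
  simp only [derivative_comp, derivative_mul, derivative_X_pow, eval_mul, eval_add, eval_pow,
    eval_X, eval_comp, eval_C] at h2
  simpa using h2

variable [IsAlgClosed k] [DecidableEq k] (hn : 1 ≤ n) (c : Idx (n + 1) → k)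
  (h1 : ((n + 1 : ℕ) : k) * c (iy (n + 1)) ≠ 0)
  (h2 : (ra c).coeff (n ^ 2) ≠ 0)
  (h3 : resultant (ra c) (ru 0 c) (n ^ 2) (Mb n) ≠ 0)
  (h4 : resultant (cP c) (derivative (cP c)) (n ^ 2) (n ^ 2 - 1) ≠ 0)

include hn h1 h2 h3 h4 in
/-- the singular members of the pencil have one node -/
theorem star (t : k) (ht : dP (sh c t) = 0) : ∃ x y,
    (ev (sh c t) 0 0 x y = 0 ∧ ev (sh c t) 1 0 x y = 0 ∧ ev (sh c t) 0 1 x y = 0) ∧
    ev (sh c t) 2 0 x y * ev (sh c t) 0 2 x y - ev (sh c t) 1 1 x y ^ 2 ≠ 0 ∧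
    ∀ x' y', ev (sh c t) 0 0 x' y' = 0 → ev (sh c t) 1 0 x' y' = 0 →
      ev (sh c t) 0 1 x' y' = 0 → x' = x ∧ y' = y := by
  have hnd := (cP_nodup_iff hn c h1 h2 h3).1 h4
  have hroots : (ra c).roots.Nodup := Multiset.Nodup.of_map _ hnd
  rw [← cP_eval] at ht
  have h5 : t ∈ (cP c).roots := (mem_roots (cP_ne hn c h1 h2 h3)).2 ht
  rw [cP_roots hn c h1 h2 h3, Multiset.mem_map] at h5
  obtain ⟨x, hx, hxt⟩ := h5
  have hx0 : (ra c).eval x = 0 := (mem_roots (ra_ne c h2)).1 hx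
  have hu := ru_ne c h2 h3 hx0
  obtain ⟨s1, s2⟩ := yc_spec c h1 hx0
  refine ⟨x, yc c x, ⟨?_, ?_, ?_⟩, ?_, ?_⟩
  · rw [ev_sh0, ← hxt]
    unfold fv
    ring
  · rw [ev_sh c t 1 0 (by omega)]
    exact s2
  · rw [ev_sh c t 0 1 (by omega)]
    exact s1
  · rw [ev_sh c t 2 0 (by omega), ev_sh c t 0 2 (by omega), ev_sh c t 1 1 (by omega)]
    intro h
    have h6 := degenerate hn c x (yc c x) s2 s1 (yc_simple hn c h1 hx0 hu) h
    have h7 : 1 < (ra c).rootMultiplicity x := by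
      rw [one_lt_rootMultiplicity_iff_isRoot (ra_ne c h2)]
      exact ⟨hx0, h6⟩
    rw [← count_roots] at h7
    have h8 := (Multiset.nodup_iff_count_le_one.1 hroots) x
    omega
  · intro x' y' e0 e1 e2
    rw [ev_sh0] at e0
    rw [ev_sh c t 1 0 (by omega)] at e1
    rw [ev_sh c t 0 1 (by omega)] at e2
    have hx' : (ra c).eval x' = 0 := (ra_zero_iff c h1 x').2 ⟨y', e2, e1⟩
    have hu' := ru_ne c h2 h3 hx'
    have hy' := yc_unique hn c h1 hx' hu' e2 e1
    have hfv : fv c x' = fv c x := by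
      unfold fv
      rw [← hy']
      have h9 : fv c x = -t := by
        rw [← hxt]
        ring
      unfold fv at h9
      rw [h9]
      linear_combination e0
    have hxx : x' = x :=
      Multiset.inj_on_of_nodup_map hnd x' ((mem_roots (ra_ne c h2)).2 hx') x hx hfv
    subst hxx
    exact ⟨rfl, hy'⟩

include hn h1 h2 h3 in
theorem star_conv (t : k) (h : ∃ x y, ev (sh c t) 0 0 x y = 0 ∧ ev (sh c t) 1 0 x y = 0 ∧
    ev (sh c t) 0 1 x y = 0) : dP (sh c t) = 0 := by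
  obtain ⟨x, y, e0, e1, e2⟩ := h
  rw [ev_sh0] at e0
  rw [ev_sh c t 1 0 (by omega)] at e1
  rw [ev_sh c t 0 1 (by omega)] at e2
  have hx' : (ra c).eval x = 0 := (ra_zero_iff c h1 x).2 ⟨y, e2, e1⟩
  have hu' := ru_ne c h2 h3 hx'
  have hy' := yc_unique hn c h1 hx' hu' e2 e1
  rw [← cP_eval]
  have h5 : t ∈ (cP c).roots := by
    rw [cP_roots hn c h1 h2 h3, Multiset.mem_map]
    refine ⟨x, (mem_roots (ra_ne c h2)).2 hx', ?_⟩
    unfold fv
    rw [← hy']
    linear_combination -e0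
  exact (mem_roots (cP_ne hn c h1 h2 h3)).1 h5

end field

end Pool.Agent.K4H5.PC
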