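import Pool.Agent.K4H5.PC.Main
import Pool.Agent.K4H5.PC.Arch2

/-!
The inequality of Frey for almost all plane curves.
-/

set_option autoImplicit false
set_option linter.unusedSectionVars false

open NumberField IsDedekindDomain Polynomial Finset

namespace Pool.Agent.K4H5.PC

open Pool.Agent.K4H5.HF (box card_box)

/-- the genus -/
theorem card_jdx (m : ℕ) : 2 * Fintype.card (Jdx (m + 2)) = (m + 1) * m := by
  have h1 : Fintype.card (Jdx (m + 2)) = ∑ i ∈ range m, (m - i) := by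
    rw [Fintype.card_subtype, card_filter]
    show ∑ q : Fin m × Fin m, (if (q.1 : ℕ) + (q.2 : ℕ) + 3 ≤ m + 2 then 1 else 0) = _
    rw [Fintype.sum_prod_type]
    rw [← Fin.sum_univ_eq_sum_range]
    refine sum_congr rfl fun i _ => ?_
    rw [Fin.sum_univ_eq_sum_range (fun j => if (i : ℕ) + j + 3 ≤ m + 2 then 1 else 0) m,
      ← card_filter]
    have h2 : (range m).filter (fun j => (i : ℕ) + j + 3 ≤ m + 2) = range (m - i) := by
      ext j
      rw [mem_filter, mem_range, mem_range]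
      omega
    rw [h2, card_range]
  rw [h1]
  clear h1
  induction m with
  | zero => simp
  | succ m ih =>
    rw [sum_range_succ']
    simp only [Nat.add_sub_add_right, Nat.sub_zero]
    linarith

/-- The inequality of Frey for almost all plane curves. -/
theorem frey_box (K : Type) [Field K] [NumberField K] (D g : ℕ) (hD : 3 ≤ D)
    (hg : 2 * g = (D - 1) * (D - 2)) (κ δ : ℝ) (hκ : (g : ℝ) < κ)
    (hδ : δ * (κ + (D - 2) * g) < κ - g) :
    ∃ C : ℝ, ∀ H : ℕ, 1 ≤ H → ∀ B : Finset (Idx D → 𝓞 K),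
      (∀ c ∈ B, (∀ p, c p ∈ box K H) ∧ ¬ Frey κ C c) →
      (B.card : ℝ) ≤ C * (H : ℝ) ^ ((Fintype.card (Idx D) * Module.finrank ℚ K : ℕ) -
        δ : ℝ) := by
  obtain ⟨m, rfl⟩ : ∃ m, D = m + 2 := ⟨D - 2, by omega⟩
  have h1 := card_jdx m
  have h2 : Fintype.card (Jdx (m + 2)) = g := by
    simp only [Nat.add_sub_cancel] at hg
    have h3 : m + 2 - 1 = m + 1 := rfl
    rw [h3] at hg
    omega
  have h4 : ((m + 2 : ℕ) : ℝ) - 2 = ((m + 1 : ℕ) : ℝ) - 1 := by
    push_cast
    ring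
  rw [h4] at hδ
  have h5 := frey_of_arch (n := m + 1) K (by omega) (arch (m + 2) hD) κ δ
  have h6 : Fintype.card (Jdx (m + 1 + 1)) = g := h2
  rw [h6] at h5
  exact h5 hκ hδ

end Pool.Agent.K4H5.PC
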