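import Pool.Agent.K4H5.HF.Box

/-!
General counting: zeros of polynomials in a box, and averaging over the translates in one
coordinate, for coefficient vectors indexed by a finite type.
-/

set_option autoImplicit false
set_option linter.unusedSectionVars false

open NumberField IsDedekindDomain Polynomial Finset

namespace Pool.Agent.K4H5.PC

open Pool.Agent.K4H5.HF (box mem_box card_box box_size box_shift mv_bound em Nm Nm_le Nm_ne)

section zeros

variable {ι : Type}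

/-- the value of an integral polynomial -/
noncomputable def vl {R : Type} [CommRing R] (c : ι → R) : MvPolynomial ι ℤ →+* R :=
  MvPolynomial.eval₂Hom (Int.castRingHom R) c

theorem vl_map {R S : Type} [CommRing R] [CommRing S] (φ : R →+* S) (c : ι → R)
    (P : MvPolynomial ι ℤ) : φ (vl c P) = vl (fun i => φ (c i)) P := by
  unfold vl
  rw [MvPolynomial.coe_eval₂Hom, MvPolynomial.coe_eval₂Hom, MvPolynomial.hom_eval₂]
  congr 1
  ext
  simp

/-- a nonzero polynomial has few zeros in a box -/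
theorem mv_zeros [Fintype ι] [DecidableEq ι] (P : MvPolynomial ι ℤ) (x₀ : ι → ℂ) (hx : vl x₀ P ≠ 0)
    (A : Type) [CommRing A] [IsDomain A] [CharZero A] [DecidableEq A] :
    ∃ τ : ℕ, ∀ S : Finset A, S.Nonempty →
      ((Fintype.piFinset fun _ : ι => S).filter fun c => vl c P = 0).card * S.card ≤
        τ * S.card ^ Fintype.card ι := by
  classical
  have hP0 : P ≠ 0 := by
    rintro rfl
    exact hx (map_zero _)
  set e := Fintype.equivFin ι with he
  set Q : MvPolynomial ι A := MvPolynomial.map (Int.castRingHom A) P with hQ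
  have hQ0 : Q ≠ 0 := by
    rw [hQ, Ne, ← map_zero (MvPolynomial.map (Int.castRingHom A))]
    intro h
    exact hP0 (MvPolynomial.map_injective _ (RingHom.injective_int _) h)
  set Q' : MvPolynomial (Fin (Fintype.card ι)) A := MvPolynomial.rename e Q with hQ'
  have hQ'0 : Q' ≠ 0 := by
    rw [hQ', Ne, ← map_zero (MvPolynomial.rename e)]
    intro h
    exact hQ0 (MvPolynomial.rename_injective _ e.injective h)
  refine ⟨Q'.totalDegree, fun S hS => ?_⟩
  have h1 := MvPolynomial.schwartz_zippel_totalDegree hQ'0 S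
  have h2 : ((Fintype.piFinset fun _ : ι => S).filter fun c => vl c P = 0).card =
      ((Fintype.piFinset fun _ : Fin (Fintype.card ι) => S).filter
        fun c => MvPolynomial.eval c Q' = 0).card := by
    refine card_bij (fun c _ => c ∘ e.symm) ?_ ?_ ?_
    · intro c hc
      rw [mem_filter, Fintype.mem_piFinset] at hc ⊢
      refine ⟨fun i => hc.1 _, ?_⟩
      rw [hQ', MvPolynomial.eval_rename, Function.comp_assoc, e.symm_comp_self,
        Function.comp_id, hQ, MvPolynomial.eval_map]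
      exact hc.2
    · intro c _ c' _ h
      funext i
      have := congrFun h (e i)
      simpa using this
    · intro c hc
      rw [mem_filter, Fintype.mem_piFinset] at hc
      refine ⟨c ∘ e, ?_, ?_⟩
      · rw [mem_filter, Fintype.mem_piFinset]
        refine ⟨fun i => hc.1 _, ?_⟩
        have h3 := hc.2
        rw [hQ', MvPolynomial.eval_rename, hQ, MvPolynomial.eval_map] at h3
        exact h3
      · funext i
        simp
  rw [h2]
  have hS0 : (0 : ℚ≥0) < S.card := by exact_mod_cast hS.card_pos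
  rw [div_le_div_iff₀ (by positivity) hS0] at h1
  exact_mod_cast h1

end zeros

variable {K : Type} [Field K] [NumberField K] {ι : Type}

/-- all conjugates of the coefficients are at most `M` -/
def Sz (M : ℝ) (c : ι → 𝓞 K) : Prop := ∀ i, ∀ σ : K →+* ℂ, ‖σ (c i : K)‖ ≤ M

theorem vl_nm (K : Type) [Field K] [NumberField K] (P : MvPolynomial ι ℤ) :
    ∃ (B : ℝ) (A : ℕ), 0 ≤ B ∧ ∀ (c : ι → 𝓞 K) (M : ℝ), 1 ≤ M → Sz M c →
      (Nm (vl c P) : ℝ) ≤ (B * M ^ A) ^ Module.finrank ℚ K := by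
  obtain ⟨B, A, hB, h⟩ := mv_bound P
  refine ⟨B, A, hB, fun c M hM hc => Nm_le fun σ => ?_⟩
  have h1 : σ ((vl c P : 𝓞 K) : K) = vl (fun i => em σ (c i)) P := by
    rw [← vl_map]
    rfl
  rw [h1]
  exact h _ M hM fun i => hc i σ

/-- the translate in one coordinate -/
def shi [DecidableEq ι] {R : Type} [CommRing R] (j : ι) (c : ι → R) (t : R) : ι → R :=
  fun i => c i + if i = j then t else 0

/-- averaging over the translates in one coordinate -/
theorem avg [Fintype ι] [DecidableEq ι] (j : ι) (A : ℕ) (hA : ∀ H : ℕ, ∀ x ∈ box K H,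
    ∀ t ∈ Icc (-(H : ℤ)) H, x - (t : 𝓞 K) ∈ box K (A * H)) (hA1 : 1 ≤ A)
    (bad Exc : (ι → 𝓞 K) → Prop) (H : ℕ) (X Y : ℝ) (hX : 0 ≤ X)
    (B : Finset (ι → 𝓞 K)) (hB : ∀ c ∈ B, (∀ i, c i ∈ box K H) ∧ bad c)
    (E : Finset (ι → 𝓞 K)) (hE : ∀ c, (∀ i, c i ∈ box K (A * H)) → Exc c → c ∈ E)
    (hEc : (E.card : ℝ) ≤ Y)
    (h : ∀ c, (∀ i, c i ∈ box K (A * H)) → ¬ Exc c → ∀ Z : Finset ℤ,
      (∀ t ∈ Z, t ∈ Icc (-(H : ℤ)) H ∧ bad (shi j c (t : 𝓞 K))) → (Z.card : ℝ) ≤ X) :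
    (B.card : ℝ) * (2 * H + 1) ≤
      (((2 * (A * H) + 1 : ℕ) : ℝ) ^ Module.finrank ℚ K) ^ (Fintype.card ι) * X +
        Y * (2 * H + 1) := by
  classical
  set T : Finset ℤ := Icc (-(H : ℤ)) H with hT
  have hTc : T.card = 2 * H + 1 := by
    rw [hT, Int.card_Icc]
    omega
  set G : Finset (ι → 𝓞 K) := Fintype.piFinset fun _ => box K (A * H) with hG
  have hGc : G.card = ((2 * (A * H) + 1) ^ Module.finrank ℚ K) ^ (Fintype.card ι) := by
    rw [hG, Fintype.card_piFinset]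
    simp only [card_box, prod_const, card_univ]
  set Q := G.sigma (fun c => T.filter fun t : ℤ => bad (shi j c (t : 𝓞 K))) with hQ
  have hmono : box K H ⊆ box K (A * H) := by
    intro x hx
    rw [mem_box] at hx ⊢
    intro i
    refine (hx i).trans ?_
    exact_mod_cast Nat.le_mul_of_pos_left H (by omega)
  have h1 : (B ×ˢ T).card ≤ Q.card := by
    refine card_le_card_of_injOn (fun x : (ι → 𝓞 K) × ℤ =>
      (⟨shi j x.1 (-(x.2 : 𝓞 K)), x.2⟩ : Σ _ : ι → 𝓞 K, ℤ)) ?_ ?_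
    · rintro ⟨c, t⟩ hct
      rw [mem_coe, mem_product] at hct
      obtain ⟨h2, h3⟩ := hct
      obtain ⟨h4, h5⟩ := hB c h2
      have h6 : shi j (shi j c (-(t : 𝓞 K))) (t : 𝓞 K) = c := by
        funext i
        unfold shi
        split_ifs <;> simp
      rw [mem_coe, hQ, mem_sigma]
      refine ⟨?_, ?_⟩
      · rw [hG, Fintype.mem_piFinset]
        intro i
        show shi j c (-(t : 𝓞 K)) i ∈ _
        unfold shi
        split_ifs
        · rw [← sub_eq_add_neg]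
          exact hA H _ (h4 i) t h3
        · rw [add_zero]
          exact hmono (h4 i)
      · rw [mem_filter]
        refine ⟨h3, ?_⟩
        show bad (shi j (shi j c (-(t : 𝓞 K))) (t : 𝓞 K))
        rw [h6]
        exact h5
    · rintro ⟨c, t⟩ _ ⟨c', t'⟩ _ h2
      simp only [Sigma.mk.injEq, heq_eq_eq] at h2
      obtain ⟨h3, rfl⟩ := h2
      refine Prod.ext ?_ rfl
      funext i
      have h4 := congrFun h3 i
      unfold shi at h4
      exact add_right_cancel h4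
  rw [card_product, hTc, hQ, card_sigma] at h1
  have h2 : ∑ c ∈ G, ((T.filter fun t : ℤ => bad (shi j c (t : 𝓞 K))).card : ℝ) ≤
      ∑ c ∈ G, (X + if c ∈ E then (2 * H + 1 : ℝ) else 0) := by
    refine sum_le_sum fun c hc => ?_
    rw [hG, Fintype.mem_piFinset] at hc
    by_cases hexc : Exc c
    · rw [if_pos (hE c hc hexc)]
      have h3 : ((T.filter fun t : ℤ => bad (shi j c (t : 𝓞 K))).card : ℝ) ≤ 2 * H + 1 := by
        have := card_filter_le T fun t : ℤ => bad (shi j c (t : 𝓞 K))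
        rw [hTc] at this
        exact_mod_cast this
      linarith
    · have h3 := h c hc hexc (T.filter fun t : ℤ => bad (shi j c (t : 𝓞 K)))
        fun t ht => ⟨(mem_filter.1 ht).1, (mem_filter.1 ht).2⟩
      split_ifs
      · have : (0 : ℝ) ≤ 2 * H + 1 := by positivity
        linarith
      · linarith
  have h3 : ∑ c ∈ G, (X + if c ∈ E then (2 * H + 1 : ℝ) else 0) ≤
      G.card * X + Y * (2 * H + 1) := by
    rw [sum_add_distrib, sum_const, nsmul_eq_mul, ← sum_filter, sum_const, nsmul_eq_mul]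
    have h4 : ((G.filter fun c => c ∈ E).card : ℝ) ≤ Y := by
      refine le_trans ?_ hEc
      exact_mod_cast card_le_card fun c hc => (mem_filter.1 hc).2
    have h5 : (0 : ℝ) ≤ 2 * H + 1 := by positivity
    nlinarith
  have h4 : (B.card : ℝ) * (2 * H + 1) ≤
      ∑ c ∈ G, ((T.filter fun t : ℤ => bad (shi j c (t : 𝓞 K))).card : ℝ) := by
    exact_mod_cast h1
  refine h4.trans (h2.trans (h3.trans ?_))
  rw [hGc]
  push_cast
  exact le_refl _

/-- zeros of a polynomial in a box -/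
theorem zeros_box [Fintype ι] [DecidableEq ι] (K : Type) [Field K] [NumberField K]
    (P : MvPolynomial ι ℤ) (x₀ : ι → ℂ) (hx : vl x₀ P ≠ 0) : ∃ C : ℝ, 0 ≤ C ∧ ∀ H : ℕ, 1 ≤ H →
    ∀ B : Finset (ι → 𝓞 K), (∀ c ∈ B, (∀ i, c i ∈ box K H) ∧ vl c P = 0) →
      (B.card : ℝ) * H ≤ C * (H : ℝ) ^ (Fintype.card ι * Module.finrank ℚ K) := by
  classical
  obtain ⟨τ, hτ⟩ := mv_zeros P x₀ hx (𝓞 K)
  set d := Module.finrank ℚ K with hd
  have hd0 : 1 ≤ d := Module.finrank_pos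
  refine ⟨τ * (3 : ℝ) ^ (Fintype.card ι * d), by positivity, fun H hH B hB => ?_⟩
  have hHR : (1 : ℝ) ≤ H := by exact_mod_cast hH
  set S := box K H with hS
  have hSne : S.Nonempty := ⟨0, by rw [hS, mem_box]; intro i; simp⟩
  have h1 := hτ S hSne
  have h2 : B.card ≤ ((Fintype.piFinset fun _ : ι => S).filter fun c => vl c P = 0).card := by
    refine card_le_card fun c hc => ?_
    rw [mem_filter, Fintype.mem_piFinset]
    exact hB c hc
  have h3 : (H : ℝ) ≤ S.card := by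
    rw [hS, card_box]
    push_cast
    calc (H : ℝ) ≤ (2 * H + 1) := by linarith
      _ ≤ (2 * H + 1) ^ d := by
        conv_lhs => rw [← pow_one (2 * (H : ℝ) + 1)]
        exact pow_le_pow_right₀ (by linarith) hd0
  have h4 : (B.card : ℝ) * S.card ≤ τ * (S.card : ℝ) ^ Fintype.card ι := by
    exact_mod_cast (Nat.mul_le_mul_right _ h2).trans h1
  have h5 : (S.card : ℝ) ^ Fintype.card ι ≤ (3 * H : ℝ) ^ (Fintype.card ι * d) := by
    rw [hS, card_box, mul_comm (Fintype.card ι) d, pow_mul]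
    push_cast
    exact pow_le_pow_left₀ (by positivity)
      (pow_le_pow_left₀ (by positivity) (by linarith) _) _
  calc (B.card : ℝ) * H ≤ B.card * S.card := mul_le_mul_of_nonneg_left h3 (Nat.cast_nonneg _)
    _ ≤ τ * (S.card : ℝ) ^ Fintype.card ι := h4
    _ ≤ τ * (3 * H : ℝ) ^ (Fintype.card ι * d) := mul_le_mul_of_nonneg_left h5 (Nat.cast_nonneg _)
    _ = τ * (3 : ℝ) ^ (Fintype.card ι * d) * (H : ℝ) ^ (Fintype.card ι * d) := by
      rw [mul_pow, mul_assoc]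

/-- averaging, with the zeros of a polynomial as exceptions -/
theorem avg_gen [Fintype ι] [DecidableEq ι] (K : Type) [Field K] [NumberField K] (j : ι)
    (P : MvPolynomial ι ℤ) (x₀ : ι → ℂ) (hx : vl x₀ P ≠ 0) (A : ℕ)
    (hA : ∀ H : ℕ, ∀ x ∈ box K H, ∀ t ∈ Icc (-(H : ℤ)) H, x - (t : 𝓞 K) ∈ box K (A * H))
    (hA1 : 1 ≤ A) (δ : ℝ) (hδ : δ ≤ 1) (C₁ : ℝ) (hC₁ : 0 ≤ C₁) :
    ∃ C : ℝ, 0 ≤ C ∧ ∀ H : ℕ, 1 ≤ H → ∀ bad : (ι → 𝓞 K) → Prop,
      (∀ c, (∀ i, c i ∈ box K (A * H)) → vl c P ≠ 0 → ∀ Z : Finset ℤ,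
        (∀ t ∈ Z, t ∈ Icc (-(H : ℤ)) H ∧ bad (shi j c (t : 𝓞 K))) →
          (Z.card : ℝ) ≤ C₁ * (H : ℝ) ^ (1 - δ)) →
      ∀ B : Finset (ι → 𝓞 K), (∀ c ∈ B, (∀ i, c i ∈ box K H) ∧ bad c) →
        (B.card : ℝ) ≤ C * (H : ℝ) ^ ((Fintype.card ι * Module.finrank ℚ K : ℕ) - δ : ℝ) := by
  classical
  obtain ⟨C₂, hC₂, h2⟩ := zeros_box K P x₀ hx
  set d := Module.finrank ℚ K with hd
  set N := Fintype.card ι * d with hN
  have hAR : (1 : ℝ) ≤ A := by exact_mod_cast hA1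
  refine ⟨(3 * A : ℝ) ^ N * C₁ + C₂ * (A : ℝ) ^ N, by positivity, fun H hH bad hbad B hB => ?_⟩
  have hHR : (1 : ℝ) ≤ H := by exact_mod_cast hH
  have hH0 : (0 : ℝ) < H := by linarith
  have hAH : 1 ≤ A * H := Nat.mul_pos hA1 hH
  set E : Finset (ι → 𝓞 K) := (Fintype.piFinset fun _ => box K (A * H)).filter fun c =>
    vl c P = 0 with hE
  have hE1 : ∀ c, (∀ i, c i ∈ box K (A * H)) → vl c P = 0 → c ∈ E := fun c hc h => by
    rw [hE, mem_filter, Fintype.mem_piFinset]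
    exact ⟨hc, h⟩
  have hE2 := h2 (A * H) hAH E fun c hc => by
    rw [hE, mem_filter, Fintype.mem_piFinset] at hc
    exact hc
  have hE3 : (E.card : ℝ) ≤ C₂ * (A : ℝ) ^ N * (H : ℝ) ^ N / H := by
    rw [le_div_iff₀ hH0]
    push_cast at hE2
    calc (E.card : ℝ) * H ≤ E.card * (A * H) :=
          mul_le_mul_of_nonneg_left (by nlinarith) (Nat.cast_nonneg _)
      _ ≤ C₂ * (A * H : ℝ) ^ N := hE2
      _ = C₂ * (A : ℝ) ^ N * (H : ℝ) ^ N := by rw [mul_pow, mul_assoc]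
  have h3 := avg j A hA hA1 bad (fun c => vl c P = 0) H (C₁ * (H : ℝ) ^ (1 - δ)) _ (by positivity)
    B hB E hE1 hE3 (fun c hc h => hbad c hc h)
  have h5 : (((2 * (A * H) + 1 : ℕ) : ℝ) ^ d) ^ Fintype.card ι ≤ (3 * A * H : ℝ) ^ N := by
    rw [← pow_mul, mul_comm d, ← hN]
    refine pow_le_pow_left₀ (by positivity) ?_ _
    push_cast
    nlinarith
  set P₀ : ℝ := (H : ℝ) ^ ((N : ℕ) - δ : ℝ) with hP₀
  have hP₀0 : 0 < P₀ := by positivity
  have e1 : (H : ℝ) ^ N * (H : ℝ) ^ (1 - δ) = P₀ * H := by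
    rw [hP₀, ← Real.rpow_natCast, ← Real.rpow_add hH0]
    conv_rhs => rw [← Real.rpow_one (H : ℝ), ← Real.rpow_mul hH0.le, one_mul,
      ← Real.rpow_add hH0]
    congr 1
    ring
  have e2 : (H : ℝ) ^ N / H ≤ P₀ := by
    rw [hP₀, ← Real.rpow_natCast, ← Real.rpow_sub_one hH0.ne']
    exact Real.rpow_le_rpow_of_exponent_le hHR (by linarith)
  have h6 : (B.card : ℝ) * (2 * H + 1) ≤
      ((3 * A : ℝ) ^ N * C₁ + C₂ * (A : ℝ) ^ N) * P₀ * (2 * H + 1) := by
    refine h3.trans ?_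
    have f1 : (((2 * (A * H) + 1 : ℕ) : ℝ) ^ d) ^ Fintype.card ι * (C₁ * (H : ℝ) ^ (1 - δ)) ≤
        (3 * A : ℝ) ^ N * C₁ * P₀ * (2 * H + 1) := by
      calc (((2 * (A * H) + 1 : ℕ) : ℝ) ^ d) ^ Fintype.card ι * (C₁ * (H : ℝ) ^ (1 - δ))
          ≤ (3 * A * H : ℝ) ^ N * (C₁ * (H : ℝ) ^ (1 - δ)) :=
            mul_le_mul_of_nonneg_right h5 (by positivity)
        _ = (3 * A : ℝ) ^ N * C₁ * ((H : ℝ) ^ N * (H : ℝ) ^ (1 - δ)) := by
            rw [mul_pow]
            ring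
        _ = (3 * A : ℝ) ^ N * C₁ * P₀ * H := by rw [e1]; ring
        _ ≤ (3 * A : ℝ) ^ N * C₁ * P₀ * (2 * H + 1) :=
            mul_le_mul_of_nonneg_left (by linarith) (by positivity)
    have f2 : C₂ * (A : ℝ) ^ N * (H : ℝ) ^ N / H * (2 * H + 1) ≤
        C₂ * (A : ℝ) ^ N * P₀ * (2 * H + 1) := by
      refine mul_le_mul_of_nonneg_right ?_ (by positivity)
      rw [mul_div_assoc]
      exact mul_le_mul_of_nonneg_left e2 (by positivity)
    have f3 : ((3 * A : ℝ) ^ N * C₁ + C₂ * (A : ℝ) ^ N) * P₀ * (2 * H + 1) =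
        (3 * A : ℝ) ^ N * C₁ * P₀ * (2 * H + 1) + C₂ * (A : ℝ) ^ N * P₀ * (2 * H + 1) := by ring
    rw [f3]
    exact add_le_add f1 f2
  exact le_of_mul_le_mul_right h6 (by positivity)

/-- few translates have a small conjugate -/
theorem small_conj {K : Type} [Field K] [NumberField K] (a : 𝓞 K) (R : ℝ) (hR : 0 ≤ R)
    (Z : Finset ℤ) (hZ : ∀ t ∈ Z, ∃ σ : K →+* ℂ, ‖em σ (a + (t : 𝓞 K))‖ ≤ R) :
    (Z.card : ℝ) ≤ Module.finrank ℚ K * (2 * R + 1) := by
  classical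
  have h1 : Z ⊆ (univ : Finset (K →+* ℂ)).biUnion fun σ =>
      Z.filter fun t : ℤ => ‖em σ (a + (t : 𝓞 K))‖ ≤ R := by
    intro t ht
    obtain ⟨σ, hσ⟩ := hZ t ht
    rw [mem_biUnion]
    exact ⟨σ, mem_univ _, mem_filter.2 ⟨ht, hσ⟩⟩
  have h2 : ∀ σ ∈ (univ : Finset (K →+* ℂ)),
      ((Z.filter fun t : ℤ => ‖em σ (a + (t : 𝓞 K))‖ ≤ R).card : ℝ) ≤ 2 * R + 1 := by
    intro σ _
    set x : ℝ := (em σ a).re with hx
    have h3 : (Z.filter fun t : ℤ => ‖em σ (a + (t : 𝓞 K))‖ ≤ R) ⊆ Icc ⌈-x - R⌉ ⌊-x + R⌋ := by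
      intro t ht
      rw [mem_filter] at ht
      have h4 : |x + t| ≤ R := by
        refine le_trans ?_ ht.2
        have h5 : x + t = (em σ (a + (t : 𝓞 K))).re := by
          rw [map_add, map_intCast, Complex.add_re, Complex.intCast_re]
        rw [h5]
        exact Complex.abs_re_le_norm _
      rw [abs_le] at h4
      rw [mem_Icc, Int.ceil_le, Int.le_floor]
      constructor <;> linarith [h4.1, h4.2]
    have h4 : ((Z.filter fun t : ℤ => ‖em σ (a + (t : 𝓞 K))‖ ≤ R).card : ℝ) ≤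
        ((Icc ⌈-x - R⌉ ⌊-x + R⌋).card : ℝ) := by exact_mod_cast card_le_card h3
    refine h4.trans ?_
    rw [Int.card_Icc]
    have h5 := Int.floor_le (-x + R)
    have h6 := Int.le_ceil (-x - R)
    rcases le_or_gt 0 (⌊-x + R⌋ + 1 - ⌈-x - R⌉) with h7 | h7
    · have h8 : ((⌊-x + R⌋ + 1 - ⌈-x - R⌉).toNat : ℝ) = ((⌊-x + R⌋ + 1 - ⌈-x - R⌉ : ℤ) : ℝ) := by
        have := Int.toNat_of_nonneg h7
        exact_mod_cast congrArg (Int.cast : ℤ → ℝ) this
      rw [h8]
      push_cast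
      linarith
    · rw [Int.toNat_of_nonpos h7.le]
      push_cast
      linarith
  have h3 : (Z.card : ℝ) ≤ ∑ σ : K →+* ℂ,
      ((Z.filter fun t : ℤ => ‖em σ (a + (t : 𝓞 K))‖ ≤ R).card : ℝ) := by
    exact_mod_cast (card_le_card h1).trans card_biUnion_le
  refine h3.trans ((sum_le_card_nsmul _ _ _ h2).trans ?_)
  rw [card_univ, Embeddings.card, nsmul_eq_mul]

end Pool.Agent.K4H5.PC
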