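import Pool.Agent.K4H5.PC.El4
import Pool.Agent.K4H5.PC.Gen
import Pool.Agent.K4H5.HF.Loc

/-!
Nodal places and smoothness.
-/

set_option autoImplicit false
set_option linter.unusedSectionVars false

open NumberField IsDedekindDomain Polynomial Finset

namespace Pool.Agent.K4H5.PC

open Pool.Agent.K4H5.HF (nr nv em Nm Dd fp)

section ring

variable {R S : Type} [CommRing R] [CommRing S]

theorem sh_map {D : ℕ} (φ : R →+* S) (c : Idx D → R) (t : R) :
    (fun p => φ (sh c t p)) = sh (fun p => φ (c p)) (φ t) := by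
  funext p
  unfold sh
  rw [map_add]
  split_ifs <;> simp

theorem it_ne_i0 {n : ℕ} (i : Fin (n + 1 + 1)) : (it i : Idx (n + 1)) ≠ i0 (n + 1) := by
  intro h
  have h1 : px (it i : Idx (n + 1)) + py (it i : Idx (n + 1)) = 0 := by
    rw [h]
    rfl
  have h2 : px (it i : Idx (n + 1)) + py (it i : Idx (n + 1)) = n + 1 := by
    show (i : ℕ) + (n + 1 - i) = n + 1
    have := i.2
    omega
  omega

theorem tf_sh {n : ℕ} (c : Idx (n + 1) → R) (t : R) : tf (sh c t) = tf c := by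
  unfold tf
  refine sum_congr rfl fun i _ => ?_
  unfold sh
  rw [if_neg (it_ne_i0 i), add_zero]

end ring

section field

variable {k : Type} [Field k] [IsAlgClosed k] {n : ℕ} (hn : 1 ≤ n) (c : Idx (n + 1) → k)
  (hm : mm c ≠ 0)

include hm in
theorem mm_factors : (((n + 1 : ℕ) : k) * c (iy (n + 1)) ≠ 0) ∧ (ra c).coeff (n ^ 2) ≠ 0 ∧
    resultant (ra c) (ru 0 c) (n ^ 2) (Mb n) ≠ 0 ∧
    resultant (cP c) (derivative (cP c)) (n ^ 2) (n ^ 2 - 1) ≠ 0 ∧
    ((n + 1 : ℕ) : k) * c (it (Fin.last (n + 1))) ≠ 0 ∧ Dd (top c) ≠ 0 := by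
  unfold mm at hm
  have a1 := left_ne_zero_of_mul hm
  have a2 := left_ne_zero_of_mul a1
  have a3 := left_ne_zero_of_mul a2
  have a4 := left_ne_zero_of_mul a3
  exact ⟨left_ne_zero_of_mul a4, right_ne_zero_of_mul a4, right_ne_zero_of_mul a3,
    right_ne_zero_of_mul a2, right_ne_zero_of_mul a1, right_ne_zero_of_mul hm⟩

include hn hm in
theorem nr_tf (t : k) : nr (tf (sh c t)) = n + 1 := by
  obtain ⟨-, -, -, -, h5, h6⟩ := mm_factors c hm
  rw [tf_sh]
  exact (Pool.Agent.K4H5.HF.nr_eq_iff (N := n + 1) (by omega) (top c) h5).2 h6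

include hn hm in
theorem oneNode_of (t : k) (ht : dP (sh c t) = 0) : OneNode (sh c t) := by
  classical
  obtain ⟨h1, h2, h3, h4, -, -⟩ := mm_factors c hm
  refine ⟨nr_tf hn c hm t, ?_⟩
  obtain ⟨x, y, hxy, hH, hu⟩ := star hn c h1 h2 h3 h4 t ht
  exact ⟨x, y, hxy, hH, fun x' y' h => hu x' y' h.1 h.2.1 h.2.2⟩

include hn hm in
theorem dP_of_sing (t : k) (x y : k) (h : Sing (sh c t) x y) : dP (sh c t) = 0 := by
  classical
  obtain ⟨h1, h2, h3, h4, -, -⟩ := mm_factors c hm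
  exact star_conv hn c h1 h2 h3 t ⟨x, y, h⟩

include hn hm in
theorem smooth_of (t : k) (ht : dP (sh c t) ≠ 0) : Smooth (sh c t) :=
  ⟨nr_tf hn c hm t, fun x y h => ht (dP_of_sing hn c hm t x y h)⟩

end field

variable {K : Type} [Field K] [NumberField K] {n : ℕ}

theorem rd_zero (v : HeightOneSpectrum (𝓞 K)) (x : 𝓞 K) : rd v x = 0 ↔ x ∈ v.asIdeal :=
  Pool.Agent.K4H5.HF.ph_zero v x

theorem nodal_of (hn : 1 ≤ n) (c : Idx (n + 1) → 𝓞 K) (t : 𝓞 K) (v : HeightOneSpectrum (𝓞 K))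
    (he : 2 * mm c ∉ v.asIdeal) (hx : dP (sh c t) ∈ v.asIdeal) : Nodal (sh c t) v := by
  have h2 : (2 : 𝓞 K) ∉ v.asIdeal := fun h => he (v.asIdeal.mul_mem_right _ h)
  have hm : mm c ∉ v.asIdeal := fun h => he (v.asIdeal.mul_mem_left _ h)
  rw [← rd_zero, mm_map] at hm
  rw [← rd_zero, dP_map, sh_map] at hx
  refine ⟨h2, ?_⟩
  rw [sh_map]
  exact oneNode_of hn _ hm _ hx

theorem of_nodal (hn : 1 ≤ n) (c : Idx (n + 1) → 𝓞 K) (t : 𝓞 K) (v : HeightOneSpectrum (𝓞 K))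
    (h : Nodal (sh c t) v) : 2 * mm c * dP (sh c t) ∈ v.asIdeal := by
  by_cases he : 2 * mm c ∈ v.asIdeal
  · exact v.asIdeal.mul_mem_right _ he
  have hm : mm c ∉ v.asIdeal := fun h => he (v.asIdeal.mul_mem_left _ h)
  rw [← rd_zero, mm_map] at hm
  refine v.asIdeal.mul_mem_left _ ?_
  rw [← rd_zero, dP_map, sh_map]
  obtain ⟨-, -, x, y, hs, -, -⟩ := h
  rw [sh_map] at hs
  exact dP_of_sing hn _ hm _ x y hs

theorem smooth_K (hn : 1 ≤ n) (c : Idx (n + 1) → 𝓞 K) (hm : mm c ≠ 0) (t : 𝓞 K)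
    (ht : dP (sh c t) ≠ 0) :
    Smooth fun p => algebraMap (𝓞 K) (AlgebraicClosure K) (sh c t p) := by
  have hinj : Function.Injective (algebraMap (𝓞 K) (AlgebraicClosure K)) :=
    FaithfulSMul.algebraMap_injective _ _
  rw [sh_map]
  refine smooth_of hn _ ?_ _ ?_
  · rw [← mm_map, Ne, map_eq_zero_iff _ hinj]
    exact hm
  · rw [← sh_map, ← dP_map, Ne, map_eq_zero_iff _ hinj]
    exact ht

/-- the conductor is divisible by nearly all primes which divide the norm of the discriminant -/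
theorem cond_ge (hn : 1 ≤ n) (c : Idx (n + 1) → 𝓞 K) (hm : mm c ≠ 0) (t : 𝓞 K)
    (ht : dP (sh c t) ≠ 0) :
    ∏ p ∈ (Nm (dP (sh c t))).primeFactors \ (Nm (2 * mm c)).primeFactors, p ≤
      cond (sh c t) := by
  classical
  have he : 2 * mm c ≠ 0 := mul_ne_zero two_ne_zero hm
  set Q := (Nm (dP (sh c t))).primeFactors \ (Nm (2 * mm c)).primeFactors with hQ
  have hQp : ∀ p ∈ Q, p.Prime := fun p hp => by
    rw [hQ, mem_sdiff] at hp
    exact Nat.prime_of_mem_primeFactors hp.1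
  have hex : ∀ p ∈ Q, ∃ v : HeightOneSpectrum (𝓞 K), (p : 𝓞 K) ∈ v.asIdeal ∧
      Nodal (sh c t) v := by
    intro p hp
    have hpp := hQp p hp
    rw [hQ, mem_sdiff] at hp
    obtain ⟨v, hv1, hv2⟩ := Pool.Agent.K4H5.HF.exists_v hpp ht (Nat.dvd_of_mem_primeFactors hp.1)
    refine ⟨v, hv1, nodal_of hn c t v ?_ hv2⟩
    intro h
    apply hp.2
    exact Nat.mem_primeFactors.2 ⟨hpp, Pool.Agent.K4H5.HF.p_dvd_Nm hpp hv1 h,
      Pool.Agent.K4H5.HF.Nm_ne he⟩
  have : Nonempty (HeightOneSpectrum (𝓞 K)) := by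
    obtain ⟨v, -⟩ := Pool.Agent.K4H5.HF.exists_v (K := K) Nat.prime_two (x := ((2 : ℕ) : 𝓞 K))
      (Nat.cast_ne_zero.2 two_ne_zero) (by
        rw [Pool.Agent.K4H5.HF.Nm_nat]
        exact dvd_pow_self 2 (Module.finrank_pos (R := ℚ) (M := K)).ne')
    exact ⟨v⟩
  choose! w hw1 hw2 using hex
  have hinj : Set.InjOn w Q := by
    intro p hp q hq hpq
    have h5 := hw1 p hp
    rw [hpq] at h5
    exact Pool.Agent.K4H5.HF.p_unique (hQp p hp) (hQp q hq) h5 (hw1 q hq)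
  have hz : 2 * mm c * dP (sh c t) ≠ 0 := mul_ne_zero he ht
  set B := (Pool.Agent.K4H5.HF.finite_above hz).toFinset with hB
  have hBm : ∀ v, v ∈ B ↔ 2 * mm c * dP (sh c t) ∈ v.asIdeal := fun v => by
    rw [hB, Set.Finite.mem_toFinset]
    rfl
  set f : HeightOneSpectrum (𝓞 K) → ℕ := fun v => if Nodal (sh c t) v then nv v else 1 with hf
  have hsupp : Function.mulSupport f ⊆ B := by
    intro v hv
    rw [Function.mem_mulSupport] at hv
    rw [mem_coe, hBm]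
    refine of_nodal hn c t v ?_
    by_contra hcon
    exact hv (if_neg hcon)
  have h1 : cond (sh c t) = ∏ v ∈ B, f v := by
    unfold cond
    rw [← finprod_eq_prod_of_mulSupport_subset f hsupp]
  rw [h1]
  have h2 : Q.image w ⊆ B := by
    intro v hv
    rw [mem_image] at hv
    obtain ⟨p, hp, rfl⟩ := hv
    rw [hBm]
    exact of_nodal hn c t _ (hw2 p hp)
  have h3 : ∏ v ∈ Q.image w, f v ≤ ∏ v ∈ B, f v := by
    refine prod_le_prod_of_subset_of_one_le' h2 fun v _ _ => ?_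
    show 1 ≤ if Nodal (sh c t) v then nv v else 1
    split_ifs
    · exact Nat.one_le_iff_ne_zero.2 (Pool.Agent.K4H5.HF.nv_ne v)
    · exact le_refl _
  refine le_trans ?_ h3
  rw [prod_image hinj]
  refine prod_le_prod' fun p hp => ?_
  show p ≤ if Nodal (sh c t) (w p) then nv (w p) else 1
  rw [if_pos (hw2 p hp)]
  exact Pool.Agent.K4H5.HF.p_le_nv (hQp p hp) (hw1 p hp)

end Pool.Agent.K4H5.PC
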