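import Pool.Agent.K4H5.PC.Rad

/-!
The inequality of Frey for almost all plane curves.
-/

set_option autoImplicit false
set_option linter.unusedSectionVars false

open NumberField IsDedekindDomain Polynomial Finset

namespace Pool.Agent.K4H5.PC

open Pool.Agent.K4H5.HF (nr nv em Nm Dd fp box box_size box_shift em_inj)

section line

variable {R S : Type} [CommRing R] [CommRing S] {D : ℕ}

/-- the index of `y ^ j` -/
def il (D : ℕ) (j : Fin (D + 1)) : Idx D := ⟨(0, j), by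
  show 0 + (j : ℕ) ≤ D
  omega⟩

/-- the coefficients of `f(0, y)` -/
def lc (c : Idx D → R) : Fin (D + 1) → R := fun j => c (il D j)

theorem sl_zero (c : Idx D → R) : sl c 0 = fp (lc c) := by
  classical
  unfold sl fp lc
  have h1 : ∀ p ∈ (univ : Finset (Idx D)), p ∉ univ.image (il D) →
      C (c p * (0 : R) ^ px p) * X ^ py p = 0 := by
    intro p _ hp
    have h2 : px p ≠ 0 := by
      intro h
      apply hp
      rw [mem_image]
      refine ⟨p.1.2, mem_univ _, ?_⟩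
      apply Subtype.ext
      apply Prod.ext
      · apply Fin.ext
        exact h.symm
      · rfl
    rw [zero_pow h2, mul_zero, C_0, zero_mul]
  rw [← sum_subset (subset_univ (univ.image (il D))) h1, sum_image]
  · refine sum_congr rfl fun j _ => ?_
    have h2 : px (il D j) = 0 := rfl
    have h3 : py (il D j) = (j : ℕ) := rfl
    rw [h2, h3, pow_zero, mul_one]
  · intro a _ b _ h
    have h4 : (il D a).1.2 = (il D b).1.2 := by rw [h]
    exact h4

/-- the discriminant of `f(0, y)` -/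
noncomputable def ww (c : Idx D → R) : R := Dd (lc c)

theorem ww_map (φ : R →+* S) (c : Idx D → R) : φ (ww c) = ww fun p => φ (c p) := by
  unfold ww
  rw [Pool.Agent.K4H5.HF.Dd_map]
  rfl

theorem ww_univ (c : Idx D → R) : ww c = vl c (ww (un D)) := by
  have h := ww_map (ue c) (un D)
  rw [ue_un] at h
  exact h.symm

end line

theorem sep_of_nr {N : ℕ} {f : ℂ[X]} (h0 : f ≠ 0) (h1 : f.natDegree = N) :
    nr f = N ↔ f.Separable := by
  classical
  rw [← nodup_roots_iff_of_splits h0 (IsAlgClosed.splits f)]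
  have h2 : Multiset.card f.roots = N := by
    rw [← (IsAlgClosed.splits f).natDegree_eq_card_roots, h1]
  unfold nr
  rw [← h2, Multiset.toFinset_card_eq_card_iff_nodup]

theorem ww_sep {n : ℕ} (hn : 1 ≤ n) (c : Idx (n + 1) → ℂ) (hc : c (iy (n + 1)) ≠ 0) :
    ww c ≠ 0 ↔ (sl c 0).Separable := by
  have hl : ((n + 1 : ℕ) : ℂ) * lc c (Fin.last (n + 1)) ≠ 0 :=
    mul_ne_zero (Nat.cast_ne_zero.2 (Nat.succ_ne_zero n)) hc
  have h0 := Pool.Agent.K4H5.HF.fp_ne (lc c) hl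
  have h1 := Pool.Agent.K4H5.HF.fp_deg (lc c) hl
  unfold ww
  rw [sl_zero, ← sep_of_nr h0 h1]
  exact (Pool.Agent.K4H5.HF.nr_eq_iff (by omega) _ hl).symm

theorem ww_wit {n : ℕ} (hn : 1 ≤ n) : ∃ c : Idx (n + 1) → ℂ, ww c ≠ 0 := by
  classical
  set c : Idx (n + 1) → ℂ := fun p =>
    if p = iy (n + 1) then 1 else if p = i0 (n + 1) then -1 else 0 with hc
  refine ⟨c, ?_⟩
  have hne : i0 (n + 1) ≠ iy (n + 1) := by
    intro h
    have : py (i0 (n + 1)) = py (iy (n + 1)) := by rw [h]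
    have h2 : py (iy (n + 1)) = n + 1 := rfl
    have h3 : py (i0 (n + 1)) = 0 := rfl
    omega
  have h1 : c (iy (n + 1)) = 1 := if_pos rfl
  rw [ww_sep hn c (by rw [h1]; exact one_ne_zero)]
  have h2 : sl c 0 = X ^ (n + 1) - C 1 := by
    unfold sl
    rw [sum_eq_add (i0 (n + 1)) (iy (n + 1)) hne]
    · have e1 : c (i0 (n + 1)) = -1 := by
        rw [hc]
        simp only
        rw [if_neg hne]
        simp
      have e2 : px (i0 (n + 1)) = 0 := rfl
      have e3 : py (i0 (n + 1)) = 0 := rfl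
      have e4 : px (iy (n + 1)) = 0 := rfl
      have e5 : py (iy (n + 1)) = n + 1 := rfl
      rw [h1, e1, e2, e3, e4, e5]
      simp
      ring
    · intro p _ hp
      have : c p = 0 := by
        rw [hc]
        simp only
        rw [if_neg hp.2, if_neg hp.1]
      rw [this, zero_mul, C_0, zero_mul]
    · intro h
      exact absurd (mem_univ _) h
    · intro h
      exact absurd (mem_univ _) h
  rw [h2]
  exact separable_X_pow_sub_C 1 (Nat.cast_ne_zero.2 (Nat.succ_ne_zero n)) one_ne_zero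

/-- the archimedean inequality -/
def ArchIneq (D : ℕ) : Prop := ∃ B : ℝ, 0 ≤ B ∧ ∀ (c : Idx D → ℂ) (M : ℝ), 1 ≤ M →
    (∀ p, ‖c p‖ ≤ M) → c (iy D) ≠ 0 → (∃ x : ℂ, (sl c x).Separable) →
    -(1 / 2) * Real.log (vol c) ≤ Fintype.card (Jdx D) * Real.log M +
      Fintype.card (Jdx D) * (D - 2 : ℝ) * (Real.log M - Real.log ‖c (iy D)‖) + B

theorem good_frey (K : Type) [Field K] [NumberField K] {n : ℕ} (hn : 1 ≤ n)
    (harch : ArchIneq (n + 1)) (C₀ : ℝ) (hC₀ : 1 ≤ C₀) (κ ε : ℝ) (hκ : 0 ≤ κ)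
    (hε0 : 0 ≤ ε) (hε : ε * (κ + (n - 1) * Fintype.card (Jdx (n + 1))) ≤
      κ - Fintype.card (Jdx (n + 1))) :
    ∃ C : ℝ, ∀ H : ℕ, 1 ≤ H → ∀ c : Idx (n + 1) → 𝓞 K, Sz (C₀ * H) c → Good ε H c →
      (∀ σ : K →+* ℂ, (H : ℝ) ^ (1 - ε) < ‖em σ (c (iy (n + 1)))‖) → ww c ≠ 0 →
      Frey κ C c := by
  obtain ⟨B, hB, h⟩ := harch
  set g : ℝ := (Fintype.card (Jdx (n + 1)) : ℝ) with hg
  have hg0 : 0 ≤ g := Nat.cast_nonneg _
  set d := Module.finrank ℚ K with hd
  have hd0 : 1 ≤ d := Module.finrank_pos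
  have hdR : (0 : ℝ) < d := by exact_mod_cast hd0
  have hn1 : (0 : ℝ) ≤ (n : ℝ) - 1 := by
    have : (1 : ℝ) ≤ n := by exact_mod_cast hn
    linarith
  have hlC : 0 ≤ Real.log C₀ := Real.log_nonneg hC₀
  refine ⟨g * Real.log C₀ + g * (n - 1) * Real.log C₀ + B, fun H hH c hc hgood hσ hw =>
    ⟨hgood.1, ?_⟩⟩
  have hHR : (1 : ℝ) ≤ H := by exact_mod_cast hH
  have hH0 : (0 : ℝ) < H := by linarith
  set L := Real.log H with hL
  have hL0 : 0 ≤ L := Real.log_nonneg hHR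
  have hM : 1 ≤ C₀ * H := by nlinarith
  have hlM : Real.log (C₀ * H) = Real.log C₀ + L := Real.log_mul (by positivity) hH0.ne'
  have hcond : (1 - ε) * L ≤ Real.log (cond c) := by
    rw [hL, ← Real.log_rpow hH0]
    exact Real.log_le_log (by positivity) hgood.2.le
  have hone : ∀ σ : K →+* ℂ, -(1 / 2) * Real.log (vol fun p => em σ (c p)) ≤
      g * (Real.log C₀ + L) + g * (n - 1) * (Real.log C₀ + ε * L) + B := by
    intro σ
    have hpos : (0 : ℝ) < ‖em σ (c (iy (n + 1)))‖ := lt_trans (by positivity) (hσ σ)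
    have hla : (1 - ε) * L ≤ Real.log ‖em σ (c (iy (n + 1)))‖ := by
      rw [hL, ← Real.log_rpow hH0]
      exact Real.log_le_log (by positivity) (hσ σ).le
    have h1 := h (fun p => em σ (c p)) (C₀ * H) hM (fun p => hc p σ) (norm_pos_iff.1 hpos)
      ⟨0, (ww_sep hn _ (norm_pos_iff.1 hpos)).1 (by
        rw [← ww_map, Ne, map_eq_zero_iff _ (em_inj σ)]
        exact hw)⟩
    rw [hlM] at h1
    refine h1.trans ?_
    have h2 : g * (((n + 1 : ℕ) : ℝ) - 2) * (Real.log C₀ + L -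
        Real.log ‖em σ (c (iy (n + 1)))‖) ≤ g * (n - 1) * (Real.log C₀ + ε * L) := by
      have h3 : ((n + 1 : ℕ) : ℝ) - 2 = n - 1 := by push_cast; ring
      rw [h3]
      refine mul_le_mul_of_nonneg_left ?_ (by positivity)
      linarith
    linarith
  unfold height
  have hsum : ∑ σ : K →+* ℂ, -(1 / 2) * Real.log (vol fun p => em σ (c p)) ≤
      d * (g * (Real.log C₀ + L) + g * (n - 1) * (Real.log C₀ + ε * L) + B) := by
    refine (sum_le_card_nsmul _ _ _ fun σ _ => hone σ).trans ?_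
    rw [card_univ, Embeddings.card, nsmul_eq_mul]
  have h1 : (d : ℝ)⁻¹ * ∑ σ : K →+* ℂ, -(1 / 2) * Real.log (vol fun p => em σ (c p)) ≤
      g * (Real.log C₀ + L) + g * (n - 1) * (Real.log C₀ + ε * L) + B := by
    rw [inv_mul_le_iff₀ hdR]
    exact hsum
  refine h1.trans ?_
  have h2 : κ * ((1 - ε) * L) ≤ κ * Real.log (cond c) := mul_le_mul_of_nonneg_left hcond hκ
  have h3 : (ε * (κ + (n - 1) * g)) * L ≤ (κ - g) * L := mul_le_mul_of_nonneg_right hε hL0
  nlinarith [h2, h3]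

/-- The inequality of Frey for almost all plane curves, given the archimedean inequality. -/
theorem frey_of_arch (K : Type) [Field K] [NumberField K] {n : ℕ} (hn : 2 ≤ n)
    (harch : ArchIneq (n + 1)) (κ δ : ℝ) (hκ : (Fintype.card (Jdx (n + 1)) : ℝ) < κ)
    (hδ : δ * (κ + (n - 1) * Fintype.card (Jdx (n + 1))) < κ - Fintype.card (Jdx (n + 1))) :
    ∃ C : ℝ, ∀ H : ℕ, 1 ≤ H → ∀ B : Finset (Idx (n + 1) → 𝓞 K),
      (∀ c ∈ B, (∀ p, c p ∈ box K H) ∧ ¬ Frey κ C c) →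
      (B.card : ℝ) ≤ C * (H : ℝ) ^ ((Fintype.card (Idx (n + 1)) * Module.finrank ℚ K : ℕ) -
        δ : ℝ) := by
  classical
  obtain ⟨C₀, hC₀, hsize⟩ := box_size K
  obtain ⟨A, hA1, hA⟩ := box_shift K
  have hAR : (1 : ℝ) ≤ A := by exact_mod_cast hA1
  have hCA : 1 ≤ C₀ * A := by nlinarith
  set g : ℝ := (Fintype.card (Jdx (n + 1)) : ℝ) with hg
  have hg0 : 0 ≤ g := Nat.cast_nonneg _
  have hn1 : (0 : ℝ) ≤ (n : ℝ) - 1 := by
    have : (2 : ℝ) ≤ n := by exact_mod_cast hn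
    linarith
  have hden : 0 < κ + (n - 1) * g := by
    have : 0 ≤ (n - 1) * g := mul_nonneg hn1 hg0
    linarith
  set ε : ℝ := (κ - g) / (κ + (n - 1) * g) with hε
  have hεe : ε * (κ + (n - 1) * g) = κ - g := div_mul_cancel₀ _ hden.ne'
  have hε0 : 0 < ε := div_pos (by linarith) hden
  have hε1 : ε ≤ 1 := by
    rw [hε, div_le_one hden]
    have : 0 ≤ (n - 1) * g := mul_nonneg hn1 hg0
    linarith
  have hδε : δ < ε := by
    rw [hε, lt_div_iff₀ hden]
    exact hδ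
  have hδ1 : δ ≤ 1 := hδε.le.trans hε1
  set d := Module.finrank ℚ K with hd
  set N := Fintype.card (Idx (n + 1)) * d with hN
  obtain ⟨Ca, ha⟩ := good_frey K (by omega : 1 ≤ n) harch C₀ hC₀ κ ε (by linarith) hε0.le
    hεe.le
  obtain ⟨C₁, hC₁, h1⟩ := good_count K (by omega : 1 ≤ n) (C₀ * A) hCA ε δ hδε hδ1
  obtain ⟨c₁, hc₁⟩ := mm_wit hn
  rw [mm_univ] at hc₁
  obtain ⟨C₂, hC₂, h2⟩ := avg_gen K (i0 (n + 1)) _ c₁ hc₁ A hA hA1 δ hδ1 C₁ hC₁.le
  obtain ⟨C₃, hC₃, h3⟩ := avg_gen K (iy (n + 1)) (1 : MvPolynomial (Idx (n + 1)) ℤ)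
    (fun _ => 0) (by rw [map_one]; exact one_ne_zero) A hA hA1 δ hδ1 (3 * d) (by positivity)
  obtain ⟨c₄, hc₄⟩ := ww_wit (by omega : 1 ≤ n)
  rw [ww_univ] at hc₄
  obtain ⟨C₄, hC₄, h4⟩ := zeros_box K _ c₄ hc₄
  refine ⟨max Ca (C₂ + C₃ + C₄), fun H hH B hB => ?_⟩
  have hHR : (1 : ℝ) ≤ H := by exact_mod_cast hH
  have hH0 : (0 : ℝ) < H := by linarith
  have hSz : ∀ c : Idx (n + 1) → 𝓞 K, (∀ i, c i ∈ box K (A * H)) → Sz (C₀ * A * H) c := by
    intro c hc i σ
    have := hsize (A * H) (c i) (hc i) σ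
    push_cast at this
    rw [mul_assoc]
    exact this
  set B₁ := B.filter fun c => ¬ Good ε H c with hB₁
  set B₂ := B.filter fun c => ∃ σ : K →+* ℂ, ‖em σ (c (iy (n + 1)))‖ ≤ (H : ℝ) ^ (1 - ε) with hB₂
  set B₃ := B.filter fun c => ww c = 0 with hB₃
  set P : ℝ := (H : ℝ) ^ ((N : ℕ) - δ : ℝ) with hP
  have hP0 : 0 < P := by positivity
  have g1 : (B₁.card : ℝ) ≤ C₂ * P := by
    refine h2 H hH (fun c => ¬ Good ε H c) ?_ B₁ ?_
    · intro c hc hm Z hZ
      rw [← mm_univ] at hm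
      exact h1 H hH c (hSz c hc) hm Z hZ
    · intro c hc
      rw [hB₁, mem_filter] at hc
      exact ⟨(hB c hc.1).1, hc.2⟩
  have g2 : (B₂.card : ℝ) ≤ C₃ * P := by
    refine h3 H hH (fun c => ∃ σ : K →+* ℂ, ‖em σ (c (iy (n + 1)))‖ ≤ (H : ℝ) ^ (1 - ε)) ?_ B₂ ?_
    · intro c hc _ Z hZ
      have e1 := small_conj (c (iy (n + 1))) ((H : ℝ) ^ (1 - ε)) (by positivity) Z
        fun t ht => by
          obtain ⟨σ, hσ⟩ := (hZ t ht).2
          refine ⟨σ, ?_⟩
          have e2 : shi (iy (n + 1)) c (t : 𝓞 K) (iy (n + 1)) = c (iy (n + 1)) + (t : 𝓞 K) := by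
            unfold shi
            rw [if_pos rfl]
          rw [e2] at hσ
          exact hσ
      refine e1.trans ?_
      have e3 : (H : ℝ) ^ (1 - ε) ≤ (H : ℝ) ^ (1 - δ) :=
        Real.rpow_le_rpow_of_exponent_le hHR (by linarith)
      have e4 : (1 : ℝ) ≤ (H : ℝ) ^ (1 - δ) := Real.one_le_rpow hHR (by linarith)
      have e5 : (0 : ℝ) ≤ d := Nat.cast_nonneg _
      rw [mul_comm (3 : ℝ), mul_assoc]
      refine mul_le_mul_of_nonneg_left ?_ e5
      linarith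
    · intro c hc
      rw [hB₂, mem_filter] at hc
      exact ⟨(hB c hc.1).1, hc.2⟩
  have g3 : (B₃.card : ℝ) ≤ C₄ * P := by
    have e1 := h4 H hH B₃ fun c hc => by
      rw [hB₃, mem_filter] at hc
      refine ⟨(hB c hc.1).1, ?_⟩
      rw [← ww_univ]
      exact hc.2
    have e2 : (H : ℝ) ^ N / H ≤ P := by
      rw [hP, ← Real.rpow_natCast, ← Real.rpow_sub_one hH0.ne']
      exact Real.rpow_le_rpow_of_exponent_le hHR (by linarith)
    rw [← le_div_iff₀ hH0, mul_div_assoc] at e1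
    exact e1.trans (mul_le_mul_of_nonneg_left e2 hC₄)
  have hsub : B ⊆ B₁ ∪ (B₂ ∪ B₃) := by
    intro c hc
    rw [mem_union, mem_union, hB₁, hB₂, hB₃, mem_filter, mem_filter, mem_filter]
    by_contra hcon
    have k1 : Good ε H c := by
      by_contra h
      exact hcon (Or.inl ⟨hc, h⟩)
    have k2 : ∀ σ : K →+* ℂ, (H : ℝ) ^ (1 - ε) < ‖em σ (c (iy (n + 1)))‖ := by
      intro σ
      by_contra h
      exact hcon (Or.inr (Or.inl ⟨hc, σ, not_lt.1 h⟩))
    have k3 : ww c ≠ 0 := fun h => hcon (Or.inr (Or.inr ⟨hc, h⟩))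
    obtain ⟨f1, f2⟩ := ha H hH c (fun i σ => hsize H (c i) ((hB c hc).1 i) σ) k1 k2 k3
    refine (hB c hc).2 ⟨f1, f2.trans ?_⟩
    have := le_max_left Ca (C₂ + C₃ + C₄)
    linarith
  have g4 : (B.card : ℝ) ≤ B₁.card + (B₂.card + B₃.card) := by
    have := (card_le_card hsub).trans ((card_union_le _ _).trans
      (Nat.add_le_add_left (card_union_le _ _) _))
    exact_mod_cast this
  calc (B.card : ℝ) ≤ (C₂ + C₃ + C₄) * P := by linarith
    _ ≤ max Ca (C₂ + C₃ + C₄) * P := mul_le_mul_of_nonneg_right (le_max_right _ _) hP0.le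

end Pool.Agent.K4H5.PC
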