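import Pool.Agent.K4H5.PC.Wit

/-!
The genericity condition is satisfied by some polynomial.
-/

set_option autoImplicit false
set_option linter.unusedSectionVars false

open Polynomial

namespace Pool.Agent.K4H5.PC

open Pool.Agent.K4H5.HF (fp Dd nr Dd_eq fp_coeff fp_natDegree)

/-- the parameters of the witness -/
theorem params {n : ℕ} (hn : 2 ≤ n) : ∃ (Z : Finset ℂ) (s l : ℂ), Z.card = n ∧
    (∀ z, z ∈ Z ↔ z ^ n = 1) ∧ s ≠ 0 ∧ l ^ (n + 1) + s ≠ 0 ∧
    (∀ a ∈ Z, ∀ b ∈ Z, ∀ a' ∈ Z, ∀ b' ∈ Z, a + s * b = a' + s * b' → a = a' ∧ b = b') ∧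
    (∀ a ∈ Z, ∀ b ∈ Z, ∀ a' ∈ Z, ∀ b' ∈ Z, a - l * b = a' - l * b' → a = a' ∧ b = b') ∧
    (∀ a ∈ Z, ∀ b ∈ Z, l ^ 2 * a ^ (n - 1) + s * b ^ (n - 1) ≠ 0) := by
  classical
  set Z : Finset ℂ := nthRootsFinset n (1 : ℂ) with hZ
  have hZm : ∀ z, z ∈ Z ↔ z ^ n = 1 := fun z => mem_nthRootsFinset (by omega) 1
  have hZc : Z.card = n := (Complex.isPrimitiveRoot_exp n (by omega)).card_nthRootsFinset
  have hZ0 : ∀ z ∈ Z, z ≠ 0 := by
    intro z hz h
    rw [hZm, h, zero_pow (by omega)] at hz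
    exact zero_ne_one hz
  -- the choice of s
  set Bs : Finset ℂ := insert 0 ((Z ×ˢ Z ×ˢ Z ×ˢ Z).image fun q =>
    (q.2.2.1 - q.1) / (q.2.1 - q.2.2.2)) with hBs
  obtain ⟨s, hs⟩ := Infinite.exists_notMem_finset Bs
  have hs0 : s ≠ 0 := by
    rintro rfl
    exact hs (Finset.mem_insert_self _ _)
  have hs1 : ∀ a ∈ Z, ∀ b ∈ Z, ∀ a' ∈ Z, ∀ b' ∈ Z, a + s * b = a' + s * b' →
      a = a' ∧ b = b' := by
    intro a ha b hb a' ha' b' hb' h
    by_cases hbb : b = b'
    · subst hbb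
      exact ⟨by linear_combination h, rfl⟩
    · exfalso
      apply hs
      refine Finset.mem_insert_of_mem (Finset.mem_image.2 ⟨(a, b, a', b'), ?_, ?_⟩)
      · simp [ha, hb, ha', hb']
      · have : b - b' ≠ 0 := sub_ne_zero.2 hbb
        show (a' - a) / (b - b') = s
        field_simp
        linear_combination -h
  -- the choice of l
  set Bl : Finset ℂ := ((Z ×ˢ Z ×ˢ Z ×ˢ Z).image fun q =>
    (q.1 - q.2.2.1) / (q.2.1 - q.2.2.2)) ∪ ((X ^ (n + 1) + C s : ℂ[X]).roots.toFinset ∪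
      (Z ×ˢ Z).biUnion fun q => (C (q.1 ^ (n - 1)) * X ^ 2 + C (s * q.2 ^ (n - 1)) :
        ℂ[X]).roots.toFinset) with hBl
  obtain ⟨l, hl⟩ := Infinite.exists_notMem_finset Bl
  rw [hBl, Finset.mem_union, Finset.mem_union, not_or, not_or] at hl
  obtain ⟨hl1, hl2, hl3⟩ := hl
  refine ⟨Z, s, l, hZc, hZm, hs0, ?_, hs1, ?_, ?_⟩
  · intro h
    apply hl2
    rw [Multiset.mem_toFinset, mem_roots (by
      intro h0
      have := congrArg (fun p => coeff p (n + 1)) h0
      simp [coeff_X_pow, coeff_C] at this), IsRoot]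
    simp only [eval_add, eval_pow, eval_X, eval_C]
    exact h
  · intro a ha b hb a' ha' b' hb' h
    by_cases hbb : b = b'
    · subst hbb
      exact ⟨by linear_combination h, rfl⟩
    · exfalso
      apply hl1
      refine Finset.mem_image.2 ⟨(a, b, a', b'), ?_, ?_⟩
      · simp [ha, hb, ha', hb']
      · have : b - b' ≠ 0 := sub_ne_zero.2 hbb
        show (a - a') / (b - b') = l
        field_simp
        linear_combination h
  · intro a ha b hb h
    apply hl3
    rw [Finset.mem_biUnion]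
    refine ⟨(a, b), Finset.mem_product.2 ⟨ha, hb⟩, ?_⟩
    rw [Multiset.mem_toFinset, mem_roots (by
      intro h0
      have h9 := congrArg (fun p => coeff p 2) h0
      simp only [coeff_add, coeff_C_mul, coeff_X_pow, if_true, mul_one, coeff_C, coeff_zero,
        if_neg (two_ne_zero : (2 : ℕ) ≠ 0), add_zero] at h9
      exact pow_ne_zero _ (hZ0 a ha) h9), IsRoot]
    simp only [eval_add, eval_mul, eval_pow, eval_X, eval_C]
    linear_combination h

theorem mm_wit {n : ℕ} (hn : 2 ≤ n) : ∃ c : Idx (n + 1) → ℂ, mm c ≠ 0 := by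
  classical
  obtain ⟨Z, s, l, hZc, hZm, hs0, hls, hval, hx, hdeg⟩ := params hn
  have hn1 : ((n : ℂ) + 1) ≠ 0 := by exact_mod_cast Nat.succ_ne_zero n
  set c := wc n s l with hc
  have h1 : ((n + 1 : ℕ) : ℂ) * c (iy (n + 1)) ≠ 0 := by
    rw [hc, wc_iy hn]
    exact mul_ne_zero (Nat.cast_ne_zero.2 (Nat.succ_ne_zero n)) hls
  have hZ0 : ∀ z ∈ Z, z ≠ 0 := by
    intro z hz h
    rw [hZm, h, zero_pow (by omega)] at hz
    exact zero_ne_one hz
  -- critical points
  have hcrit : ∀ x y, (ev c 0 1 x y = 0 ∧ ev c 1 0 x y = 0) ↔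
      ∃ a ∈ Z, y ∈ Z ∧ x = a - l * y := by
    intro x y
    rw [hc, wc_ev01 hn, wc_ev10 hn]
    constructor
    · rintro ⟨e1, e2⟩
      have e3 : (x + l * y) ^ n = 1 := by
        have := (mul_eq_zero.1 e2).resolve_left hn1
        linear_combination this
      have e4 : y ^ n = 1 := by
        have := (mul_eq_zero.1 e1).resolve_left hn1
        rw [e3] at this
        have h5 : s * (y ^ n - 1) = 0 := by linear_combination this
        have := (mul_eq_zero.1 h5).resolve_left hs0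
        linear_combination this
      exact ⟨x + l * y, (hZm _).2 e3, (hZm _).2 e4, by ring⟩
    · rintro ⟨a, ha, hy, rfl⟩
      have e1 := (hZm a).1 ha
      have e2 := (hZm y).1 hy
      have e3 : a - l * y + l * y = a := by ring
      rw [e3, e1, e2]
      constructor <;> ring
  have hroot : ∀ x, (ra c).eval x = 0 ↔ ∃ a ∈ Z, ∃ b ∈ Z, x = a - l * b := by
    intro x
    rw [ra_zero_iff c h1]
    constructor
    · rintro ⟨y, hy⟩
      obtain ⟨a, ha, hb, hab⟩ := (hcrit x y).1 hy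
      exact ⟨a, ha, y, hb, hab⟩
    · rintro ⟨a, ha, b, hb, hab⟩
      exact ⟨b, (hcrit x b).2 ⟨a, ha, hb, hab⟩⟩
  set T : Finset ℂ := (Z ×ˢ Z).image fun q => q.1 - l * q.2 with hT
  have hTm : ∀ x, x ∈ T ↔ (ra c).eval x = 0 := by
    intro x
    rw [hroot, hT, Finset.mem_image]
    constructor
    · rintro ⟨⟨a, b⟩, hab, rfl⟩
      rw [Finset.mem_product] at hab
      exact ⟨a, hab.1, b, hab.2, rfl⟩
    · rintro ⟨a, ha, b, hb, rfl⟩
      exact ⟨(a, b), Finset.mem_product.2 ⟨ha, hb⟩, rfl⟩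
  have hTc : T.card = n ^ 2 := by
    rw [hT, Finset.card_image_of_injOn, Finset.card_product, hZc, sq]
    rintro ⟨a, b⟩ hab ⟨a', b'⟩ hab' h
    rw [Finset.mem_coe, Finset.mem_product] at hab hab'
    obtain ⟨e1, e2⟩ := hx a hab.1 b hab.2 a' hab'.1 b' hab'.2 h
    rw [e1, e2]
  have hra0 : ra c ≠ 0 := by
    intro h0
    obtain ⟨x, hx⟩ := Infinite.exists_notMem_finset T
    apply hx
    rw [hTm, h0, eval_zero]
  have hTr : (ra c).roots.toFinset = T := by
    ext x
    rw [Multiset.mem_toFinset, mem_roots hra0, hTm]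
    rfl
  have hcard : Multiset.card (ra c).roots = n ^ 2 := by
    refine le_antisymm ((card_roots' _).trans (ra_natDegree c)) ?_
    rw [← hTc, ← hTr]
    exact Multiset.toFinset_card_le _
  have hnat : (ra c).natDegree = n ^ 2 := by
    rw [← hcard]
    exact (IsAlgClosed.splits _).natDegree_eq_card_roots
  have h2 : (ra c).coeff (n ^ 2) ≠ 0 := by
    rw [← hnat]
    exact leadingCoeff_ne_zero.2 hra0
  have hnodup : (ra c).roots.Nodup := by
    rw [← Multiset.toFinset_card_eq_card_iff_nodup, hTr, hTc, hcard]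
  have hru : ∀ x, (ra c).eval x = 0 → (ru 0 c).eval x ≠ 0 := by
    intro x hx0
    obtain ⟨a, ha, b, hb, hab⟩ := (hroot x).1 hx0
    have hcr := (hcrit x b).2 ⟨a, ha, hb, hab⟩
    have hbm : b ∈ (derivative (sl c x)).roots := by
      rw [mem_roots (dsl_ne c h1 x), IsRoot, sl_der_ev]
      exact hcr.1
    rw [ru_eval (by omega) c h1 0 (by omega) x b hbm (by rw [sx_ev]; exact hcr.2), pow_zero,
      one_mul]
    refine mul_ne_zero (pow_ne_zero _ h1) ?_
    intro h0
    rw [Multiset.prod_eq_zero_iff, Multiset.mem_map] at h0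
    obtain ⟨y, hy, hy2⟩ := h0
    rw [sx_ev] at hy2
    have hy3 : ev c 0 1 x y = 0 := by
      have := Multiset.mem_of_mem_erase hy
      rw [mem_roots (dsl_ne c h1 x), IsRoot, sl_der_ev] at this
      exact this
    obtain ⟨a', ha', hyZ, hxy⟩ := (hcrit x y).1 ⟨hy3, hy2⟩
    obtain ⟨-, hyb⟩ := hx a' ha' y hyZ a ha b hb (by rw [← hxy, ← hab])
    rw [hyb] at hy
    have h3 : 1 < (derivative (sl c x)).roots.count b := by
      rw [← Multiset.count_pos, Multiset.count_erase_self] at hy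
      omega
    rw [count_roots, one_lt_rootMultiplicity_iff_isRoot (dsl_ne c h1 x)] at h3
    have h4 := h3.2
    rw [IsRoot, sl_der2_ev, hc, wc_ev02 hn, hab] at h4
    have e3 : a - l * b + l * b = a := by ring
    rw [e3] at h4
    have hn0 : (n : ℂ) ≠ 0 := by exact_mod_cast (by omega : n ≠ 0)
    exact hdeg a ha b hb ((mul_eq_zero.1 h4).resolve_left (mul_ne_zero hn1 hn0))
  have h3 : resultant (ra c) (ru 0 c) (n ^ 2) (Mb n) ≠ 0 := by
    have h := resultant_eq_prod_eval (ra c) (ru 0 c) (Mb n) (ru_natDegree c)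
      (IsAlgClosed.splits _)
    rw [hnat] at h
    rw [h]
    refine mul_ne_zero (pow_ne_zero _ (leadingCoeff_ne_zero.2 hra0)) ?_
    intro h0
    rw [Multiset.prod_eq_zero_iff, Multiset.mem_map] at h0
    obtain ⟨x, hx1, hx2⟩ := h0
    exact hru x ((mem_roots hra0).1 hx1) hx2
  have h4 : resultant (cP c) (derivative (cP c)) (n ^ 2) (n ^ 2 - 1) ≠ 0 := by
    rw [cP_nodup_iff (by omega) c h1 h2 h3]
    refine Multiset.Nodup.map_on ?_ hnodup
    have hfv : ∀ x, (ra c).eval x = 0 → ∃ a ∈ Z, ∃ b ∈ Z, x = a - l * b ∧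
        fv c x = -(n : ℂ) * (a + s * b) := by
      intro x hx0
      obtain ⟨e1, e2⟩ := yc_spec c h1 hx0
      obtain ⟨a, ha, hb, hab⟩ := (hcrit x (yc c x)).1 ⟨e1, e2⟩
      refine ⟨a, ha, yc c x, hb, hab, ?_⟩
      unfold fv
      have e3 : ev c 0 0 x (yc c x) = (x + l * yc c x) ^ (n + 1) -
          (n + 1) * (x + l * yc c x) + s * (yc c x ^ (n + 1) - (n + 1) * yc c x) := by
        conv_lhs => rw [hc, wc_ev00 hn]
      have e4 : x + l * yc c x = a := by
        linear_combination hab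
      rw [e3, e4, pow_succ, pow_succ, (hZm a).1 ha, (hZm _).1 hb]
      ring
    intro x hx1 x' hx2 hxx
    obtain ⟨a, ha, b, hb, e1, e2⟩ := hfv x ((mem_roots hra0).1 hx1)
    obtain ⟨a', ha', b', hb', e1', e2'⟩ := hfv x' ((mem_roots hra0).1 hx2)
    rw [e2, e2'] at hxx
    have hn0 : -(n : ℂ) ≠ 0 := neg_ne_zero.2 (by exact_mod_cast (by omega : n ≠ 0))
    obtain ⟨f1, f2⟩ := hval a ha b hb a' ha' b' hb' (mul_left_cancel₀ hn0 hxx)
    rw [e1, e1', f1, f2]
  -- the top form
  have htop : fp (top c) = (X + C l) ^ (n + 1) + C s := wc_top hn s l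
  have h5c : c (it (Fin.last (n + 1))) = 1 := by
    have e1 : top c (Fin.last (n + 1)) = 1 := by
      have h := fp_coeff (top c) (Fin.last (n + 1))
      rw [htop, Fin.val_last, coeff_add, coeff_X_add_C_pow, coeff_C, if_neg (by omega),
        Nat.sub_self, Nat.choose_self, pow_zero, Nat.cast_one, mul_one, add_zero] at h
      exact h.symm
    exact e1
  have h5 : ((n + 1 : ℕ) : ℂ) * c (it (Fin.last (n + 1))) ≠ 0 := by
    rw [h5c, mul_one]
    exact Nat.cast_ne_zero.2 (Nat.succ_ne_zero n)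
  have h6 : Dd (top c) ≠ 0 := by
    have h5' : ((n + 1 : ℕ) : ℂ) * (top c) (Fin.last (n + 1)) ≠ 0 := h5
    rw [Dd_eq (by omega) (top c) h5']
    refine mul_ne_zero (pow_ne_zero _ h5') ?_
    intro h0
    rw [Multiset.prod_eq_zero_iff, Multiset.mem_map] at h0
    obtain ⟨b, hb, hb2⟩ := h0
    rw [htop] at hb hb2
    rw [mem_roots', IsRoot] at hb
    have hb3 := hb.2
    rw [derivative_add, derivative_C, add_zero, derivative_pow, derivative_add, derivative_X,
      derivative_C, add_zero, mul_one, eval_mul, eval_pow, eval_add, eval_X, eval_C,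
      Nat.add_sub_cancel] at hb3
    have hb4 : (b + l) ^ n = 0 := by
      rcases mul_eq_zero.1 hb3 with h | h
      · exfalso
        simp at h
        exact hn1 h
      · simpa using h
    have hb5 : b + l = 0 := pow_eq_zero_iff (by omega) |>.1 hb4
    rw [eval_add, eval_pow, eval_add, eval_X, eval_C, eval_C, hb5, zero_pow (by omega),
      zero_add] at hb2
    exact hs0 hb2
  refine ⟨c, ?_⟩
  unfold mm
  exact mul_ne_zero (mul_ne_zero (mul_ne_zero (mul_ne_zero (mul_ne_zero h1 h2) h3) h4) h5) h6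

end Pool.Agent.K4H5.PC
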