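import Pool.Agent.K4H5.PC.Loc
import Pool.Agent.K4H5.PC.Wit2

/-!
Few members of a pencil have a discriminant with a small radical.
-/

set_option autoImplicit false
set_option linter.unusedSectionVars false

open NumberField IsDedekindDomain Polynomial Finset

namespace Pool.Agent.K4H5.PC

open Pool.Agent.K4H5.HF (nr nv em Nm Dd fp Nm_ne Nm_mul Nm_nat Nm_le em_inj count_rad)

section univ

variable {R : Type} [CommRing R] {n : ℕ}

theorem mm_univ (c : Idx (n + 1) → R) : mm c = vl c (mm (un (n + 1))) := by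
  have h := mm_map (ue c) (un (n + 1))
  rw [ue_un] at h
  exact h.symm

theorem dP_univ (c : Idx (n + 1) → R) : dP c = vl c (dP (un (n + 1))) := by
  have h := dP_map (ue c) (un (n + 1))
  rw [ue_un] at h
  exact h.symm

end univ

variable {K : Type} [Field K] [NumberField K] {n : ℕ}

theorem em_mm (σ : K →+* ℂ) (c : Idx (n + 1) → 𝓞 K) (hm : mm c ≠ 0) :
    mm (fun p => em σ (c p)) ≠ 0 := by
  rw [← mm_map, Ne, map_eq_zero_iff _ (em_inj σ)]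
  exact hm

/-- few members of a pencil have a discriminant of given norm -/
theorem fib (hn : 1 ≤ n) (c : Idx (n + 1) → 𝓞 K) (hm : mm c ≠ 0) (w : ℕ)
    (Z : Finset ℤ) (hZ : ∀ t ∈ Z, Nm (dP (sh c (t : 𝓞 K))) = w) :
    Z.card ≤ 2 * (Module.finrank ℚ K * n ^ 2) := by
  classical
  have hne0 : ∀ σ : K →+* ℂ, cP (fun p => em σ (c p)) ≠ 0 := fun σ => by
    obtain ⟨h1, h2, h3, -, -, -⟩ := mm_factors _ (em_mm σ c hm)
    exact cP_ne hn _ h1 h2 h3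
  have hdeg0 : ∀ σ : K →+* ℂ, (cP (fun p => em σ (c p))).natDegree = n ^ 2 := fun σ => by
    obtain ⟨h1, h2, h3, -, -, -⟩ := mm_factors _ (em_mm σ c hm)
    exact cP_deg hn _ h1 h2 h3
  set P : ℂ[X] := ∏ σ : K →+* ℂ, cP (fun p => em σ (c p)) with hP
  have hdeg : P.natDegree = Module.finrank ℚ K * n ^ 2 := by
    rw [hP, natDegree_prod _ _ fun σ _ => hne0 σ,
      Finset.sum_congr rfl fun σ _ => hdeg0 σ, Finset.sum_const, Finset.card_univ,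
      Embeddings.card, smul_eq_mul]
  have hpos : 0 < Module.finrank ℚ K * n ^ 2 :=
    Nat.mul_pos Module.finrank_pos (pow_pos (by omega) 2)
  have hev : ∀ t : ℤ, P.eval (t : ℂ) = ((Algebra.norm ℤ (dP (sh c (t : 𝓞 K))) : ℤ) : ℂ) := by
    intro t
    have h2 : ((Algebra.norm ℤ (dP (sh c (t : 𝓞 K))) : ℤ) : ℚ) =
        Algebra.norm ℚ ((dP (sh c (t : 𝓞 K)) : 𝓞 K) : K) := Algebra.coe_norm_int _
    have h3 : ((Algebra.norm ℤ (dP (sh c (t : 𝓞 K))) : ℤ) : ℂ) =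
        algebraMap ℚ ℂ (Algebra.norm ℚ ((dP (sh c (t : 𝓞 K)) : 𝓞 K) : K)) := by
      rw [← h2]
      simp
    rw [h3, Algebra.norm_eq_prod_embeddings ℚ ℂ, hP, eval_prod]
    refine Fintype.prod_equiv (RingHom.equivRatAlgHom K ℂ) _ _ ?_
    intro σ
    rw [cP_eval]
    have h4 : sh (fun p => em σ (c p)) (t : ℂ) = fun p => em σ (sh c (t : 𝓞 K) p) := by
      rw [sh_map]
      simp
    rw [h4, ← dP_map]
    rfl
  have hsub : ∀ s : ℂ, (P - C s).natDegree = Module.finrank ℚ K * n ^ 2 := fun s => by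
    rw [natDegree_sub_C, hdeg]
  have hne : ∀ s : ℂ, P - C s ≠ 0 := fun s h => by
    have := hsub s
    rw [h, natDegree_zero] at this
    omega
  have hmem : Z.image (fun t : ℤ => (t : ℂ)) ⊆
      (P - C (w : ℂ)).roots.toFinset ∪ (P - C (-(w : ℂ))).roots.toFinset := by
    intro z hz
    rw [Finset.mem_image] at hz
    obtain ⟨t, ht, rfl⟩ := hz
    have h1 := hZ t ht
    unfold Nm at h1
    rw [Ideal.absNorm_span_singleton] at h1
    rw [Finset.mem_union, Multiset.mem_toFinset, Multiset.mem_toFinset, mem_roots (hne _),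
      mem_roots (hne _), IsRoot, IsRoot, eval_sub, eval_sub, eval_C, eval_C, hev]
    rcases Int.natAbs_eq (Algebra.norm ℤ (dP (sh c (t : 𝓞 K)))) with h2 | h2
    · left
      rw [h2, h1]
      simp
    · right
      rw [h2, h1]
      simp
  have h1 := Finset.card_le_card hmem
  rw [Finset.card_image_of_injective _ Int.cast_injective] at h1
  refine h1.trans ((Finset.card_union_le _ _).trans ?_)
  have h2 : ∀ s : ℂ, (P - C s).roots.toFinset.card ≤ Module.finrank ℚ K * n ^ 2 := fun s =>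
    (Multiset.toFinset_card_le _).trans ((card_roots' _).trans (hsub s).le)
  have h3 := h2 (w : ℂ)
  have h4 := h2 (-(w : ℂ))
  omega

theorem Sz_sh {C₀ : ℝ} {H : ℕ} {c : Idx (n + 1) → 𝓞 K} (hc : Sz (C₀ * H) c) {t : ℤ}
    (ht : t ∈ Icc (-(H : ℤ)) H) : Sz ((C₀ + 1) * H) (sh c (t : 𝓞 K)) := by
  intro i σ
  unfold sh
  rw [mem_Icc] at ht
  have h1 : |(t : ℝ)| ≤ H := abs_le.2 ⟨by exact_mod_cast ht.1, by exact_mod_cast ht.2⟩
  have h0 : (0 : ℝ) ≤ H := Nat.cast_nonneg _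
  split_ifs with hi
  · have h2 : (((c i + (t : 𝓞 K) : 𝓞 K)) : K) = (c i : K) + (t : K) := by
      have h3 := map_add (algebraMap (𝓞 K) K) (c i) (t : 𝓞 K)
      rw [map_intCast (algebraMap (𝓞 K) K) t] at h3
      exact h3
    rw [h2, map_add, map_intCast]
    refine (norm_add_le _ _).trans ?_
    rw [Complex.norm_intCast, add_mul, one_mul]
    exact add_le_add (hc i σ) h1
  · rw [add_zero]
    refine (hc i σ).trans ?_
    nlinarith

/-- few members of a pencil have a small radical -/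
theorem rad_count (K : Type) [Field K] [NumberField K] {n : ℕ} (hn : 1 ≤ n) (C₀ : ℝ)
    (hC₀ : 1 ≤ C₀) (ε δ : ℝ) (hδε : δ < ε) (hδ1 : δ ≤ 1) : ∃ C : ℝ, 0 < C ∧
    ∀ H : ℕ, 1 ≤ H → ∀ c : Idx (n + 1) → 𝓞 K, Sz (C₀ * H) c → mm c ≠ 0 → ∀ Z : Finset ℤ,
      (∀ t ∈ Z, t ∈ Icc (-(H : ℤ)) H ∧ (dP (sh c (t : 𝓞 K)) = 0 ∨
        ((∏ p ∈ (Nm (dP (sh c (t : 𝓞 K)))).primeFactors \
          (Nm (2 * mm c)).primeFactors, p : ℕ) : ℝ) ≤
            (H : ℝ) ^ (1 - ε))) → (Z.card : ℝ) ≤ C * (H : ℝ) ^ (1 - δ) := by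
  classical
  obtain ⟨B, A, hB, hb'⟩ := vl_nm K (dP (un (n + 1)))
  obtain ⟨B₂, A₂, hB₂, hb₂'⟩ := vl_nm K (mm (un (n + 1)))
  have hb : ∀ (c : Idx (n + 1) → 𝓞 K) (M : ℝ), 1 ≤ M → Sz M c →
      (Nm (dP c) : ℝ) ≤ (B * M ^ A) ^ Module.finrank ℚ K := fun c M h1 h2 => by
    rw [dP_univ]
    exact hb' c M h1 h2
  have hb₂ : ∀ (c : Idx (n + 1) → 𝓞 K) (M : ℝ), 1 ≤ M → Sz M c →
      (Nm (mm c) : ℝ) ≤ (B₂ * M ^ A₂) ^ Module.finrank ℚ K := fun c M h1 h2 => by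
    rw [mm_univ]
    exact hb₂' c M h1 h2
  set d := Module.finrank ℚ K with hd
  have hd0 : 0 < d := Module.finrank_pos
  set U : ℕ := ⌈(B * (C₀ + 1) ^ A) ^ d⌉₊ + ⌈(2 * (B₂ * C₀ ^ A₂)) ^ d⌉₊ + 1 with hU
  set E : ℕ := A * d + A₂ * d + 1 with hE
  have hE0 : (0 : ℝ) < E := by
    have : 0 < E := by omega
    exact_mod_cast this
  set ε₁ : ℝ := (ε - δ) / E with hε₁
  have hε₁0 : 0 < ε₁ := div_pos (by linarith) hE0
  obtain ⟨D, hD, hr⟩ := count_rad hε₁0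
  refine ⟨2 * (d * (n ^ 2 : ℕ)) * (1 + D * (U : ℝ) ^ ε₁) + 1, by positivity, ?_⟩
  intro H hH c hc hcl Z hZ
  have hHR : (1 : ℝ) ≤ H := by exact_mod_cast hH
  have hH0 : (0 : ℝ) < H := by linarith
  set m : ℕ := Nm (2 * mm c) with hm
  have hm0 : m ≠ 0 := by
    rw [hm]
    exact Nm_ne (mul_ne_zero two_ne_zero hcl)
  set X : ℕ := U * H ^ E with hX
  have hUp : 1 ≤ U := by omega
  have hX1 : 1 ≤ X := Nat.mul_pos hUp (pow_pos (by omega) _)
  have hpowH : ∀ a : ℕ, a ≤ E → (H : ℝ) ^ a ≤ (H : ℝ) ^ E := fun a ha =>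
    pow_le_pow_right₀ hHR ha
  have hmX : m ≤ X := by
    have h1 : (m : ℝ) ≤ (2 * (B₂ * C₀ ^ A₂)) ^ d * (H : ℝ) ^ (A₂ * d) := by
      have e2 : Nm (2 * mm c) = 2 ^ d * Nm (mm c) := by
        have := Nm_nat (K := K) 2
        rw [Nm_mul]
        congr 1
      rw [hm, e2]
      push_cast
      have h2 := hb₂ c (C₀ * H) (by nlinarith) hc
      have h3 : (2 * (B₂ * C₀ ^ A₂)) ^ d * (H : ℝ) ^ (A₂ * d) =
          2 ^ d * (B₂ * (C₀ * H) ^ A₂) ^ d := by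
        rw [mul_pow C₀ (H : ℝ) A₂, ← mul_assoc B₂, mul_pow (B₂ * C₀ ^ A₂), ← pow_mul,
          mul_pow (2 : ℝ)]
        ring
      rw [h3]
      exact mul_le_mul_of_nonneg_left h2 (by positivity)
    have h2 : (m : ℝ) ≤ X := by
      refine h1.trans ?_
      rw [hX]
      push_cast
      refine mul_le_mul ?_ (hpowH _ (by omega)) (by positivity) (by positivity)
      refine (Nat.le_ceil _).trans ?_
      rw [hU]
      push_cast
      have : (0 : ℝ) ≤ (⌈(B * (C₀ + 1) ^ A) ^ d⌉₊ : ℝ) := Nat.cast_nonneg _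
      linarith
    exact_mod_cast h2
  have hDX : ∀ t ∈ Icc (-(H : ℤ)) H, Nm (dP (sh c (t : 𝓞 K))) ≤ X := by
    intro t ht
    have h1 := hb _ ((C₀ + 1) * H) (by nlinarith) (Sz_sh hc ht)
    have h2 : ((Nm (dP (sh c (t : 𝓞 K))) : ℕ) : ℝ) ≤ X := by
      refine h1.trans ?_
      have h3 : (B * ((C₀ + 1) * H) ^ A) ^ d = (B * (C₀ + 1) ^ A) ^ d * (H : ℝ) ^ (A * d) := by
        rw [mul_pow ((C₀ + 1)) (H : ℝ), ← mul_assoc, mul_pow, ← pow_mul]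
      rw [h3, hX]
      push_cast
      refine mul_le_mul ?_ (hpowH _ (by omega)) (by positivity) (by positivity)
      refine (Nat.le_ceil _).trans ?_
      rw [hU]
      push_cast
      have : (0 : ℝ) ≤ (⌈(2 * (B₂ * C₀ ^ A₂)) ^ d⌉₊ : ℝ) := Nat.cast_nonneg _
      linarith
    exact_mod_cast h2
  set R : ℝ := (H : ℝ) ^ (1 - ε) with hR
  have hR0 : 0 ≤ R := by positivity
  set W := (Icc 1 X).filter fun w : ℕ =>
    ((∏ p ∈ w.primeFactors \ m.primeFactors, p : ℕ) : ℝ) ≤ R with hW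
  have hWc := hr X m hX1 (Nat.one_le_iff_ne_zero.2 hm0) hmX R hR0
  have hmaps : ∀ t ∈ Z, Nm (dP (sh c (t : 𝓞 K))) ∈ insert 0 W := by
    intro t ht
    obtain ⟨h1, h2⟩ := hZ t ht
    rw [mem_insert]
    by_cases h0 : dP (sh c (t : 𝓞 K)) = 0
    · left
      rw [h0]
      unfold Nm
      simp
    · right
      rcases h2 with h2 | h2
      · exact absurd h2 h0
      · rw [hW, mem_filter, mem_Icc]
        exact ⟨⟨Nat.one_le_iff_ne_zero.2 (Nm_ne h0), hDX t h1⟩, h2⟩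
  have hcard := Finset.card_le_mul_card_image_of_maps_to hmaps (2 * (d * n ^ 2))
    (fun w _ => fib hn c hcl w _ fun t ht => (mem_filter.1 ht).2)
  have h3 : (Z.card : ℝ) ≤ 2 * (d * (n ^ 2 : ℕ)) * (1 + W.card) := by
    have h4 : (insert 0 W).card ≤ 1 + W.card := by
      rw [add_comm]
      exact Finset.card_insert_le _ _
    have h5 := hcard.trans (Nat.mul_le_mul_left (2 * (d * n ^ 2)) h4)
    exact_mod_cast h5
  refine h3.trans ?_
  have hXε : (X : ℝ) ^ ε₁ = (U : ℝ) ^ ε₁ * (H : ℝ) ^ (ε - δ) := by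
    rw [hX]
    push_cast
    rw [Real.mul_rpow (by positivity) (by positivity), ← Real.rpow_natCast, ← Real.rpow_mul hH0.le]
    congr 2
    rw [hε₁]
    field_simp
  have h6 : (W.card : ℝ) ≤ D * (U : ℝ) ^ ε₁ * (H : ℝ) ^ (1 - δ) := by
    refine hWc.trans (le_of_eq ?_)
    rw [hXε, hR]
    have h7 : (H : ℝ) ^ (1 - δ) = (H : ℝ) ^ (ε - δ) * (H : ℝ) ^ (1 - ε) := by
      rw [← Real.rpow_add hH0]
      congr 1
      ring
    rw [h7]
    ring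
  have h8 : (1 : ℝ) ≤ (H : ℝ) ^ (1 - δ) := Real.one_le_rpow hHR (by linarith)
  have h9 : (0 : ℝ) ≤ 2 * (d * (n ^ 2 : ℕ)) := by positivity
  have h10 : (1 : ℝ) + W.card ≤ (1 + D * (U : ℝ) ^ ε₁) * (H : ℝ) ^ (1 - δ) := by
    rw [add_mul, one_mul]
    linarith
  calc 2 * (d * (n ^ 2 : ℕ)) * (1 + (W.card : ℝ))
      ≤ 2 * (d * (n ^ 2 : ℕ)) * ((1 + D * (U : ℝ) ^ ε₁) * (H : ℝ) ^ (1 - δ)) :=
        mul_le_mul_of_nonneg_left h10 h9
    _ ≤ (2 * (d * (n ^ 2 : ℕ)) * (1 + D * (U : ℝ) ^ ε₁) + 1) * (H : ℝ) ^ (1 - δ) := by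
        nlinarith

/-- smooth with a large conductor -/
def Good (ε : ℝ) (H : ℕ) (c : Idx (n + 1) → 𝓞 K) : Prop :=
  (Smooth fun p => algebraMap (𝓞 K) (AlgebraicClosure K) (c p)) ∧
    (H : ℝ) ^ (1 - ε) < cond c

theorem good_count (K : Type) [Field K] [NumberField K] {n : ℕ} (hn : 1 ≤ n) (C₀ : ℝ)
    (hC₀ : 1 ≤ C₀) (ε δ : ℝ) (hδε : δ < ε) (hδ1 : δ ≤ 1) : ∃ C : ℝ, 0 < C ∧
    ∀ H : ℕ, 1 ≤ H → ∀ c : Idx (n + 1) → 𝓞 K, Sz (C₀ * H) c → mm c ≠ 0 → ∀ Z : Finset ℤ,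
      (∀ t ∈ Z, t ∈ Icc (-(H : ℤ)) H ∧ ¬ Good ε H (sh c (t : 𝓞 K))) →
        (Z.card : ℝ) ≤ C * (H : ℝ) ^ (1 - δ) := by
  obtain ⟨C, hC, h⟩ := rad_count K hn C₀ hC₀ ε δ hδε hδ1
  refine ⟨C, hC, fun H hH c hc hm Z hZ => h H hH c hc hm Z fun t ht => ⟨(hZ t ht).1, ?_⟩⟩
  by_contra hcon
  rw [not_or, not_le] at hcon
  refine (hZ t ht).2 ⟨smooth_K hn c hm _ hcon.1, hcon.2.trans_le ?_⟩
  exact_mod_cast cond_ge hn c hm _ hcon.1

end Pool.Agent.K4H5.PC
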