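import Pool.Agent.K4H5.PC.TwDef
import Pool.Agent.K4H5.PC.Fin
import Pool.Agent.K4H5.HF.Det

/-!
The inequality of Frey for all quadratic twists of the Jacobians of almost all plane curves.
-/

set_option autoImplicit false
set_option linter.unusedSectionVars false

open NumberField IsDedekindDomain Polynomial Finset

namespace Pool.Agent.K4H5.PC

open Pool.Agent.K4H5.HF (nr nv em Nm Dd fp box box_size box_shift em_inj oddv oddv_finite
  log_nv_pos sum_log_const finite_above nv_ne Nm_ne Nm_mul Nm_nat)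

variable {K : Type} [Field K] [NumberField K]

/-- the norm of the genericity condition -/
theorem mm_nm (K : Type) [Field K] [NumberField K] (n : ℕ) (C₀ : ℝ) (hC₀ : 1 ≤ C₀) :
    ∃ U E : ℕ, 1 ≤ U ∧ ∀ H : ℕ, 1 ≤ H → ∀ c : Idx (n + 1) → 𝓞 K, Sz (C₀ * H) c →
      Nm (2 * mm c) ≤ U * H ^ E := by
  obtain ⟨B₂, A₂, hB₂, hb₂'⟩ := vl_nm K (mm (un (n + 1)))
  set d := Module.finrank ℚ K with hd
  refine ⟨⌈(2 * (B₂ * C₀ ^ A₂)) ^ d⌉₊ + 1, A₂ * d, by omega, fun H hH c hc => ?_⟩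
  have hHR : (1 : ℝ) ≤ H := by exact_mod_cast hH
  have h1 : ((Nm (2 * mm c) : ℕ) : ℝ) ≤ (2 * (B₂ * C₀ ^ A₂)) ^ d * (H : ℝ) ^ (A₂ * d) := by
    have e2 : Nm (2 * mm c) = 2 ^ d * Nm (mm c) := by
      have := Nm_nat (K := K) 2
      rw [Nm_mul]
      congr 1
    rw [e2]
    push_cast
    have h2 := hb₂' c (C₀ * H) (by nlinarith) hc
    rw [← mm_univ] at h2
    have h3 : (2 * (B₂ * C₀ ^ A₂)) ^ d * (H : ℝ) ^ (A₂ * d) =
        2 ^ d * (B₂ * (C₀ * H) ^ A₂) ^ d := by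
      rw [mul_pow C₀ (H : ℝ) A₂, ← mul_assoc B₂, mul_pow (B₂ * C₀ ^ A₂), ← pow_mul,
        mul_pow (2 : ℝ)]
      ring
    rw [h3]
    exact mul_le_mul_of_nonneg_left h2 (by positivity)
  have h2 : ((Nm (2 * mm c) : ℕ) : ℝ) ≤
      (((⌈(2 * (B₂ * C₀ ^ A₂)) ^ d⌉₊ + 1) * H ^ (A₂ * d) : ℕ) : ℝ) := by
    refine h1.trans ?_
    push_cast
    refine mul_le_mul_of_nonneg_right ?_ (by positivity)
    exact (Nat.le_ceil _).trans (by linarith)
  exact_mod_cast h2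

/-- smooth with a large conductor, and good or nodal outside the divisors of a controlled
integer -/
def GoodT {n : ℕ} (ε : ℝ) (H U E : ℕ) (c : Idx (n + 1) → 𝓞 K) : Prop :=
  Good ε H c ∧ ∃ m z : 𝓞 K, m ≠ 0 ∧ z ≠ 0 ∧ Nm m ≤ U * H ^ E ∧
    (∀ v : HeightOneSpectrum (𝓞 K), m ∉ v.asIdeal → (2 : 𝓞 K) ∉ v.asIdeal ∧
      ((Smooth fun p => rd v (c p)) ∨ OneNode fun p => rd v (c p))) ∧
    ∀ v : HeightOneSpectrum (𝓞 K), Nodal c v → z ∈ v.asIdeal

theorem goodT_count (K : Type) [Field K] [NumberField K] {n : ℕ} (hn : 1 ≤ n) (C₀ : ℝ)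
    (hC₀ : 1 ≤ C₀) (ε δ : ℝ) (hδε : δ < ε) (hδ1 : δ ≤ 1) : ∃ (C : ℝ) (U E : ℕ), 0 < C ∧ 1 ≤ U ∧
    ∀ H : ℕ, 1 ≤ H → ∀ c : Idx (n + 1) → 𝓞 K, Sz (C₀ * H) c → mm c ≠ 0 → ∀ Z : Finset ℤ,
      (∀ t ∈ Z, t ∈ Icc (-(H : ℤ)) H ∧ ¬ GoodT ε H U E (sh c (t : 𝓞 K))) →
        (Z.card : ℝ) ≤ C * (H : ℝ) ^ (1 - δ) := by
  obtain ⟨C, hC, h⟩ := rad_count K hn C₀ hC₀ ε δ hδε hδ1
  obtain ⟨U, E, hU, hUE⟩ := mm_nm K n C₀ hC₀
  refine ⟨C, U, E, hC, hU, fun H hH c hc hm Z hZ => h H hH c hc hm Z fun t ht =>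
    ⟨(hZ t ht).1, ?_⟩⟩
  by_contra hcon
  rw [not_or, not_le] at hcon
  have hm2 : 2 * mm c ≠ 0 := mul_ne_zero two_ne_zero hm
  refine (hZ t ht).2 ⟨⟨smooth_K hn c hm _ hcon.1, hcon.2.trans_le ?_⟩, 2 * mm c,
    2 * mm c * dP (sh c (t : 𝓞 K)), hm2, mul_ne_zero hm2 hcon.1, hUE H hH c hc, ?_, ?_⟩
  · exact_mod_cast cond_ge hn c hm _ hcon.1
  · intro v hv
    have h2 : (2 : 𝓞 K) ∉ v.asIdeal := fun h => hv (v.asIdeal.mul_mem_right _ h)
    refine ⟨h2, ?_⟩
    by_cases hx : dP (sh c (t : 𝓞 K)) ∈ v.asIdeal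
    · exact Or.inr (nodal_of hn c _ v hv hx).2
    · left
      have hm' : mm c ∉ v.asIdeal := fun h => hv (v.asIdeal.mul_mem_left _ h)
      rw [← rd_zero, mm_map] at hm'
      rw [← rd_zero, dP_map, sh_map] at hx
      rw [sh_map]
      exact smooth_of hn _ hm' _ hx
  · intro v hv
    exact of_nodal hn c _ v hv

theorem not_both {k : Type} [Field k] {D : ℕ} {c : Idx D → k} (h1 : Smooth c)
    (h2 : OneNode c) : False := by
  obtain ⟨-, x, y, h, -⟩ := h2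
  exact h1.2 x y h

theorem twistCond_ge {D g : ℕ} (hg : 1 ≤ g) (c : Idx D → 𝓞 K) {e : K} (he : e ≠ 0) {z : 𝓞 K}
    (hz : z ≠ 0) (hzv : ∀ v : HeightOneSpectrum (𝓞 K), Nodal c v → z ∈ v.asIdeal)
    (G : Finset (HeightOneSpectrum (𝓞 K)))
    (hG : ∀ v ∈ G, v ∈ oddv e ∧ (2 : 𝓞 K) ∉ v.asIdeal ∧
      ((Smooth fun p => rd v (c p)) ∨ OneNode fun p => rd v (c p))) :
    Real.log (cond c) + ∑ v ∈ G, Real.log (nv v) ≤ Real.log (twistCond g c e) := by
  classical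
  set O := (oddv_finite he).toFinset with hO
  have hOm : ∀ v, v ∈ O ↔ v ∈ oddv e := fun v => by rw [hO, Set.Finite.mem_toFinset]
  set W := (finite_above hz).toFinset with hW
  have hWm : ∀ v : HeightOneSpectrum (𝓞 K), Nodal c v → v ∈ W := fun v h => by
    rw [hW, Set.Finite.mem_toFinset]
    exact hzv v h
  set F := O ∪ W with hF
  have hsupp : Function.mulSupport (fun v : HeightOneSpectrum (𝓞 K) => nv v ^ expo g c e v) ⊆
      F := by
    intro v hv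
    by_contra hcon
    rw [hF, mem_coe, mem_union, not_or, hOm] at hcon
    obtain ⟨h1, h2⟩ := hcon
    apply hv
    show nv v ^ expo g c e v = 1
    have h4 : expo g c e v = 0 := by
      unfold expo
      rw [if_neg h1, if_neg fun h => h2 (hWm v h)]
    rw [h4, pow_zero]
  have hsupp2 : Function.mulSupport (fun v : HeightOneSpectrum (𝓞 K) =>
      if Nodal c v then nv v else 1) ⊆ F := by
    intro v hv
    rw [hF, mem_coe, mem_union]
    right
    apply hWm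
    by_contra hcon
    exact hv (if_neg hcon)
  have hGF : G ⊆ F := by
    intro v hv
    rw [hF, mem_union, hOm]
    exact Or.inl (hG v hv).1
  have hcond : cond c = ∏ v ∈ F, if Nodal c v then nv v else 1 := by
    unfold cond
    rw [← finprod_eq_prod_of_mulSupport_subset _ hsupp2]
  unfold twistCond
  rw [finprod_eq_prod_of_mulSupport_subset _ hsupp, hcond]
  push_cast
  rw [Real.log_prod fun v _ => pow_ne_zero _ (by exact_mod_cast nv_ne v)]
  rw [Real.log_prod fun v _ => by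
    split_ifs
    · exact_mod_cast nv_ne v
    · exact one_ne_zero]
  have h1 : ∀ v ∈ F, Real.log (if Nodal c v then (nv v : ℝ) else 1) +
      (if v ∈ G then Real.log (nv v) else 0) ≤ Real.log ((nv v : ℝ) ^ expo g c e v) := by
    intro v _
    rw [Real.log_pow]
    have hl := log_nv_pos v
    have hodd : v ∈ oddv e → ((2 : 𝓞 K) ∉ v.asIdeal ∧
        ((Smooth fun p => rd v (c p)) ∨ OneNode fun p => rd v (c p))) →
        2 * Real.log (nv v) ≤ (expo g c e v : ℝ) * Real.log (nv v) := by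
      intro h6 h5
      have h7 : expo g c e v = 2 * g := by
        unfold expo
        rw [if_pos h6, if_pos (show Tame c v from h5)]
      rw [h7]
      have h8 : (2 : ℝ) ≤ ((2 * g : ℕ) : ℝ) := by exact_mod_cast (by omega : 2 ≤ 2 * g)
      exact mul_le_mul_of_nonneg_right h8 hl.le
    by_cases h2 : Nodal c v
    · have h5 : (2 : 𝓞 K) ∉ v.asIdeal ∧
        ((Smooth fun p => rd v (c p)) ∨ OneNode fun p => rd v (c p)) := ⟨h2.1, Or.inr h2.2⟩
      rw [if_pos h2]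
      by_cases h6 : v ∈ oddv e
      · have h7 := hodd h6 h5
        split_ifs
        · linarith
        · linarith
      · rw [if_neg (fun h => h6 (hG v h).1), add_zero]
        have h7 : expo g c e v = 1 := by
          unfold expo
          rw [if_neg h6, if_pos h2]
        rw [h7]
        simp
    · rw [if_neg h2, Real.log_one, zero_add]
      split_ifs with h6
      · obtain ⟨h8, h9⟩ := hG v h6
        have h7 := hodd h8 h9
        linarith
      · positivity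
  have h2 := sum_le_sum h1
  rw [sum_add_distrib] at h2
  have h3 : ∑ v ∈ F, (if v ∈ G then Real.log (nv v) else 0) = ∑ v ∈ G, Real.log (nv v) := by
    rw [← sum_filter]
    congr 1
    ext v
    rw [mem_filter]
    exact ⟨fun h => h.2, fun h => ⟨hGF h, h⟩⟩
  rw [h3] at h2
  exact h2

theorem goodT_frey (K : Type) [Field K] [NumberField K] {n g : ℕ} (hn : 1 ≤ n) (hg : 1 ≤ g)
    (hgn : Fintype.card (Jdx (n + 1)) = g)
    (harch : ArchIneq (n + 1)) (C₀ : ℝ) (hC₀ : 1 ≤ C₀) (ε : ℝ) (hε0 : 0 ≤ ε) (hε : ε < 1)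
    (U E : ℕ) (hU : 1 ≤ U) :
    ∃ κ C : ℝ, 0 ≤ κ ∧ ∀ H : ℕ, 1 ≤ H → ∀ c : Idx (n + 1) → 𝓞 K, Sz (C₀ * H) c →
      GoodT ε H U E c →
      (∀ σ : K →+* ℂ, (H : ℝ) ^ (1 - ε) < ‖em σ (c (iy (n + 1)))‖) → ww c ≠ 0 →
      FreyTwists g κ C c := by
  classical
  obtain ⟨B, hB, h⟩ := harch
  set d := Module.finrank ℚ K with hd
  have hd0 : 1 ≤ d := Module.finrank_pos
  have hdR : (1 : ℝ) ≤ d := by exact_mod_cast hd0
  have hgR : (1 : ℝ) ≤ g := by exact_mod_cast hg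
  have hn1 : (0 : ℝ) ≤ (n : ℝ) - 1 := by
    have : (1 : ℝ) ≤ n := by exact_mod_cast hn
    linarith
  have hlC : 0 ≤ Real.log C₀ := Real.log_nonneg hC₀
  have hlU : 0 ≤ Real.log U := Real.log_natCast_nonneg _
  set a : ℝ := g + g * (n - 1) * ε + g / 2 * E with ha
  have ha0 : 0 ≤ a := by positivity
  have hε' : 0 < 1 - ε := by linarith
  refine ⟨a / (1 - ε) + g / 2, g * Real.log C₀ + g * (n - 1) * Real.log C₀ + B +
    g / 2 * Real.log U, by positivity, fun H hH c hc hgood hσ hw => ⟨hgood.1.1, fun e he => ?_⟩⟩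
  obtain ⟨⟨-, hcd⟩, m, z, hm, hz, hmU, hmv, hzv⟩ := hgood
  have hHR : (1 : ℝ) ≤ H := by exact_mod_cast hH
  have hH0 : (0 : ℝ) < H := by linarith
  set L := Real.log H with hL
  have hL0 : 0 ≤ L := Real.log_nonneg hHR
  have hM : 1 ≤ C₀ * H := by nlinarith
  have hlM : Real.log (C₀ * H) = Real.log C₀ + L := Real.log_mul (by positivity) hH0.ne'
  have hcond : (1 - ε) * L ≤ Real.log (cond c) := by
    rw [hL, ← Real.log_rpow hH0]
    exact Real.log_le_log (by positivity) hcd.le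
  have hone : ∀ σ : K →+* ℂ, -(1 / 2) * Real.log (vol fun p => em σ (c p)) ≤
      g * (Real.log C₀ + L) + g * (n - 1) * (Real.log C₀ + ε * L) + B := by
    intro σ
    have hpos : (0 : ℝ) < ‖em σ (c (iy (n + 1)))‖ := lt_trans (by positivity) (hσ σ)
    have hla : (1 - ε) * L ≤ Real.log ‖em σ (c (iy (n + 1)))‖ := by
      rw [hL, ← Real.log_rpow hH0]
      exact Real.log_le_log (by positivity) (hσ σ).le
    have h1 := h (fun p => em σ (c p)) (C₀ * H) hM (fun p => hc p σ) (norm_pos_iff.1 hpos)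
      ⟨0, (ww_sep hn _ (norm_pos_iff.1 hpos)).1 (by
        rw [← ww_map, Ne, map_eq_zero_iff _ (em_inj σ)]
        exact hw)⟩
    rw [hlM, hgn] at h1
    refine h1.trans ?_
    have h2 : (g : ℝ) * (((n + 1 : ℕ) : ℝ) - 2) * (Real.log C₀ + L -
        Real.log ‖em σ (c (iy (n + 1)))‖) ≤ g * (n - 1) * (Real.log C₀ + ε * L) := by
      have h3 : ((n + 1 : ℕ) : ℝ) - 2 = n - 1 := by push_cast; ring
      rw [h3]
      refine mul_le_mul_of_nonneg_left ?_ (by positivity)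
      linarith
    linarith
  have hsum : ∑ σ : K →+* ℂ, -(1 / 2) * Real.log (vol fun p => em σ (c p)) ≤
      d * (g * (Real.log C₀ + L) + g * (n - 1) * (Real.log C₀ + ε * L) + B) := by
    refine (sum_le_card_nsmul _ _ _ fun σ _ => hone σ).trans ?_
    rw [card_univ, Embeddings.card, nsmul_eq_mul]
  set O := (oddv_finite he).toFinset with hO
  have hOm : ∀ v, v ∈ O ↔ v ∈ oddv e := fun v => by rw [hO, Set.Finite.mem_toFinset]
  set G := O.filter fun v => m ∉ v.asIdeal with hG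
  set M := O.filter fun v => ¬ (m ∉ v.asIdeal) with hMs
  have hsplit : ∑ v ∈ G, Real.log (nv v) + ∑ v ∈ M, Real.log (nv v) =
      ∑ v ∈ O, Real.log (nv v) := sum_filter_add_sum_filter_not _ _ _
  have hMle : ∑ v ∈ M, Real.log (nv v) ≤ Real.log U + E * L := by
    refine (sum_log_const hm M fun v hv => not_not.1 (mem_filter.1 hv).2).trans ?_
    have hNm : 0 < Nm m := Nat.pos_of_ne_zero (Nm_ne hm)
    have h1 : ((Nm m : ℕ) : ℝ) ≤ U * (H : ℝ) ^ E := by exact_mod_cast hmU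
    refine (Real.log_le_log (by exact_mod_cast hNm) h1).trans (le_of_eq ?_)
    rw [Real.log_mul (by positivity) (by positivity), Real.log_pow]
  have hG0 : 0 ≤ ∑ v ∈ G, Real.log (nv v) := sum_nonneg fun v _ => (log_nv_pos v).le
  have htc := twistCond_ge hg c he hz hzv G fun v hv => by
    rw [hG, mem_filter, hOm] at hv
    exact ⟨hv.1, hmv v hv.2⟩
  unfold twistHeight
  rw [finsum_mem_eq_finite_toFinset_sum _ (oddv_finite he), ← hO, ← hsplit]
  set SG := ∑ v ∈ G, Real.log (nv v) with hSG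
  set SM := ∑ v ∈ M, Real.log (nv v) with hSM
  have e1 : (d : ℝ)⁻¹ * ((∑ σ : K →+* ℂ, -(1 / 2) * Real.log (vol fun p => em σ (c p))) +
      g / 2 * (SG + SM)) ≤ (g * (Real.log C₀ + L) + g * (n - 1) * (Real.log C₀ + ε * L) + B) +
        g / 2 * (SG + (Real.log U + E * L)) := by
    rw [inv_mul_le_iff₀ (by linarith)]
    have f1 : (g : ℝ) / 2 * (SG + SM) ≤ g / 2 * (SG + (Real.log U + E * L)) :=
      mul_le_mul_of_nonneg_left (by linarith) (by positivity)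
    have f2 : 0 ≤ (g : ℝ) / 2 * (SG + (Real.log U + E * L)) := by positivity
    nlinarith
  refine e1.trans ?_
  have e2 : (a / (1 - ε) + g / 2) * (Real.log (cond c) + SG) ≤
      (a / (1 - ε) + g / 2) * Real.log (twistCond g c e) :=
    mul_le_mul_of_nonneg_left htc (by positivity)
  have e3 : a * L ≤ a / (1 - ε) * Real.log (cond c) := by
    rw [div_mul_eq_mul_div, le_div_iff₀ hε', mul_assoc]
    refine mul_le_mul_of_nonneg_left ?_ ha0
    linarith
  have e4 : 0 ≤ (g : ℝ) / 2 * Real.log (cond c) :=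
    mul_nonneg (by positivity) (Real.log_natCast_nonneg _)
  have e5 : 0 ≤ a / (1 - ε) * SG := mul_nonneg (by positivity) hG0
  have e6 : (a / (1 - ε) + g / 2) * (Real.log (cond c) + SG) = a / (1 - ε) * Real.log (cond c) +
      g / 2 * Real.log (cond c) + a / (1 - ε) * SG + g / 2 * SG := by ring
  have e7 : a * L = (g : ℝ) * L + g * (n - 1) * ε * L + g / 2 * E * L := by rw [ha]; ring
  nlinarith

theorem twists_of_arch (K : Type) [Field K] [NumberField K] {n g : ℕ} (hn : 2 ≤ n)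
    (hg : 1 ≤ g) (hgn : Fintype.card (Jdx (n + 1)) = g)
    (harch : ArchIneq (n + 1)) (δ : ℝ) (hδ0 : 0 ≤ δ) (hδ : δ < 1) :
    ∃ κ C : ℝ, ∀ H : ℕ, 1 ≤ H → ∀ B : Finset (Idx (n + 1) → 𝓞 K),
      (∀ c ∈ B, (∀ p, c p ∈ box K H) ∧ ¬ FreyTwists g κ C c) →
      (B.card : ℝ) ≤ C * (H : ℝ) ^ ((Fintype.card (Idx (n + 1)) * Module.finrank ℚ K : ℕ) -
        δ : ℝ) := by
  classical
  obtain ⟨C₀, hC₀, hsize⟩ := box_size K
  obtain ⟨A, hA1, hA⟩ := box_shift K
  have hAR : (1 : ℝ) ≤ A := by exact_mod_cast hA1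
  have hCA : 1 ≤ C₀ * A := by nlinarith
  set ε : ℝ := (1 + δ) / 2 with hε
  have hδε : δ < ε := by rw [hε]; linarith
  have hε1 : ε < 1 := by rw [hε]; linarith
  have hε0 : 0 ≤ ε := by linarith
  set d := Module.finrank ℚ K with hd
  set N := Fintype.card (Idx (n + 1)) * d with hN
  obtain ⟨C₁, U, E, hC₁, hU, h1⟩ := goodT_count K (by omega : 1 ≤ n) (C₀ * A) hCA ε δ hδε hδ.le
  obtain ⟨κ, Ca, hκ, ha⟩ := goodT_frey K (by omega : 1 ≤ n) hg hgn harch C₀ hC₀ ε hε0 hε1 U E hU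
  obtain ⟨c₁, hc₁⟩ := mm_wit hn
  rw [mm_univ] at hc₁
  obtain ⟨C₂, hC₂, h2⟩ := avg_gen K (i0 (n + 1)) _ c₁ hc₁ A hA hA1 δ hδ.le C₁ hC₁.le
  obtain ⟨C₃, hC₃, h3⟩ := avg_gen K (iy (n + 1)) (1 : MvPolynomial (Idx (n + 1)) ℤ)
    (fun _ => 0) (by rw [map_one]; exact one_ne_zero) A hA hA1 δ hδ.le (3 * d) (by positivity)
  obtain ⟨c₄, hc₄⟩ := ww_wit (by omega : 1 ≤ n)
  rw [ww_univ] at hc₄
  obtain ⟨C₄, hC₄, h4⟩ := zeros_box K _ c₄ hc₄
  refine ⟨κ, max Ca (C₂ + C₃ + C₄), fun H hH B hB => ?_⟩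
  have hHR : (1 : ℝ) ≤ H := by exact_mod_cast hH
  have hH0 : (0 : ℝ) < H := by linarith
  have hSz : ∀ c : Idx (n + 1) → 𝓞 K, (∀ i, c i ∈ box K (A * H)) → Sz (C₀ * A * H) c := by
    intro c hc i σ
    have := hsize (A * H) (c i) (hc i) σ
    push_cast at this
    rw [mul_assoc]
    exact this
  set B₁ := B.filter fun c => ¬ GoodT ε H U E c with hB₁
  set B₂ := B.filter fun c => ∃ σ : K →+* ℂ, ‖em σ (c (iy (n + 1)))‖ ≤ (H : ℝ) ^ (1 - ε) with hB₂
  set B₃ := B.filter fun c => ww c = 0 with hB₃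
  set P : ℝ := (H : ℝ) ^ ((N : ℕ) - δ : ℝ) with hP
  have hP0 : 0 < P := by positivity
  have g1 : (B₁.card : ℝ) ≤ C₂ * P := by
    refine h2 H hH (fun c => ¬ GoodT ε H U E c) ?_ B₁ ?_
    · intro c hc hm Z hZ
      rw [← mm_univ] at hm
      exact h1 H hH c (hSz c hc) hm Z hZ
    · intro c hc
      rw [hB₁, mem_filter] at hc
      exact ⟨(hB c hc.1).1, hc.2⟩
  have g2 : (B₂.card : ℝ) ≤ C₃ * P := by
    refine h3 H hH (fun c => ∃ σ : K →+* ℂ, ‖em σ (c (iy (n + 1)))‖ ≤ (H : ℝ) ^ (1 - ε)) ?_ B₂ ?_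
    · intro c hc _ Z hZ
      have e1 := small_conj (c (iy (n + 1))) ((H : ℝ) ^ (1 - ε)) (by positivity) Z
        fun t ht => by
          obtain ⟨σ, hσ⟩ := (hZ t ht).2
          refine ⟨σ, ?_⟩
          have e2 : shi (iy (n + 1)) c (t : 𝓞 K) (iy (n + 1)) = c (iy (n + 1)) + (t : 𝓞 K) := by
            unfold shi
            rw [if_pos rfl]
          rw [e2] at hσ
          exact hσ
      refine e1.trans ?_
      have e3 : (H : ℝ) ^ (1 - ε) ≤ (H : ℝ) ^ (1 - δ) :=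
        Real.rpow_le_rpow_of_exponent_le hHR (by linarith)
      have e4 : (1 : ℝ) ≤ (H : ℝ) ^ (1 - δ) := Real.one_le_rpow hHR (by linarith)
      have e5 : (0 : ℝ) ≤ d := Nat.cast_nonneg _
      rw [mul_comm (3 : ℝ), mul_assoc]
      refine mul_le_mul_of_nonneg_left ?_ e5
      linarith
    · intro c hc
      rw [hB₂, mem_filter] at hc
      exact ⟨(hB c hc.1).1, hc.2⟩
  have g3 : (B₃.card : ℝ) ≤ C₄ * P := by
    have e1 := h4 H hH B₃ fun c hc => by
      rw [hB₃, mem_filter] at hc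
      refine ⟨(hB c hc.1).1, ?_⟩
      rw [← ww_univ]
      exact hc.2
    have e2 : (H : ℝ) ^ N / H ≤ P := by
      rw [hP, ← Real.rpow_natCast, ← Real.rpow_sub_one hH0.ne']
      exact Real.rpow_le_rpow_of_exponent_le hHR (by linarith)
    rw [← le_div_iff₀ hH0, mul_div_assoc] at e1
    exact e1.trans (mul_le_mul_of_nonneg_left e2 hC₄)
  have hsub : B ⊆ B₁ ∪ (B₂ ∪ B₃) := by
    intro c hc
    rw [mem_union, mem_union, hB₁, hB₂, hB₃, mem_filter, mem_filter, mem_filter]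
    by_contra hcon
    have k1 : GoodT ε H U E c := by
      by_contra h
      exact hcon (Or.inl ⟨hc, h⟩)
    have k2 : ∀ σ : K →+* ℂ, (H : ℝ) ^ (1 - ε) < ‖em σ (c (iy (n + 1)))‖ := by
      intro σ
      by_contra h
      exact hcon (Or.inr (Or.inl ⟨hc, σ, not_lt.1 h⟩))
    have k3 : ww c ≠ 0 := fun h => hcon (Or.inr (Or.inr ⟨hc, h⟩))
    obtain ⟨f1, f2⟩ := ha H hH c (fun i σ => hsize H (c i) ((hB c hc).1 i) σ) k1 k2 k3
    refine (hB c hc).2 ⟨f1, fun e he => (f2 e he).trans ?_⟩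
    have := le_max_left Ca (C₂ + C₃ + C₄)
    linarith
  have g4 : (B.card : ℝ) ≤ B₁.card + (B₂.card + B₃.card) := by
    have := (card_le_card hsub).trans ((card_union_le _ _).trans
      (Nat.add_le_add_left (card_union_le _ _) _))
    exact_mod_cast this
  calc (B.card : ℝ) ≤ (C₂ + C₃ + C₄) * P := by linarith
    _ ≤ max Ca (C₂ + C₃ + C₄) * P := mul_le_mul_of_nonneg_right (le_max_right _ _) hP0.le

end Pool.Agent.K4H5.PC
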