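import Pool.Agent.K4H5.PC.Def

/-!
Definitions: the height and the conductor of the quadratic twists of the Jacobian of a plane curve.
-/

set_option autoImplicit false

open NumberField IsDedekindDomain Polynomial

namespace Pool.Agent.K4H5.PC

open Pool.Agent.K4H5.HF (nv em oddv)

variable {K : Type} [Field K] [NumberField K] {D : ℕ}

/-- `v` does not divide `2` and the curve has good reduction or one node modulo `v` -/
def Tame (c : Idx D → 𝓞 K) (v : HeightOneSpectrum (𝓞 K)) : Prop :=
  (2 : 𝓞 K) ∉ v.asIdeal ∧ ((Smooth fun p => rd v (c p)) ∨ OneNode fun p => rd v (c p))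

open Classical in
/-- The exponent of the conductor of the twist `J_e` of the Jacobian `J` of the plane curve `c` of
genus `g` at the place `v`, if `v` does not divide `2` and the curve has good reduction or one node
modulo `v`; and `0` for the other places. -/
noncomputable def expo (g : ℕ) (c : Idx D → 𝓞 K) (e : K) (v : HeightOneSpectrum (𝓞 K)) : ℕ :=
  if v ∈ oddv e then (if Tame c v then 2 * g else 0) else if Nodal c v then 1 else 0

/-- a divisor of the conductor of `J_e` -/
noncomputable def twistCond (g : ℕ) (c : Idx D → 𝓞 K) (e : K) : ℕ :=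
  ∏ᶠ v : HeightOneSpectrum (𝓞 K), nv v ^ expo g c e v

/-- an upper bound for the height of `J_e` -/
noncomputable def twistHeight (g : ℕ) (c : Idx D → 𝓞 K) (e : K) : ℝ :=
  (Module.finrank ℚ K : ℝ)⁻¹ *
    ((∑ σ : K →+* ℂ, -(1 / 2) * Real.log (vol fun p => em σ (c p))) +
      g / 2 * ∑ᶠ v ∈ oddv e, Real.log (nv v))

/-- The projective plane curve is smooth, and the inequality of Frey with the slope `κ` and the
constant `C` holds for all the quadratic twists `J_e` of its Jacobian. -/
def FreyTwists (g : ℕ) (κ C : ℝ) (c : Idx D → 𝓞 K) : Prop :=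
  (Smooth fun p => algebraMap (𝓞 K) (AlgebraicClosure K) (c p)) ∧
    ∀ e : K, e ≠ 0 → twistHeight g c e ≤ κ * Real.log (twistCond g c e) + C

end Pool.Agent.K4H5.PC
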