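import Pool.Agent.K4H5.PC.El4
import Mathlib.RingTheory.RootsOfUnity.Complex
import Mathlib.Analysis.Complex.Polynomial.Basic

/-!
A polynomial with generic critical points.
-/

set_option autoImplicit false
set_option linter.unusedSectionVars false

open Polynomial

namespace Pool.Agent.K4H5.PC

open Pool.Agent.K4H5.HF (fp Dd nr Dd_eq fp_coeff fp_natDegree)

section total

variable {R : Type} [CommRing R]

/-- the total degree is at most `d` -/
def TD (d : ℕ) (W : R[X][X]) : Prop := ∀ j, W.coeff j ≠ 0 → (W.coeff j).natDegree + j ≤ d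

theorem TD.add {d : ℕ} {V W : R[X][X]} (hV : TD d V) (hW : TD d W) : TD d (V + W) := by
  intro j hj
  rw [coeff_add] at hj ⊢
  by_cases h1 : V.coeff j = 0
  · rw [h1, zero_add] at hj ⊢
    exact hW j hj
  · by_cases h2 : W.coeff j = 0
    · rw [h2, add_zero] at hj ⊢
      exact hV j hj
    · have e1 := hV j h1
      have e2 := hW j h2
      have e3 := natDegree_add_le (V.coeff j) (W.coeff j)
      have e4 : max (V.coeff j).natDegree (W.coeff j).natDegree ≤ d - j := max_le (by omega)
        (by omega)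
      omega

theorem TD.mul {a b : ℕ} {V W : R[X][X]} (hV : TD a V) (hW : TD b W) : TD (a + b) (V * W) := by
  intro j hj
  rw [coeff_mul] at hj ⊢
  have hj2 : j ≤ a + b := by
    by_contra hcon
    apply hj
    refine Finset.sum_eq_zero fun x hx => ?_
    rw [Finset.mem_antidiagonal] at hx
    by_contra h0
    have e1 := hV x.1 (left_ne_zero_of_mul h0)
    have e2 := hW x.2 (right_ne_zero_of_mul h0)
    omega
  have h1 : (∑ x ∈ Finset.antidiagonal j, V.coeff x.1 * W.coeff x.2).natDegree ≤ a + b - j := by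
    refine natDegree_sum_le_of_forall_le _ _ fun x hx => ?_
    rw [Finset.mem_antidiagonal] at hx
    by_cases h0 : V.coeff x.1 * W.coeff x.2 = 0
    · rw [h0]
      simp
    · have e1 := hV x.1 (left_ne_zero_of_mul h0)
      have e2 := hW x.2 (right_ne_zero_of_mul h0)
      refine natDegree_mul_le.trans ?_
      omega
  omega

theorem TD.mono {a b : ℕ} (h : a ≤ b) {V : R[X][X]} (hV : TD a V) : TD b V := fun j hj =>
  (hV j hj).trans h

theorem TD.const (p : R) : TD 0 (C (C p) : R[X][X]) := by
  intro j hj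
  rw [coeff_C] at hj ⊢
  split_ifs at hj ⊢ with h
  · rw [h]
    simp
  · exact absurd rfl hj

theorem TD.x : TD 1 (C X : R[X][X]) := by
  intro j hj
  rw [coeff_C] at hj ⊢
  split_ifs at hj ⊢ with h
  · rw [h]
    have := natDegree_X_le (R := R)
    omega
  · exact absurd rfl hj

theorem TD.y : TD 1 (X : R[X][X]) := by
  intro j hj
  rw [coeff_X] at hj ⊢
  split_ifs at hj ⊢ with h
  · rw [← h]
    simp
  · exact absurd rfl hj

theorem TD.pow {a : ℕ} {V : R[X][X]} (hV : TD a V) (m : ℕ) : TD (m * a) (V ^ m) := by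
  induction m with
  | zero =>
    rw [pow_zero, zero_mul]
    have := TD.const (1 : R)
    rwa [C_1, C_1] at this
  | succ m ih =>
    rw [pow_succ, Nat.succ_mul]
    exact ih.mul hV

theorem bp_coeff2 {D : ℕ} (c : Idx D → R) (i j : ℕ) : ((bp c).coeff j).coeff i =
    if h : i + j ≤ D then c ⟨(⟨i, by omega⟩, ⟨j, by omega⟩), h⟩ else 0 := by
  unfold bp
  rw [finsetSum_coeff, finsetSum_coeff]
  simp only [coeff_C_mul, coeff_X_pow, mul_ite, mul_one, mul_zero]
  split_ifs with h
  · rw [Finset.sum_eq_single ⟨(⟨i, by omega⟩, ⟨j, by omega⟩), h⟩]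
    · simp [px, py]
    · intro p _ hp
      split_ifs with h1
      · rw [coeff_C_mul, coeff_X_pow, if_neg, mul_zero]
        intro h2
        apply hp
        apply Subtype.ext
        apply Prod.ext
        · apply Fin.ext
          exact h2.symm
        · apply Fin.ext
          exact h1.symm
      · simp
    · intro h1
      exact absurd (Finset.mem_univ _) h1
  · refine Finset.sum_eq_zero fun p _ => ?_
    split_ifs with h1
    · rw [coeff_C_mul, coeff_X_pow, if_neg, mul_zero]
      intro h2
      have := pxy p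
      omega
    · simp

/-- the coefficients of a polynomial -/
noncomputable def cof (D : ℕ) (W : R[X][X]) : Idx D → R := fun p =>
  (W.coeff (py p)).coeff (px p)

theorem bp_cof {D : ℕ} {W : R[X][X]} (hW : TD D W) : bp (cof D W) = W := by
  ext j i
  rw [bp_coeff2]
  split_ifs with h
  · rfl
  · by_contra hne
    have h0 : W.coeff j ≠ 0 := by
      intro h0
      rw [h0, coeff_zero] at hne
      exact hne rfl
    have h1 := hW j h0
    have h2 := coeff_eq_zero_of_natDegree_lt (p := W.coeff j) (n := i) (by omega)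
    rw [h2] at hne
    exact hne rfl

theorem ev_x {D : ℕ} (c : Idx D → R) (x y : R) :
    (derivative ((bp c).eval (C y))).eval x = ev c 1 0 x y := by
  unfold bp ev
  rw [eval_finsetSum, derivative_sum, eval_finsetSum]
  refine Finset.sum_congr rfl fun p _ => ?_
  simp only [eval_mul, eval_C, eval_pow, eval_X, derivative_mul, derivative_C, derivative_X_pow,
    derivative_pow, Nat.descFactorial_one, Nat.descFactorial_zero, Nat.cast_one, mul_one,
    Nat.sub_zero]
  simp
  ring

end total

section wit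

/-- the polynomial -/
noncomputable def wW (n : ℕ) (s l : ℂ) : ℂ[X][X] :=
  (C X + C (C l) * X) ^ (n + 1) + C (C (-((n : ℂ) + 1))) * (C X + C (C l) * X) +
    C (C s) * (X ^ (n + 1) + C (C (-((n : ℂ) + 1))) * X)

theorem wW_TD {n : ℕ} (hn : 1 ≤ n) (s l : ℂ) : TD (n + 1) (wW n s l) := by
  have h1 : TD 1 (C X + C (C l) * X : ℂ[X][X]) :=
    TD.x.add (((TD.const l).mul TD.y).mono (by omega))
  refine TD.add (TD.add ?_ ?_) ?_
  · exact (h1.pow (n + 1)).mono (by omega)
  · exact ((TD.const _).mul h1).mono (by omega)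
  · refine ((TD.const s).mul (TD.add (d := n + 1) ?_ ?_)).mono (by omega)
    · exact (TD.y.pow (n + 1)).mono (by omega)
    · exact ((TD.const _).mul TD.y).mono (by omega)

/-- the coefficients -/
noncomputable def wc (n : ℕ) (s l : ℂ) : Idx (n + 1) → ℂ := cof (n + 1) (wW n s l)

variable {n : ℕ} (hn : 2 ≤ n) (s l : ℂ)

include hn in
theorem wc_sl (x : ℂ) : sl (wc n s l) x = (C x + C l * X) ^ (n + 1) +
    C (-((n : ℂ) + 1)) * (C x + C l * X) + C s * (X ^ (n + 1) + C (-((n : ℂ) + 1)) * X) := by
  rw [← bp_eval]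
  unfold wc
  rw [bp_cof (wW_TD (by omega) s l)]
  unfold wW
  simp

include hn in
theorem wc_ev00 (x y : ℂ) : ev (wc n s l) 0 0 x y = (x + l * y) ^ (n + 1) -
    (n + 1) * (x + l * y) + s * (y ^ (n + 1) - (n + 1) * y) := by
  rw [← sl_ev, wc_sl hn]
  simp
  ring

include hn in
theorem wc_ev01 (x y : ℂ) : ev (wc n s l) 0 1 x y =
    (n + 1) * (l * ((x + l * y) ^ n - 1) + s * (y ^ n - 1)) := by
  rw [← sl_der_ev, wc_sl hn]
  simp only [derivative_add, derivative_mul, derivative_C, zero_mul, zero_add, derivative_X,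
    derivative_X_pow, derivative_pow, eval_add, eval_mul, eval_C, eval_pow, eval_X, mul_one,
    Nat.add_sub_cancel]
  push_cast
  ring

include hn in
theorem wc_ev02 (x y : ℂ) : ev (wc n s l) 0 2 x y =
    (n + 1) * n * (l ^ 2 * (x + l * y) ^ (n - 1) + s * y ^ (n - 1)) := by
  rw [← sl_der2_ev, wc_sl hn]
  simp only [derivative_add, derivative_mul, derivative_C, zero_mul, zero_add, derivative_X,
    derivative_X_pow, derivative_pow, eval_add, eval_mul, eval_C, eval_pow, eval_X, mul_one,
    Nat.add_sub_cancel, add_zero, mul_zero, derivative_zero, eval_zero]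
  push_cast
  ring

include hn in
theorem wc_ev10 (x y : ℂ) : ev (wc n s l) 1 0 x y = (n + 1) * ((x + l * y) ^ n - 1) := by
  rw [← ev_x]
  unfold wc
  rw [bp_cof (wW_TD (by omega) s l)]
  unfold wW
  simp only [eval_add, eval_mul, eval_C, eval_pow, eval_X, derivative_add, derivative_mul,
    derivative_C, derivative_X, derivative_pow, zero_mul, zero_add, mul_zero, add_zero, mul_one,
    Nat.add_sub_cancel, eval_zero]
  push_cast
  simp
  ring

include hn in
theorem wc_iy : wc n s l (iy (n + 1)) = l ^ (n + 1) + s := by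
  rw [← sl_coeff (wc n s l) 0, wc_sl hn]
  simp only [C_0, zero_add, mul_pow, ← C_pow, coeff_add, coeff_C_mul, coeff_X_pow]
  simp [coeff_X, show ¬ (n = 0) by omega]

include hn in
theorem wc_top : fp (top (wc n s l)) = (X + C l) ^ (n + 1) + C s := by
  ext i
  rcases Nat.lt_or_ge i (n + 1 + 1) with hi | hi
  · have h1 := fp_coeff (top (wc n s l)) ⟨i, hi⟩
    rw [show ((⟨i, hi⟩ : Fin (n + 1 + 1)) : ℕ) = i from rfl] at h1
    rw [h1, coeff_add, coeff_X_add_C_pow, coeff_C]
    show ((wW n s l).coeff (n + 1 - i)).coeff i = _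
    unfold wW
    have e1 : (((C X + C (C l) * X : ℂ[X][X]) ^ (n + 1)).coeff (n + 1 - i)).coeff i =
        l ^ (n + 1 - i) * ((n + 1).choose i : ℂ) := by
      rw [add_pow, finsetSum_coeff, finsetSum_coeff, Finset.sum_eq_single i]
      · rw [← C_pow, mul_pow, ← C_pow, ← C_pow, ← C_eq_natCast]
        rw [show (C (X ^ i) * (C (C (l ^ (n + 1 - i))) * X ^ (n + 1 - i)) *
          C (((n + 1).choose i : ℂ[X])) : ℂ[X][X]) =
          C (X ^ i * C (l ^ (n + 1 - i)) * ((n + 1).choose i : ℂ[X])) * X ^ (n + 1 - i) by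
            simp only [C_mul]; ring]
        rw [coeff_C_mul, coeff_X_pow, if_pos rfl, mul_one, ← C_eq_natCast, mul_assoc, ← C_mul,
          coeff_X_pow_mul', if_pos le_rfl, Nat.sub_self, coeff_C_zero]
      · intro m hm hmi
        rw [Finset.mem_range] at hm
        rw [← C_pow, mul_pow, ← C_pow, ← C_pow, ← C_eq_natCast]
        rw [show (C (X ^ m) * (C (C (l ^ (n + 1 - m))) * X ^ (n + 1 - m)) *
          C (((n + 1).choose m : ℂ[X])) : ℂ[X][X]) =
          C (X ^ m * C (l ^ (n + 1 - m)) * ((n + 1).choose m : ℂ[X])) * X ^ (n + 1 - m) by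
            simp only [C_mul]; ring]
        rw [coeff_C_mul, coeff_X_pow, if_neg (by omega), mul_zero, coeff_zero]
      · intro h
        exact absurd (Finset.mem_range.2 hi) h
    have e2 : ((C X : ℂ[X][X]).coeff (n + 1 - i)).coeff i = 0 := by
      rw [coeff_C]
      split_ifs with h
      · rw [coeff_X, if_neg (by omega)]
      · exact coeff_zero i
    have e3 : ((X : ℂ[X][X]).coeff (n + 1 - i)).coeff i = 0 := by
      rw [coeff_X]
      split_ifs with h
      · rw [coeff_one, if_neg (by omega)]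
      · exact coeff_zero i
    have e4 : ((X ^ (n + 1) : ℂ[X][X]).coeff (n + 1 - i)).coeff i = if i = 0 then 1 else 0 := by
      rw [coeff_X_pow]
      by_cases h : i = 0
      · rw [if_pos (by omega), if_pos h, h, coeff_one_zero]
      · rw [if_neg (by omega), if_neg h, coeff_zero]
    have e5 : ∀ (a : ℂ) (W : ℂ[X][X]), ((C (C a) * W).coeff (n + 1 - i)).coeff i =
        a * (W.coeff (n + 1 - i)).coeff i := fun a W => by
      rw [coeff_C_mul, coeff_C_mul]
    have e6 : ∀ V W : ℂ[X][X], ((V + W).coeff (n + 1 - i)).coeff i =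
        (V.coeff (n + 1 - i)).coeff i + (W.coeff (n + 1 - i)).coeff i := fun V W => by
      rw [coeff_add, coeff_add]
    rw [e6, e6, e5, e6, e5, e5, e6, e5, e1, e2, e3, e4]
    split_ifs <;> ring
  · rw [coeff_eq_zero_of_natDegree_lt (lt_of_le_of_lt (fp_natDegree _) (by omega)), coeff_add,
      coeff_X_add_C_pow, coeff_C, if_neg (by omega), Nat.choose_eq_zero_of_lt (by omega)]
    simp

end wit

end Pool.Agent.K4H5.PC
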